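import Pool.Agent.Lib.MP_d9c039_lc.F.SpecA

set_option autoImplicit false

/-!
# MP_d9c039_lc, the full statement, module Add: a new token
-/

namespace Pool.Agent.D9f

open Finset

private theorem Add_mem {en : Finset ℕ} {p : ℕ → ℕ} {x y n b : ℕ} (hy : y ≠ x) :
    y ∈ PP (insert x en) (Function.update p x b) n ↔ y ∈ PP en p n := by
  rw [mem_PP, mem_PP, Finset.mem_insert, Function.update_of_ne hy]
  constructor
  · rintro ⟨h1, h2, h3⟩
    rcases h1 with h1 | h1
    · exact absurd h1 hy
    · exact ⟨h1, h2, h3⟩
  · rintro ⟨h1, h2, h3⟩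
    exact ⟨Or.inr h1, h2, h3⟩

private theorem Add_fS {en : Finset ℕ} {p : ℕ → ℕ} {pk : Finset ℕ} {e : ℕ → ℝ} {x n b : ℕ} (hx : e x = E0) :
    fS pk e (PP (insert x en) (Function.update p x b) n) = fS pk e (PP en p n) := by
  funext c
  unfold fS
  split_ifs with hc
  · rfl
  · refine Finset.sum_congr rfl fun y _ => ?_
    by_cases hy : y = x
    · subst hy
      rw [hx]
      simp only [ite_self]
    · by_cases h1 : y ∈ PP en p n
      · rw [if_pos h1, if_pos ((Add_mem hy).mpr h1)]
      · rw [if_neg h1, if_neg (fun h2 => h1 ((Add_mem hy).mp h2))]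

theorem tAdd : S_Add := by
  intro J en p D x h hx hxJ
  have hex : D.e x = E0 := h.fresh x hx
  have hne : ∀ y ∈ en, y ≠ x := fun y hy e => hx (e ▸ hy)
  have hup : ∀ y ∈ en, Function.update p x (8 * LL J) y = p y := fun y hy => Function.update_of_ne (hne y hy) _ _
  have hlamR : ∀ i q, D.lamR (insert x en) (Function.update p x (8 * LL J)) i q = D.lamR en p i q := by
    intro i q
    unfold Dat.lamR Dat.UR
    rw [Add_fS hex]
  refine { enlt := ?_, ple := ?_, cntw := ?_, e0 := h.e0, fresh := ?_, alive := ?_, neg := h.neg, kapge := h.kapge,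
           i3 := ?_, i4 := ?_, inj := h.inj, spc := h.spc, opn := h.opn }
  · intro y hy
    rcases Finset.mem_insert.mp hy with rfl | hy
    · exact hxJ
    · exact h.enlt y hy
  · intro y hy
    rcases Finset.mem_insert.mp hy with rfl | hy
    · rw [Function.update_self]
    · rw [hup y hy]
      exact h.ple y hy
  · intro n
    have h1 : PP (insert x en) (Function.update p x (8 * LL J)) n ⊆ insert x (PP en p n) := by
      intro y hy
      by_cases hyx : y = x
      · rw [hyx]
        exact Finset.mem_insert_self _ _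
      · exact Finset.mem_insert_of_mem ((Add_mem hyx).mp hy)
    have h2 := Finset.card_le_card h1
    have h3 := Finset.card_insert_le x (PP en p n)
    have h4 := h.cnt n
    exact h2.trans (h3.trans h4)
  · intro y hy
    exact h.fresh y fun h1 => hy (Finset.mem_insert_of_mem h1)
  · intro y hy hyp
    rcases Finset.mem_insert.mp hy with rfl | hy
    · rw [hex, E0_eq]
      linarith [c0_pos]
    · rw [hup y hy] at hyp
      exact h.alive y hy hyp
  · intro y hy hyp m hm1 hm2 hv
    rcases Finset.mem_insert.mp hy with rfl | hy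
    · have h0 : D.rho y = 0 := by
        unfold Dat.rho
        rw [hex, sub_self, zero_div]
      rw [h0, zero_mul]
      exact (Real.exp_pos _).le
    · rw [hup y hy] at hyp hm2
      simp only [hlamR]
      exact h.i3 y hy hyp m hm1 hm2 hv
  · intro v hv
    obtain ⟨a1, a2, a3, a4, a5, a6, a7⟩ := h.i4 v hv
    exact ⟨a1, Finset.mem_insert_of_mem a2, a3, a4, a5, a6, by rw [hup _ a2]; exact a7⟩

end Pool.Agent.D9f
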