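import Pool.Agent.Lib.MP_d9c039_lc.F.SpecG

set_option autoImplicit false

/-!
# MP_d9c039_lc, the full statement: module BCore (an A-event on the board)
-/

namespace Pool.Agent.D9f

open Finset
open Pool.Agent.D9 (cnt resp tabS)
open Pool.Agent.D9b (pendL drn plH LGood mList8 S_Plays S_Search S_Guess S_UM1 S_UM2 S_UM3 S_UC)
open Pool.Agent.D9c (mkH Enu)
open Pool.Agent.D9b (pendL_D pendL_A drn_D drn_A plH_cons_A plH_cons_D drn_of_pend)
open Pool.Agent.D9c (mkH_cons_A mkH_cons_D mem_mkH)

private theorem BCore_true {h : List (Bool × ℕ)} {x y : ℕ} (hy : (true, y) ∈ (false, x) :: h) :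
    (true, y) ∈ h := by
  rcases List.mem_cons.mp hy with h1 | h1
  · exact absurd (congrArg Prod.fst h1) (by simp)
  · exact h1

theorem tBCore (h1 : S_Tr) (h2 : S_TrS) (h3 : S_Self) (h4 : S_Core) : S_BCore := by
  intro S J h x hJ hb hSx hxN hx
  obtain ⟨D, hD, hmk⟩ := hb.co
  have hxS : x - S + S = x := by omega
  have hS := h2 S (8 * LL J) h x
  obtain ⟨he1, hp1⟩ := hS.1 hSx
  have hxe : x - S ∉ er S h := by
    intro hmem
    rw [hS.2.2.2.2 (x - S), hxS] at hmem
    exact hx hmem
  -- the history after the new token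
  have nd1 : (plH ((false, x) :: h)).Nodup := by
    rw [plH_cons_A, List.nodup_cons]
    exact ⟨hx, hb.nd⟩
  have lt1 : ∀ z ∈ plH ((false, x) :: h), z < S + 8 * LL J := by
    intro z hz
    rw [plH_cons_A] at hz
    rcases List.mem_cons.mp hz with h5 | h5
    · rw [h5]
      exact hxN
    · exact hb.lt z h5
  have dr1 : ∀ n, drn n ((false, x) :: h) ≤ 1 := by
    intro n
    rw [drn_A]
    split_ifs
    · exact Nat.zero_le _
    · exact hb.dr n
  have se1 : (pendL 0 S ((false, x) :: h)).length < 16 := by
    rw [pendL_A, if_neg (by omega)]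
    exact hb.se
  have pk1 : Pack S ((false, x) :: h) := h3.1 S h x hb.pk
  rcases h4 J (er S h) (pr S (8 * LL J) h) D (x - S) hJ hD hxe (by omega) with hcase | hcase
  · left
    refine ⟨nd1, lt1, ?_, dr1, se1, pk1, ?_, D, ?_, ?_⟩
    · rw [mkH_cons_A]
      exact hb.mnd
    · intro y hy hyS
      exact hb.sm y (BCore_true hy) hyS
    · rw [he1, hp1]
      exact hcase
    · intro y hy hyS
      exact hmk y (BCore_true hy) hyS
  · right
    obtain ⟨n0, x1, y0, D', hn0, hxP, hx1P, hx1y, hyn, hor, hInv⟩ := hcase
    have hySub : S + y0 - S = y0 := by omega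
    -- the mark is new
    have hnew : (true, S + y0) ∉ h := by
      intro hmem
      have h5 := hmk (S + y0) hmem (by omega)
      rw [hySub] at h5
      rcases hor with ⟨c, hc1, hc2, _, _⟩ | ⟨c, hc1, hc2, _, _⟩
      · rcases h5 with ⟨h6, h7⟩ | ⟨h6, h7⟩
        · apply hc2
          have : y0 / 8 = c := by omega
          rw [← this]
          exact h7
        · omega
      · rcases h5 with ⟨h6, h7⟩ | ⟨h6, h7⟩
        · omega
        · apply hc2
          have : y0 / 8 = c := by omega
          rw [← this]
          exact h7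
    have h4y : (S + y0 - S) % 4 = 0 := by
      rw [hySub]
      rcases hor with ⟨c, hc1, _, _, _⟩ | ⟨c, hc1, _, _, _⟩
      · omega
      · omega
    refine ⟨S + y0, by omega, by omega, h4y, hnew, ?_⟩
    have hS2 := h2 S (8 * LL J) ((false, x) :: h) (S + y0)
    refine ⟨?_, ?_, ?_, ?_, ?_, ?_, ?_, D', ?_, ?_⟩
    · rw [plH_cons_D]
      exact nd1
    · rw [plH_cons_D]
      exact lt1
    · rw [mkH_cons_D, List.nodup_cons, mkH_cons_A, mem_mkH]
      exact ⟨hnew, hb.mnd⟩
    · intro n
      rw [drn_D]
      split_ifs with hlt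
      · have h5 : drn n ((false, x) :: h) = 0 := by
          by_cases hxn : x < n
          · rw [drn_A, if_pos hxn]
          · have hxP' := (mem_PP.mp hxP).2.1
            have hmem : x1 ∈ PP (er S ((false, x) :: h)) (pr S (8 * LL J) ((false, x) :: h)) n0 := by
              rw [he1, hp1]
              exact hx1P
            have h6 := ((h1 S (8 * LL J) ((false, x) :: h) n0 nd1 (by omega) hn0).1 x1).mp hmem
            exact drn_of_pend S (n0 + S) n (x1 + S) _ h6 (by omega) (by omega)
        rw [h5]
      · exact dr1 n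
    · rw [pendL_D, if_neg (by omega)]
      exact se1
    · intro t ht hor2
      have h5 : t = 0 ∨ (1 ≤ t ∧ slf S (t - 1) ∧ (true, t - 1) ∉ (false, x) :: h) := by
        rcases hor2 with h6 | ⟨h6, h7, h8⟩
        · exact Or.inl h6
        · exact Or.inr ⟨h6, h7, fun h9 => h8 (List.mem_cons_of_mem _ h9)⟩
      have h6 := pk1 t ht h5
      rw [plH_cons_D, pendL_D, if_neg (by omega), mkH_cons_D, List.countP_cons_of_neg (by
        simp only [decide_eq_true_eq]
        omega)]
      exact h6
    · intro y hy hyS
      rcases List.mem_cons.mp hy with h5 | h5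
      · have h6 : y = S + y0 := congrArg Prod.snd h5
        omega
      · exact hb.sm y (BCore_true h5) hyS
    · have h5 : pr S (8 * LL J) ((true, S + y0) :: (false, x) :: h) =
          fun t => min (Function.update (pr S (8 * LL J) h) (x - S) (8 * LL J) t) y0 := by
        funext t
        rw [hS2.2.2.2.1 t, hp1, hySub]
      rw [hS2.2.2.1, he1, h5]
      exact hInv
    · intro y hy hyS
      rcases List.mem_cons.mp hy with h5 | h5
      · have h6 : y = S + y0 := congrArg Prod.snd h5
        rw [h6, hySub]
        rcases hor with ⟨c, hc1, _, hc3, hc4⟩ | ⟨c, hc1, _, hc3, hc4⟩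
        · left
          refine ⟨by omega, ?_⟩
          have : y0 / 8 = c := by omega
          rw [this, hc3]
          exact Finset.mem_insert_self _ _
        · right
          refine ⟨by omega, ?_⟩
          have : y0 / 8 = c := by omega
          rw [this, hc4]
          exact Finset.mem_insert_self _ _
      · have h6 := hmk y (BCore_true h5) hyS
        rcases hor with ⟨c, _, _, hc3, hc4⟩ | ⟨c, _, _, hc3, hc4⟩
        · rcases h6 with ⟨h7, h8⟩ | ⟨h7, h8⟩
          · left
            refine ⟨h7, ?_⟩
            rw [hc3]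
            exact Finset.mem_insert_of_mem h8
          · right
            refine ⟨h7, ?_⟩
            rw [hc4]
            exact h8
        · rcases h6 with ⟨h7, h8⟩ | ⟨h7, h8⟩
          · left
            refine ⟨h7, ?_⟩
            rw [hc3]
            exact h8
          · right
            refine ⟨h7, ?_⟩
            rw [hc4]
            exact Finset.mem_insert_of_mem h8

end Pool.Agent.D9f
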