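import Pool.Agent.Lib.MP_d9c039_lc.F.SpecG

set_option autoImplicit false

/-!
# MP_d9c039_lc, the full statement, module BInit: the empty history (helper95)
-/

namespace Pool.Agent.D9f

open Finset
open Pool.Agent.D9 (cnt resp tabS)
open Pool.Agent.D9b (pendL drn plH LGood mList8 S_Plays S_Search S_Guess S_UM1 S_UM2 S_UM3 S_UC)
open Pool.Agent.D9c (mkH Enu)

/-- The empty history. -/
theorem tBInit (h1 : S_Init) : S_BInit := by
  intro S J
  have her : er S [] = ∅ := rfl
  refine ⟨List.nodup_nil, fun x hx => absurd hx List.not_mem_nil, List.nodup_nil,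
    fun n => Nat.zero_le _, ?_, fun t _ _ => le_of_eq rfl, fun y hy => absurd hy List.not_mem_nil,
    D0, ?_, fun y hy => absurd hy List.not_mem_nil⟩
  · show 0 < 16
    norm_num
  · rw [her]
    exact h1 J _

end Pool.Agent.D9f
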