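import Pool.Agent.Lib.MP_d9c039_lc.F.SpecG

set_option autoImplicit false

/-!
# MP_d9c039_lc, the full statement: `BSelf`

An A-event `x < S` of a board: the self machine.
-/

namespace Pool.Agent.D9f

open Finset
open Pool.Agent.D9 (cnt resp tabS)
open Pool.Agent.D9b (pendL drn plH LGood mList8 S_Plays S_Search S_Guess S_UM1 S_UM2 S_UM3 S_UC)
open Pool.Agent.D9c (mkH Enu)

/-- an older mark -/
private theorem bs_old {h : List (Bool × ℕ)} {x z : ℕ} (hz : (true, z) ∈ (false, x) :: h) :
    (true, z) ∈ h := by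
  rcases List.mem_cons.mp hz with h1 | h1
  · simp at h1
  · exact h1

/-- an older mark or the new one -/
private theorem bs_old2 {h : List (Bool × ℕ)} {x y z : ℕ}
    (hz : (true, z) ∈ (true, y) :: (false, x) :: h) : z = y ∨ (true, z) ∈ h := by
  rcases List.mem_cons.mp hz with h1 | h1
  · left
    exact (Prod.mk.inj h1).2
  · exact Or.inr (bs_old h1)

theorem tBSelf (h1 : S_TrS) (h2 : S_Self) (h3 : S_Reset) : S_BSelf := by
  intro S J h x hd hS hB hx hn
  -- the history after the A-event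
  have hTA := (h1 S (8 * LL J) h x).2.1 hx
  have hnd1 : (plH ((false, x) :: h)).Nodup := by
    rw [Pool.Agent.D9b.plH_cons_A]
    exact List.nodup_cons.mpr ⟨hn, hB.nd⟩
  have hlt1 : ∀ z ∈ plH ((false, x) :: h), z < S + 8 * LL J := by
    intro z hz
    rw [Pool.Agent.D9b.plH_cons_A] at hz
    rcases List.mem_cons.mp hz with h4 | h4
    · rw [h4]
      exact lt_of_lt_of_le hx (Nat.le_add_right _ _)
    · exact hB.lt z h4
  have hmnd1 : (mkH ((false, x) :: h)).Nodup := by
    rw [Pool.Agent.D9c.mkH_cons_A]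
    exact hB.mnd
  have hdr1 : ∀ n, drn n ((false, x) :: h) ≤ 1 := by
    intro n
    rw [Pool.Agent.D9b.drn_A]
    split_ifs
    · exact Nat.zero_le _
    · exact hB.dr n
  have hpk1 : Pack S ((false, x) :: h) := h2.1 S h x hB.pk
  have hsm1 : ∀ y, (true, y) ∈ (false, x) :: h → y < S → slf S y :=
    fun y hy hyS => hB.sm y (bs_old hy) hyS
  obtain ⟨D, hI, hD⟩ := hB.co
  by_cases hse : (pendL 0 S ((false, x) :: h)).length < 16
  · left
    refine ⟨hnd1, hlt1, hmnd1, hdr1, hse, hpk1, hsm1, D, ?_, ?_⟩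
    · rw [hTA.1, hTA.2]
      exact hI
    · exact fun y hy hyS => hD y (bs_old hy) hyS
  · right
    obtain ⟨y, hy, hyn, ⟨x1, hx1, hxy⟩, hpk2⟩ := h2.2 S ((false, x) :: h) hd hS hnd1 hmnd1 hsm1 hpk1
      (not_lt.mp hse)
    have hyS : y < S := hy.1
    have hyh : (true, y) ∉ h := fun h4 => hyn (List.mem_cons_of_mem _ h4)
    have hTB := (h1 S (8 * LL J) ((false, x) :: h) y).2.2
    refine ⟨y, hy, hyh, ?_⟩
    refine ⟨?_, ?_, ?_, ?_, ?_, hpk2, ?_, D, ?_, ?_⟩
    · rw [Pool.Agent.D9b.plH_cons_D]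
      exact hnd1
    · intro z hz
      rw [Pool.Agent.D9b.plH_cons_D] at hz
      exact hlt1 z hz
    · rw [Pool.Agent.D9c.mkH_cons_D]
      refine List.nodup_cons.mpr ⟨?_, hmnd1⟩
      intro h4
      exact hyn (Pool.Agent.D9c.mem_mkH.mp h4)
    · intro n
      rw [Pool.Agent.D9b.drn_D]
      by_cases hyn' : y < n
      · rw [if_pos hyn']
        have h4 : drn n ((false, x) :: h) = 0 := by
          by_cases hxn : x < n
          · rw [Pool.Agent.D9b.drn_A, if_pos hxn]
          · exact Pool.Agent.D9b.drn_of_pend 0 S n x1 _ hx1 (lt_of_le_of_lt hxy hyn')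
              ((not_lt.mp hxn).trans hx.le)
        rw [h4]
      · rw [if_neg hyn']
        exact hdr1 n
    · rw [Pool.Agent.D9b.pendL_D, if_pos hyS]
      exact Nat.zero_lt_succ _
    · intro z hz hzS
      rcases bs_old2 hz with h4 | h4
      · rw [h4]
        exact hy
      · exact hB.sm z h4 hzS
    · have h4 : pr S (8 * LL J) ((true, y) :: (false, x) :: h) = fun _ => 0 := by
        funext t
        rw [hTB.2.1 t, Nat.sub_eq_zero_of_le hyS.le]
        exact Nat.min_zero _
      rw [h4, hTB.1, hTA.1]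
      exact h3 J _ _ D hI
    · intro z hz hzS
      rcases bs_old2 hz with h4 | h4
      · exact absurd hzS (by rw [h4]; exact not_le.mpr hyS)
      · exact hD z h4 hzS


end Pool.Agent.D9f
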