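import Pool.Agent.Lib.MP_d9c039_lc.F.SpecB

set_option autoImplicit false

/-!
# MP_d9c039_lc, the full statement, module BetaB: the block `β` does not rise
-/

namespace Pool.Agent.D9f

open Finset

private theorem card_cell_le (S : Finset ℕ) (c : ℕ) :
    (S.filter (fun x => x / 8 = c)).card ≤ 8 := by
  have h1 : S.filter (fun x => x / 8 = c) ⊆ Ico (8 * c) (8 * c + 8) := by
    intro x hx
    rw [mem_cell]
    exact (Finset.mem_filter.mp hx).2
  have h2 := Finset.card_le_card h1
  rw [Nat.card_Ico] at h2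
  omega

private theorem final_num {d S R sg dif : ℝ} (hd : 0 < d) (hS : 3.9 * d ≤ S)
    (hsg : sg ≤ S + 8 * (c0 * d)) (hR : R ≤ 516 * zz * sg)
    (hdif : dif ≤ 1.001 * (2 * d) - 0.999 * S + 1.001 * R) : dif ≤ 0 := by
  have hz : zz = 1 / 1048576 := by unfold zz; norm_num
  have hc : c0 ≤ 1 / 1048576 := by unfold c0; norm_num
  have h1 : c0 * d ≤ 1 / 1048576 * d := mul_le_mul_of_nonneg_right hc hd.le
  rw [hz] at hR
  nlinarith

theorem tBetaB (h1 : S_Conv) (h2 : S_Th) (h3 : S_Pay) (h4 : S_RI3) (h5 : S_Sig) (h6 : S_KBd)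
    (h7 : S_Cell) (h8 : S_ThC) (h9 : S_KEq) (h10 : S_Key) : S_BetaB := by
  classical
  intro X h
  have hd := h.d0
  have hjb := h.jb1
  obtain ⟨hpk, ⟨hy1, hy0, hy2⟩, hcell⟩ := h7 X h
  have hthC := fun c => h8 X h X.jb c hjb
  -- signs
  have hdel : ∀ x ∈ X.JJ, 0 ≤ X.del x := fun x hx => (h3 X h x hx).1
  have hdel0 : ∀ x, x ∉ X.JJ → X.del x = 0 := fun x hx => by
    unfold CD.del
    rw [if_neg hx]
  have hrK : ∀ x ∈ X.T, 0 ≤ c0 * (X.r x * X.K x) := fun x hx =>
    mul_nonneg c0_pos.le (mul_nonneg (h4 X h x hx).1 ((h6 X h).1 x).1)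
  have hth0 : ∀ c, 0 ≤ X.D.th X.D.f X.jb c := fun c => (h2 X.D.toFz X.D.f X.jb c hjb).1
  set JJ' : Finset ℕ := X.JJ.filter (fun x => x / 8 ≠ X.yh) with hJJ'
  set S : ℝ := ∑ x ∈ JJ', X.tb (x / 8) * X.del x with hSdef
  set R : ℝ := ∑ x ∈ X.T.filter (fun x => x / 8 / LL X.jb = X.qb),
    X.D.th X.D.f X.jb (x / 8) * (c0 * (X.r x * X.K x)) with hRdef
  -- the estimate for one cell
  have hone : ∀ c ∈ blk X.jb X.qb, X.D.th X.D1.f X.jb c * (X.D1.f c - X.D.f c) ≤
      (if c = X.yh then 1.001 * (2 * X.d) else 0) +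
      (-0.999 * (X.D.th X.D.f X.jb c * ∑ x ∈ Ico (8 * c) (8 * c + 8),
          (if x ∈ JJ' then X.del x else 0)) +
        1.001 * (X.D.th X.D.f X.jb c * ∑ x ∈ Ico (8 * c) (8 * c + 8),
          (if x ∈ X.T then c0 * (X.r x * X.K x) else 0))) := by
    intro c _
    have hb : 0 ≤ ∑ x ∈ Ico (8 * c) (8 * c + 8),
        (if x ∈ X.T then c0 * (X.r x * X.K x) else 0) := by
      apply Finset.sum_nonneg
      intro x _
      split_ifs with hx
      · exact hrK x hx
      · exact le_rfl
    have hthb := mul_nonneg (hth0 c) hb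
    by_cases hcp : c ∈ X.D.pk
    · -- picked
      have ha : ∑ x ∈ Ico (8 * c) (8 * c + 8), (if x ∈ JJ' then X.del x else 0) = 0 := by
        apply Finset.sum_eq_zero
        intro x hx
        rw [if_neg]
        intro hxJ
        rw [hJJ', Finset.mem_filter] at hxJ
        have h11 := (h.adm x hxJ.1).2.2.2.1
        rw [mem_cell.mp hx] at h11
        exact h11 hcp
      rw [hpk c hcp, ha, sub_self, mul_zero, mul_zero, mul_zero, zero_add]
      split_ifs
      · linarith
      · linarith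
    · by_cases hcy : c = X.yh
      · -- the new picked cell
        subst hcy
        have ha : ∑ x ∈ Ico (8 * X.yh) (8 * X.yh + 8), (if x ∈ JJ' then X.del x else 0) = 0 := by
          apply Finset.sum_eq_zero
          intro x hx
          rw [if_neg]
          intro hxJ
          rw [hJJ', Finset.mem_filter] at hxJ
          exact hxJ.2 (mem_cell.mp hx)
        rw [ha, mul_zero, mul_zero, zero_add, if_pos rfl]
        have h11 := hthC X.yh
        have h12 : X.D.th X.D.f X.jb X.yh ≤ 2 * X.d := h.y2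
        have h13 : 0 ≤ X.D.th X.D1.f X.jb X.yh := (h2 X.D.toFz X.D1.f X.jb X.yh hjb).1
        have h14 : X.D.th X.D1.f X.jb X.yh * (X.D1.f X.yh - X.D.f X.yh) ≤
            X.D.th X.D1.f X.jb X.yh * 1 := by
          apply mul_le_mul_of_nonneg_left _ h13
          linarith
        linarith [h11.1]
      · -- the other cells
        rw [if_neg hcy, zero_add, hcell c hcp hcy]
        have e1 : ∑ x ∈ Ico (8 * c) (8 * c + 8),
            (-X.del x + (if x ∈ X.T then c0 * (X.r x * X.K x) else 0)) =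
            -(∑ x ∈ Ico (8 * c) (8 * c + 8), (if x ∈ JJ' then X.del x else 0)) +
              ∑ x ∈ Ico (8 * c) (8 * c + 8),
                (if x ∈ X.T then c0 * (X.r x * X.K x) else 0) := by
          rw [Finset.sum_add_distrib, Finset.sum_neg_distrib]
          congr 2
          apply Finset.sum_congr rfl
          intro x hx
          split_ifs with hxJ
          · rfl
          · apply hdel0
            intro hx1
            apply hxJ
            rw [hJJ', Finset.mem_filter]
            refine ⟨hx1, ?_⟩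
            rw [mem_cell.mp hx]
            exact hcy
        rw [e1]
        have ha : 0 ≤ ∑ x ∈ Ico (8 * c) (8 * c + 8), (if x ∈ JJ' then X.del x else 0) := by
          apply Finset.sum_nonneg
          intro x _
          split_ifs with hx
          · rw [hJJ', Finset.mem_filter] at hx
            exact hdel x hx.1
          · exact le_rfl
        set a : ℝ := ∑ x ∈ Ico (8 * c) (8 * c + 8), (if x ∈ JJ' then X.del x else 0)
        set b : ℝ := ∑ x ∈ Ico (8 * c) (8 * c + 8),
          (if x ∈ X.T then c0 * (X.r x * X.K x) else 0)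
        have h11 := mul_le_mul_of_nonneg_right (hthC c).1 hb
        have h12 := mul_le_mul_of_nonneg_right (hthC c).2 ha
        nlinarith
  -- the sum
  have hconv := h1 X.D.toFz X.D1.f X.D.f X.jb X.qb hjb
  have hflip : ∑ c ∈ blk X.jb X.qb, X.D.th X.D1.f X.jb c * (X.D.f c - X.D1.f c) =
      -∑ c ∈ blk X.jb X.qb, X.D.th X.D1.f X.jb c * (X.D1.f c - X.D.f c) := by
    rw [← Finset.sum_neg_distrib]
    apply Finset.sum_congr rfl
    intro c _
    ring
  rw [hflip] at hconv
  have hsum := Finset.sum_le_sum hone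
  rw [Finset.sum_add_distrib, Finset.sum_add_distrib, ← Finset.mul_sum, ← Finset.mul_sum,
    sum_cells, sum_cells] at hsum
  have hfil : JJ'.filter (fun x => x / 8 / LL X.jb = X.qb) = JJ' := by
    apply Finset.filter_true_of_mem
    intro x hx
    rw [hJJ', Finset.mem_filter] at hx
    exact (h.adm x hx.1).2.2.1
  have hy : ∑ c ∈ blk X.jb X.qb, (if c = X.yh then 1.001 * (2 * X.d) else 0) ≤
      1.001 * (2 * X.d) := by
    rw [Finset.sum_ite_eq']
    split_ifs
    · exact le_rfl
    · linarith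
  rw [hfil] at hsum
  have hdif : X.D.U X.D1.f X.jb X.qb - X.D.U X.D.f X.jb X.qb ≤
      1.001 * (2 * X.d) - 0.999 * S + 1.001 * R := by
    have e1 : ∑ x ∈ JJ', X.D.th X.D.f X.jb (x / 8) * X.del x = S := rfl
    rw [e1, ← hRdef] at hsum
    linarith
  -- the refunds
  have hR : R ≤ 516 * zz * X.sig X.jb X.qb := by
    refine le_trans (le_of_eq ?_) (h10 X h X.jb X.qb hjb h.jbJ)
    rw [hRdef]
    apply Finset.sum_congr rfl
    intro x hx
    rw [((h9 X h) x (Finset.mem_filter.mp hx).1).1]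
  -- the payments
  have hsg : X.sig X.jb X.qb ≤ S + 8 * (c0 * X.d) := by
    have e1 : X.sig X.jb X.qb = ∑ x ∈ X.JJ, X.tb (x / 8) * X.del x := by
      unfold CD.sig
      rw [Finset.filter_true_of_mem (fun x hx => (h.adm x hx).2.2.1)]
      rfl
    rw [e1, ← Finset.sum_filter_add_sum_filter_not X.JJ (fun x => x / 8 ≠ X.yh)]
    have e2 : ∑ x ∈ X.JJ.filter (fun x => x / 8 ≠ X.yh), X.tb (x / 8) * X.del x = S := rfl
    rw [e2]
    have e3 : ∑ x ∈ X.JJ.filter (fun x => ¬ x / 8 ≠ X.yh), X.tb (x / 8) * X.del x ≤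
        8 * (c0 * X.d) := by
      have e4 : X.JJ.filter (fun x => ¬ x / 8 ≠ X.yh) = X.JJ.filter (fun x => x / 8 = X.yh) := by
        apply Finset.filter_congr
        intro x _
        exact not_ne_iff
      rw [e4]
      have e5 : ∑ x ∈ X.JJ.filter (fun x => x / 8 = X.yh), X.tb (x / 8) * X.del x ≤
          (X.JJ.filter (fun x => x / 8 = X.yh)).card • (c0 * X.d) := by
        apply Finset.sum_le_card_nsmul
        intro x hx
        rw [Finset.mem_filter] at hx
        exact (h3 X h x hx.1).2.2.2.1 hx.2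
      have e6 : ((X.JJ.filter (fun x => x / 8 = X.yh)).card : ℝ) ≤ 8 := by
        exact_mod_cast card_cell_le X.JJ X.yh
      rw [nsmul_eq_mul] at e5
      exact e5.trans (mul_le_mul_of_nonneg_right e6 (mul_pos c0_pos hd).le)
    linarith
  have hS : 3.9 * X.d ≤ S := by
    have e1 : JJ'.card • (0.99 * (c0 * X.d)) ≤ S := by
      rw [hSdef]
      apply Finset.card_nsmul_le_sum
      intro x hx
      rw [hJJ', Finset.mem_filter] at hx
      exact (h3 X h x hx.1).2.2.1
    have e2 : (2 : ℕ) ^ 43 ≤ JJ'.card + 8 := by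
      have e3 := Finset.card_filter_add_card_filter_not (s := X.JJ) (fun x => x / 8 ≠ X.yh)
      have e4 : X.JJ.filter (fun x => ¬ x / 8 ≠ X.yh) = X.JJ.filter (fun x => x / 8 = X.yh) := by
        apply Finset.filter_congr
        intro x _
        exact not_ne_iff
      rw [e4] at e3
      have e5 := card_cell_le X.JJ X.yh
      have e6 := h.card
      have e7 : (X.JJ.filter (fun x => x / 8 ≠ X.yh)).card = JJ'.card := rfl
      omega
    have e3 : (2 : ℝ) ^ 43 - 8 ≤ (JJ'.card : ℝ) := by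
      have e4 : ((2 : ℕ) ^ 43 : ℝ) ≤ ((JJ'.card + 8 : ℕ) : ℝ) := by exact_mod_cast e2
      push_cast at e4
      linarith
    rw [nsmul_eq_mul] at e1
    have e4 : ((2 : ℝ) ^ 43 - 8) * (0.99 * (c0 * X.d)) ≤ (JJ'.card : ℝ) * (0.99 * (c0 * X.d)) :=
      mul_le_mul_of_nonneg_right e3 (by have := mul_pos c0_pos hd; linarith)
    have e5 : ((2 : ℝ) ^ 43 - 8) * (0.99 * (c0 * X.d)) =
        0.99 * ((2 ^ 43 : ℝ) * c0) * X.d - 7.92 * (c0 * X.d) := by ring
    rw [nJ_c0] at e5
    have hc : c0 ≤ 1 / 1048576 := by unfold c0; norm_num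
    have e6 : c0 * X.d ≤ 1 / 1048576 * X.d := mul_le_mul_of_nonneg_right hc hd.le
    linarith
  have hfin := final_num hd hS hsg hR hdif
  linarith

end Pool.Agent.D9f
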