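import Pool.Agent.Lib.MP_d9c039_lc.F.SpecG

set_option autoImplicit false

/-!
# MP_d9c039_lc, the full statement, module Brd: good strategies for all boards
-/

namespace Pool.Agent.D9f

open Finset
open Pool.Agent.D9 (cnt resp tabS)
open Pool.Agent.D9b (pendL drn plH LGood mList8 S_Plays S_Search S_Guess S_UM1 S_UM2 S_UM3 S_UC)
open Pool.Agent.D9c (mkH Enu)

private theorem mem8 {S S' y : ℕ} :
    y ∈ mList8 S S' ↔ y < S' ∧ ((y < S ∧ S ≤ 2 * y ∧ y % 8 = 2) ∨ (S ≤ y ∧ y % 4 = 0)) := by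
  unfold mList8
  rw [List.mem_filter, List.mem_range, decide_eq_true_eq]

private theorem Sz_dvd (L : ℕ) : 16 ∣ Sz L := by
  induction L with
  | zero => exact dvd_rfl
  | succ L ih =>
    show 16 ∣ Sz L + 8 * 2 ^ (40 * 4 ^ L)
    refine dvd_add ih ?_
    have h : 2 ∣ 2 ^ (40 * 4 ^ L) := dvd_pow_self 2 (by positivity)
    obtain ⟨k, hk⟩ := h
    rw [hk]
    exact ⟨k, by ring⟩

private theorem Sz_ge (L : ℕ) : 16 ≤ Sz L := by
  induction L with
  | zero => exact le_rfl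
  | succ L ih => exact ih.trans (Nat.le_add_right _ _)

theorem tBrd (h1 : S_Tr) (h2 : S_BInit) (h3 : S_BSelf) (h4 : S_BCore) (h5 : S_LG) : S_Brd := by
  intro L
  have hS : Sz (L + 1) = Sz L + 8 * LL (L + 1) := rfl
  obtain ⟨k, hk⟩ := Sz_dvd L
  apply h5 (Sz (L + 1)) (mList8 (Sz L) (Sz (L + 1))) (CL L) (BI (Sz L) (L + 1))
  · exact h2 _ _
  · intro h x hB hx hxn
    rcases lt_or_ge x (Sz L) with hlt | hge
    · rcases h3 (Sz L) (L + 1) h x (Sz_dvd L) (Sz_ge L) hB hlt hxn with h6 | ⟨y, hy1, hy2, hy3⟩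
      · exact Or.inl h6
      · refine Or.inr ⟨y, ?_, hy2, hy3⟩
        rw [mem8]
        obtain ⟨a, b, c⟩ := hy1
        exact ⟨by rw [hS]; exact a.trans_le (Nat.le_add_right _ _), Or.inl ⟨a, b, c⟩⟩
    · rcases h4 (Sz L) (L + 1) h x (Nat.succ_le_succ (Nat.zero_le _)) hB hge
        (by rw [← hS]; exact hx) hxn with h6 | ⟨y, a, b, c, hy2, hy3⟩
      · exact Or.inl h6
      · refine Or.inr ⟨y, ?_, hy2, hy3⟩
        rw [mem8]
        refine ⟨by rw [hS]; exact b, Or.inr ⟨a, ?_⟩⟩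
        omega
  · intro h hB e he
    unfold CL at he
    rw [List.mem_map] at he
    obtain ⟨n, hn, rfl⟩ := he
    rw [List.mem_filter, List.mem_range, decide_eq_true_eq] at hn
    show (pendL 0 n h).length ≤ kk + 16
    have h6 := Pool.Agent.D9b.pendL_split_length 0 (Sz L) n h (Nat.zero_le _) hn.2
    have h7 := hB.se
    have h8 : (pendL (Sz L) n h).length ≤ kk := by
      rcases Nat.eq_or_lt_of_le hn.2 with he | hlt
      · rw [← he, Pool.Agent.D9b.pendL_self]
        exact Nat.zero_le _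
      · obtain ⟨D, hI, _⟩ := hB.co
        have h9 := hI.cnt (n - Sz L)
        have h10 := (h1 (Sz L) (8 * LL (L + 1)) h (n - Sz L) hB.nd (by omega) (by omega)).2
        rw [h10, Nat.sub_add_cancel hn.2] at h9
        exact h9.le
    omega
  · exact fun h hB n => hB.dr n

end Pool.Agent.D9f
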