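import Pool.Agent.Lib.MP_d9c039_lc.F.SpecB

set_option autoImplicit false

/-!
# MP_d9c039_lc, the full statement: case D, assembly
-/

namespace Pool.Agent.D9f

open Finset

private theorem caseD_aux (h2 : S_PreD) (h3 : S_CloseInv) (Y : CD) (hok : Y.Ok) :
    ∃ D' : Dat, D'.pk = insert Y.yh Y.D.pk ∧ D'.fm = Y.D.fm ∧
      InvW Y.J Y.en (fun x => min (Y.p x) (8 * Y.yh)) D' :=
  ⟨{ Y.D1 with toFz := Y.D1.toFz.close Y.J Y.D1.f }, rfl, rfl, h3 Y.J Y.en Y.p1 Y.D1 (h2 Y hok)⟩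

theorem tCaseD (h1 : S_Choice) (h2 : S_PreD) (h3 : S_CloseInv) : S_CaseD := by
  intro X hX
  obtain ⟨d, yh, hok⟩ := h1 X hX
  obtain ⟨D', ha, hb, hc⟩ := caseD_aux h2 h3 _ hok
  exact ⟨yh, D', hok.ya.1, hok.ya.2.1, hok.ya.2.2.2.1, ha, hb, hc⟩

end Pool.Agent.D9f
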