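import Pool.Agent.Lib.MP_d9c039_lc.F.SpecC

set_option autoImplicit false

/-!
# MP_d9c039_lc, the full statement, module CaseR: the foreign answer (helper30)
-/

namespace Pool.Agent.D9f

open Finset

private theorem caseR_ww_succ (j : ℕ) : ww j ≤ ww (j + 1) := by
  cases j with
  | zero =>
    change 10 * 2 ^ 40 ≤ (2 ^ (40 * 4 ^ 0)) ^ 3
    norm_num
  | succ j =>
    change (2 ^ (40 * 4 ^ j)) ^ 3 ≤ (2 ^ (40 * 4 ^ (j + 1))) ^ 3
    refine Nat.pow_le_pow_left (Nat.pow_le_pow_right (by norm_num) ?_) 3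
    exact Nat.mul_le_mul_left 40 (Nat.pow_le_pow_right (by norm_num) (Nat.le_succ j))

private theorem caseR_vv_mono : Monotone vv := by
  refine monotone_nat_of_le_succ fun n => ?_
  cases n with
  | zero => exact Nat.zero_le _
  | succ n => exact caseR_ww_succ n

private theorem caseR_vv {l a b : ℕ} (h1 : l + 1 ≤ a) (h2 : l + 1 ≤ b) :
    ww l ≤ vv (min a b) := caseR_vv_mono (le_min h1 h2)

private theorem caseR_win {J : ℕ} {en : Finset ℕ} {p : ℕ → ℕ} {D : Dat} {c1 ck x i : ℕ}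
    (h2 : S_Place) (hD : InvW J en p D) (hx1 : c1 < x / 8) (hx2 : x / 8 < ck) (hi : i < J)
    (hr : 2 * ww i + 1 + c1 + 1 ≤ ck) :
    ∃ v, c1 < v ∧ v < ck ∧ v ≠ x / 8 ∧ v ≤ x / 8 + ww i ∧ x / 8 ≤ v + ww i ∧
      (x / 8 < v → x / 8 + ww i < ck) ∧
      ∀ v' ∈ D.fm, v' + vv (min (D.ty v') i) < v ∨ v + vv (min (D.ty v') i) < v' := by
  by_cases hc : c1 + ww i < x / 8
  · obtain ⟨v, ha, hb, hs⟩ := h2 J en p D hD i (x / 8 - ww i) hi
    refine ⟨v, ?_, ?_, ?_, ?_, ?_, ?_, hs⟩
    all_goals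
      clear hs
      generalize ww i = W at *
      generalize x / 8 = y at *
      omega
  · obtain ⟨v, ha, hb, hs⟩ := h2 J en p D hD i (x / 8 + 1) hi
    refine ⟨v, ?_, ?_, ?_, ?_, ?_, ?_, hs⟩
    all_goals
      clear hs
      generalize ww i = W at *
      generalize x / 8 = y at *
      omega

theorem tCaseR (h1 : S_Low) (h2 : S_Place) : S_CaseR := by
  intro J en p D n0 c1 ck x i hD hck hx hx1 hx2 hi hclo hr
  obtain ⟨hxe, hxn, hnp⟩ := mem_PP.mp hx
  obtain ⟨v, hv1, hv2, hv3, hv4, hv5, hv6, hs⟩ := caseR_win h2 hD hx1 hx2 hi hr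
  have hvf : v ∉ D.fm := by
    intro hv
    have := hs v hv
    omega
  have hne : ∀ w ∈ D.fm, w ≠ v := fun w hw h => hvf (h ▸ hw)
  have hL := h1 J en p (fun t => min (p t) (8 * v + 4)) D hD.toPre fun y _ => min_le_left _ _
  have hkey : ∀ w ∈ D.fm, D.ty w = i → D.tk w = x → (w < x / 8 ↔ v < x / 8) → False := by
    intro w hw hty htk hiff
    obtain ⟨a1, a2, a3, a4, a5, a6, a7⟩ := hD.i4 w hw
    rw [htk] at a4 a5 a6 a7
    rw [hty] at a5 a6
    rcases Nat.lt_or_ge w (x / 8) with hlt | hge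
    · clear hs hne hiff hv6
      omega
    · have hv7 : x / 8 < v := by
        have : ¬ v < x / 8 := fun h => absurd (hiff.mpr h) (Nat.not_lt.mpr hge)
        omega
      have hv8 := hv6 hv7
      clear hs hne hiff hv6
      omega
  obtain ⟨T', hTv, hT⟩ : ∃ T' : ℕ → ℕ, T' v = i ∧ ∀ w ∈ D.fm, T' w = D.ty w :=
    ⟨Function.update D.ty v i, Function.update_self _ _ _,
      fun w hw => Function.update_of_ne (hne w hw) _ _⟩
  obtain ⟨K', hKv, hK⟩ : ∃ K' : ℕ → ℕ, K' v = x ∧ ∀ w ∈ D.fm, K' w = D.tk w :=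
    ⟨Function.update D.tk v x, Function.update_self _ _ _,
      fun w hw => Function.update_of_ne (hne w hw) _ _⟩
  refine ⟨v, { D with
    fm := insert v D.fm
    ty := T'
    tk := K' }, hv1, hv2, hvf, rfl, rfl, ?_⟩
  refine ⟨⟨hL.enlt, hL.ple, hL.cntw, hL.e0, hL.fresh, hL.alive, hL.neg, hL.kapge, hL.i3,
    ?_, ?_, ?_⟩, hD.opn⟩
  · intro w hw
    dsimp only
    rcases Finset.mem_insert.mp hw with e | hw
    · rw [e, hTv, hKv]
      exact ⟨hi, hxe, hclo, hv3, hv4, hv5, min_le_right _ _⟩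
    · rw [hT w hw, hK w hw]
      exact hL.i4 w hw
  · intro w hw w' hw' e1 e2 e3
    dsimp only at e1 e2 e3
    rcases Finset.mem_insert.mp hw with e | hw
    · rcases Finset.mem_insert.mp hw' with e' | hw'
      · rw [e, e']
      · rw [e, hTv, hT w' hw'] at e1
        rw [e, hKv, hK w' hw'] at e2
        rw [e, hKv, hK w' hw', ← e2] at e3
        exact (hkey w' hw' e1.symm e2.symm e3.symm).elim
    · rcases Finset.mem_insert.mp hw' with e' | hw'
      · rw [e', hTv, hT w hw] at e1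
        rw [e', hKv, hK w hw] at e2
        rw [e', hKv, hK w hw, e2] at e3
        exact (hkey w hw e1 e2 e3).elim
      · rw [hT w hw, hT w' hw'] at e1
        rw [hK w hw, hK w' hw'] at e2
        rw [hK w hw, hK w' hw'] at e3
        exact hD.inj w hw w' hw' e1 e2 e3
  · intro w hw w' hw' hlt l l1 l2
    dsimp only at l1 l2
    rcases Finset.mem_insert.mp hw with e | hw
    · rcases Finset.mem_insert.mp hw' with e' | hw'
      · omega
      · rw [e, hTv] at l1
        rw [hT w' hw'] at l2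
        have b1 := caseR_vv l2 l1
        have b2 := hs w' hw'
        clear hs hne hkey
        omega
    · rcases Finset.mem_insert.mp hw' with e' | hw'
      · rw [hT w hw] at l1
        rw [e', hTv] at l2
        have b1 := caseR_vv l1 l2
        have b2 := hs w hw
        clear hs hne hkey
        omega
      · rw [hT w hw] at l1
        rw [hT w' hw'] at l2
        exact hD.spc w hw w' hw' hlt l l1 l2

end Pool.Agent.D9f
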