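import Pool.Agent.Lib.MP_d9c039_lc.F.SpecB

set_option autoImplicit false

/-!
# MP_d9c039_lc, the full statement: module Cell (the change of the cell values)
-/

namespace Pool.Agent.D9f

open Finset

private theorem f_pk (D : Dat) (c : ℕ) (h : c ∈ D.pk) : D.f c = 1 := by
  unfold Dat.f fS
  rw [if_pos h]

private theorem f_npk (D : Dat) (c : ℕ) (h : c ∉ D.pk) :
    D.f c = ∑ x ∈ Ico (8 * c) (8 * c + 8), D.e x := by
  unfold Dat.f fS
  rw [if_neg h]
  exact Finset.sum_congr rfl fun x _ => if_neg (Finset.notMem_empty x)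

theorem tCell (h1 : S_EDiff) : S_Cell := by
  intro X hX
  have hpk : X.D1.pk = insert X.yh X.D.pk := rfl
  have he : X.D1.e = X.e' := rfl
  refine ⟨fun c hc => ?_, ⟨?_, ?_, ?_⟩, fun c hc hne => ?_⟩
  · rw [f_pk X.D c hc, f_pk X.D1 c (by rw [hpk]; exact Finset.mem_insert_of_mem hc)]
  · exact f_pk X.D1 X.yh (by rw [hpk]; exact Finset.mem_insert_self _ _)
  · rw [f_npk X.D X.yh hX.ya.2.2.2.1]
    exact Finset.sum_nonneg fun x _ => (hX.inv.e0 x).1
  · rw [f_npk X.D X.yh hX.ya.2.2.2.1]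
    have a1 : ∑ x ∈ Ico (8 * X.yh) (8 * X.yh + 8), X.D.e x ≤
        ∑ _x ∈ Ico (8 * X.yh) (8 * X.yh + 8), E0 :=
      Finset.sum_le_sum fun x _ => (hX.inv.e0 x).2
    rw [Finset.sum_const, Nat.card_Ico, Nat.add_sub_cancel_left, nsmul_eq_mul] at a1
    refine a1.trans ?_
    unfold E0
    norm_num
  · rw [f_npk X.D c hc, f_npk X.D1 c (by
      rw [hpk, Finset.mem_insert]
      push Not
      exact ⟨hne, hc⟩), he, ← Finset.sum_sub_distrib]
    refine Finset.sum_congr rfl fun x _ => ?_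
    rw [(h1 X hX x).1]
    ring

end Pool.Agent.D9f
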