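import Pool.Agent.Lib.MP_d9c039_lc.F.SpecB

set_option autoImplicit false

/-!
# MP_d9c039_lc, the full statement: module Choice (choice of the picked cell)
-/

namespace Pool.Agent.D9f

open Finset

theorem tChoice (h1 : S_ThEq) : S_Choice := by
  classical
  intro X h0
  have hpos : ∀ c, X.Adm c → 0 < X.tb c := by
    intro c hc
    unfold CD.tb
    rw [h1.1 X.D.toFz X.D.f X.jb c h0.jb1 (fun i hi hij => hc.2.2.2.2 i hi hij)]
    have hz := zz_pos
    positivity
  set S : Finset ℕ := (range X.ck).filter (fun c => X.Adm c) with hS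
  have hmS : ∀ c, c ∈ S ↔ X.Adm c := by
    intro c
    rw [hS, Finset.mem_filter, Finset.mem_range]
    exact ⟨fun h => h.2, fun h => ⟨h.2.1, h⟩⟩
  have hne : S.Nonempty := by
    have hJ : X.JJ.Nonempty := by
      rw [← Finset.card_pos, h0.card]
      exact Nat.two_pow_pos _
    obtain ⟨x, hx⟩ := hJ
    exact ⟨x / 8, (hmS _).2 (h0.adm x hx)⟩
  obtain ⟨m, hm, hmin⟩ := S.exists_min_image X.tb hne
  have hmA : X.Adm m := (hmS m).1 hm
  have hex : ∃ c, X.Adm c ∧ X.tb c ≤ 2 * X.tb m := ⟨m, hmA, by linarith [hpos m hmA]⟩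
  have hy := Nat.find_spec hex
  refine ⟨X.tb m, Nat.find hex, ?_⟩
  exact
    { inv := h0.inv
      n0le := h0.n0le
      ckn := h0.ckn
      jb1 := h0.jb1
      jbJ := h0.jbJ
      card := h0.card
      sub := h0.sub
      adm := h0.adm
      top := h0.top
      d0 := hpos m hmA
      ya := hy.1
      y2 := hy.2
      dm := fun c hc => hmin c ((hmS c).2 hc)
      lt := fun c hc hlt => by
        by_contra hcon
        exact Nat.find_min hex hlt ⟨hc, not_lt.1 hcon⟩
      ms := ⟨m, hmA, Nat.find_min' hex ⟨hmA, by linarith [hpos m hmA]⟩, rfl⟩ }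

end Pool.Agent.D9f
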