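import Pool.Agent.Lib.MP_d9c039_lc.F.SpecB

set_option autoImplicit false

/-!
# MP_d9c039_lc, the full statement: closed blocks do not rise
-/

namespace Pool.Agent.D9f

open Finset

private theorem del_nonneg (h4 : S_Pay) {X : CD} (h : X.Ok) (x : ℕ) : 0 ≤ X.del x := by
  by_cases hx : x ∈ X.JJ
  · exact (h4 X h x hx).1
  · unfold CD.del
    rw [if_neg hx]

/-- a cell which rises lies in a closed block of a lower level -/
private theorem lower (h4 : S_Pay) (h7 : S_Cell) (h8 : S_Sup) {X : CD} (h : X.Ok) {j q : ℕ}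
    (hj1 : 1 ≤ j) (hjJ : j ≤ X.J) (hcl : X.D.cl j q) (hne : ¬ (j = X.jb ∧ q = X.qb)) {c : ℕ}
    (hc : c / LL j = q) (hlt : X.D.f c < X.D1.f c) :
    ∃ l, 1 ≤ l ∧ l < j ∧ X.D.cl l (c / LL l) := by
  have htop : X.jb < j → X.D.cl X.jb X.qb := by
    intro hh
    rcases h.top with h1 | h1
    · exact h1
    · omega
  obtain ⟨c1, c2, c3⟩ := h7 X h
  by_cases hpk : c ∈ X.D.pk
  · exact absurd hlt (by rw [c1 c hpk]; exact lt_irrefl _)
  by_cases hyh : c = X.yh
  · have hya := h.ya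
    rw [← hyh] at hya
    obtain ⟨-, -, a3, -, a5⟩ := hya
    rcases lt_trichotomy j X.jb with hh | hh | hh
    · exact absurd hcl (by rw [← hc]; exact a5 j hj1 hh)
    · exact absurd ⟨hh, by rw [← hc, hh, a3]⟩ hne
    · exact ⟨X.jb, h.jb1, hh, by rw [a3]; exact htop hh⟩
  · have hsum := c3 c hpk hyh
    have hpos : ∑ x ∈ Ico (8 * c) (8 * c + 8), (0 : ℝ) < ∑ x ∈ Ico (8 * c) (8 * c + 8),
        (-X.del x + (if x ∈ X.T then c0 * (X.r x * X.K x) else 0)) := by
      rw [← hsum, Finset.sum_const_zero]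
      linarith
    obtain ⟨x, hx, hx0⟩ := Finset.exists_lt_of_sum_lt hpos
    have hxc : x / 8 = c := mem_cell.1 hx
    have hd := del_nonneg h4 h x
    have hxT : x ∈ X.T := by
      by_contra hT
      rw [if_neg hT] at hx0
      linarith
    rw [if_pos hxT] at hx0
    have hK : X.K x ≠ 0 := by
      intro hK
      rw [hK, mul_zero, mul_zero] at hx0
      linarith
    unfold CD.K at hK
    obtain ⟨i, hi, hKi⟩ := Finset.exists_ne_zero_of_sum_ne_zero hK
    obtain ⟨q', hq', hKq⟩ := Finset.exists_ne_zero_of_sum_ne_zero hKi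
    have hR : X.Rr x i q' := by
      by_contra hR
      rw [if_neg hR] at hKq
      exact hKq rfl
    rw [if_pos hR] at hKq
    rw [Finset.mem_Icc] at hi
    obtain ⟨s1, s2, x', hx', hx'q⟩ := h8 X h i q' hi.1 hi.2 hKq
    obtain ⟨m, hm1, hm2, hm3, hvis, hdiff, hor⟩ := hR
    rw [hxc] at hvis hdiff hor
    obtain ⟨-, -, v3⟩ := hvis
    have hmj : c / LL j = m / LL j := v3 j hj1 hjJ (Or.inl (by rw [hc]; exact hcl))
    have hij : i < j := by
      by_contra hij
      exact hdiff (div_up (not_lt.1 hij) hmj)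
    have hq'j : q' * LL i / LL j = q := by
      rcases hor with e | e
      · rw [e, div_sub hij.le, hc]
      · rw [e, div_sub hij.le, ← hmj, hc]
    have hx'j : x' / 8 / LL j = q := by
      rw [← hq'j, ← hx'q, div_sub hij.le]
    rcases lt_trichotomy j X.jb with hh | hh | hh
    · have hadm := (h.adm x' hx').2.2.2.2 j hj1 hh
      rw [hx'j] at hadm
      exact absurd hcl hadm
    · exact absurd ⟨hh, by rw [← hq'j, hh, s2]⟩ hne
    · refine ⟨X.jb, h.jb1, hh, ?_⟩
      have ht := htop hh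
      rcases hor with e | e
      · rw [e, div_sub s1] at s2
        rw [s2]
        exact ht
      · rw [e, div_sub s1] at s2
        have h9 : c / LL X.jb = m / LL X.jb :=
          v3 X.jb h.jb1 h.jbJ (Or.inr (by rw [s2]; exact ht))
        rw [h9, s2]
        exact ht

set_option linter.unusedVariables false in
theorem tClB (h1 : S_Conv) (h2 : S_Th) (h3 : S_ThEq) (h4 : S_Pay) (h5 : S_RI3) (h6 : S_KBd)
    (h7 : S_Cell) (h8 : S_Sup) : S_ClB := by
  intro X h j q hj1 hjJ hcl hne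
  have hc := h1 X.D.toFz X.D1.f X.D.f j q hj1
  have hnn : 0 ≤ ∑ c ∈ blk j q, X.D.th X.D1.f j c * (X.D.f c - X.D1.f c) := by
    refine Finset.sum_nonneg fun c hcb => ?_
    rw [mem_blk] at hcb
    rcases le_or_gt (X.D1.f c) (X.D.f c) with h9 | h9
    · exact mul_nonneg (h2 X.D.toFz X.D1.f j c hj1).1 (sub_nonneg.2 h9)
    · obtain ⟨l, hl1, hlj, hlc⟩ := lower h4 h7 h8 h hj1 hjJ hcl hne hcb h9
      have h10 : X.D.th X.D1.f j c = 0 := by
        rw [h3.2 X.D.toFz X.D1.f 1 j c le_rfl hj1]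
        have h11 : ∏ l ∈ Ico 1 j, X.D.ep X.D1.f l (c / LL l) = 0 :=
          Finset.prod_eq_zero (i := l) (Finset.mem_Ico.2 ⟨hl1, hlj⟩) (Fz.ep_cl hlc)
        rw [h11, mul_zero]
      rw [h10, zero_mul]
  linarith

end Pool.Agent.D9f
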