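import Pool.Agent.Lib.MP_d9c039_lc.F.SpecC

set_option autoImplicit false

/-!
# MP_d9c039_lc, the full statement, module ClCells: cells in closed blocks
-/

namespace Pool.Agent.D9f

open Finset

private theorem card_blk (j q : ℕ) : (blk j q).card = LL j := by
  unfold blk
  rw [Nat.card_Ico, Nat.add_mul, Nat.one_mul, Nat.add_sub_cancel_left]

theorem tClCells (h1 : S_CntCl) : S_ClCells := by
  classical
  intro J en p D h l q hl s hs
  obtain ⟨hA, hB⟩ := h1
  cases l with
  | zero =>
    have h2 := hB D.toFz D.pk D.e q (fun x => (h.e0 x).1) (h.neg 1 q le_rfl hl) s (fun c hc => by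
      obtain ⟨h3, h4⟩ := hs c hc
      refine ⟨h4, ?_⟩
      rcases h3 with h5 | h5
      · exact h5.2
      · exact absurd h5.1 (by omega))
    exact h2.le
  | succ l =>
    have h2 := hA D.toFz D.f (l + 1) q (by omega) (h.neg (l + 1 + 1) q (by omega) hl)
      (fun i hi => h.kapge (l + 1) i (by omega) (by omega) hi)
      (s.image (fun c => c / LL (l + 1))) (fun i hi => by
        obtain ⟨c, hc, rfl⟩ := Finset.mem_image.mp hi
        obtain ⟨h3, h4⟩ := hs c hc
        refine ⟨?_, ?_⟩
        · rw [div_succ]
          exact h4
        · rcases h3 with h5 | h5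
          · exact absurd h5.1 (by omega)
          · exact h5.2)
    have h3 := Finset.card_le_mul_card_image (f := fun c => c / LL (l + 1)) s (LL (l + 1))
      (fun i _ => by
        refine le_trans (Finset.card_le_card ?_) (card_blk (l + 1) i).le
        intro c hc
        rw [Finset.mem_filter] at hc
        exact mem_blk.mpr hc.2)
    have h4 : LL (l + 1) * (s.image (fun c => c / LL (l + 1))).card ≤ LL (l + 1) * 15 :=
      Nat.mul_le_mul_left _ (by omega)
    have h5 : cc (l + 1) = 15 * LL (l + 1) := rfl
    rw [h5, Nat.mul_comm 15]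
    exact h3.trans h4

end Pool.Agent.D9f
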