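import Pool.Agent.Lib.MP_d9c039_lc.F.SpecA

set_option autoImplicit false

/-!
# MP_d9c039_lc, the full statement: closing blocks does not change the potentials
-/

namespace Pool.Agent.D9f

open Finset

private theorem kap_old {F : Fz} {J : ℕ} {f : ℕ → ℝ} {j q : ℕ} (h : F.cl j q) :
    (F.close J f).kap j q = F.kap j q := if_pos h

private theorem kap_new {F : Fz} {J : ℕ} {f : ℕ → ℝ} {j q : ℕ} (h : ¬ F.cl j q) :
    (F.close J f).kap j q = sf (F.U f j q + uu j) := if_neg h

private theorem cl_old {F : Fz} {J : ℕ} {f : ℕ → ℝ} {j q : ℕ} (h : F.cl j q) :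
    (F.close J f).cl j q := Or.inl h

private theorem part1 (F : Fz) (J : ℕ) (f : ℕ → ℝ) (j : ℕ) :
    ∀ q, (F.close J f).U f (j + 1) q = F.U f (j + 1) q := by
  induction j with
  | zero => intro q; rfl
  | succ j ih =>
    intro q
    rw [Fz.U_succ, Fz.U_succ]
    congr 1
    apply Finset.sum_congr rfl
    intro i _
    by_cases h : F.cl (j + 1) i
    · rw [if_pos h, if_pos (cl_old h), kap_old h]
    · rw [if_neg h]
      by_cases h' : (F.close J f).cl (j + 1) i
      · rw [if_pos h', kap_new h]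
      · rw [if_neg h', ih i]

private theorem part2 (h1 : S_Lip) (F : Fz) (J : ℕ) (f f2 : ℕ → ℝ) (hf : ∀ c, f c ≤ f2 c) (j : ℕ) :
    ∀ q, (F.close J f).U f2 (j + 1) q ≤ F.U f2 (j + 1) q := by
  induction j with
  | zero => intro q; exact le_rfl
  | succ j ih =>
    intro q
    rw [Fz.U_succ, Fz.U_succ]
    refine add_le_add le_rfl (Finset.sum_le_sum fun i _ => ?_)
    by_cases h : F.cl (j + 1) i
    · rw [if_pos h, if_pos (cl_old h), kap_old h]
    · rw [if_neg h]
      by_cases h' : (F.close J f).cl (j + 1) i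
      · rw [if_pos h', kap_new h]
        have h3 := h1.2.2 F f f2 (j + 1) i (fun c _ => hf c)
        exact sf_mono (by linarith)
      · rw [if_neg h']
        have h3 := ih i
        exact sf_mono (by linarith)

theorem tClos (h1 : S_Lip) : S_Clos := by
  intro F J f
  refine ⟨fun j q hj => ?_, fun f2 hf j q hj => ?_⟩
  · obtain ⟨k, rfl⟩ := Nat.exists_eq_add_of_le' hj
    exact part1 F J f k q
  · obtain ⟨k, rfl⟩ := Nat.exists_eq_add_of_le' hj
    exact part2 h1 F J f f2 hf k q

end Pool.Agent.D9f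

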