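import Pool.Agent.Lib.MP_d9c039_lc.F.SpecA

set_option autoImplicit false

/-!
# MP_d9c039_lc, the full statement: module CntCl
-/

namespace Pool.Agent.D9f

open Finset

theorem tCntCl : S_CntCl := by
  classical
  refine ⟨?_, ?_⟩
  · intro F f j q hj hU hk s hs
    obtain ⟨j, rfl⟩ : ∃ j', j = j' + 1 := ⟨j - 1, by omega⟩
    rw [Fz.U_succ] at hU
    have hC : CC (j + 2) = 16 * Lam (j + 1) := rfl
    rw [hC] at hU
    have hL : 0 < Lam (j + 1) := sf_pos _
    have hsub : s ⊆ Ico (q * NN (j + 1)) ((q + 1) * NN (j + 1)) := by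
      intro i hi
      exact mem_child.mpr (hs i hi).1
    have h1 : ∑ i ∈ s, Lam (j + 1) ≤ ∑ i ∈ Ico (q * NN (j + 1)) ((q + 1) * NN (j + 1)),
        (if F.cl (j + 1) i then F.kap (j + 1) i else sf (F.U f (j + 1) i + uu (j + 1))) := by
      refine le_trans ?_ (Finset.sum_le_sum_of_subset_of_nonneg hsub ?_)
      · apply Finset.sum_le_sum
        intro i hi
        rw [if_pos (hs i hi).2]
        exact hk i (hs i hi).2
      · intro i _ _
        split_ifs with hc
        · exact hL.le.trans (hk i hc)
        · exact (sf_pos _).le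
    rw [Finset.sum_const, nsmul_eq_mul] at h1
    have h2 : ((s.card : ℕ) : ℝ) * Lam (j + 1) < 16 * Lam (j + 1) := by linarith
    have h3 : ((s.card : ℕ) : ℝ) < 16 := lt_of_mul_lt_mul_right h2 hL.le
    exact_mod_cast h3
  · intro F pk e q he hU s hs
    rw [Fz.U_one] at hU
    have hC : CC 1 = 2 ^ 9 := rfl
    rw [hC] at hU
    have hsub : s ⊆ Ico (q * NN 0) ((q + 1) * NN 0) := by
      intro c hc
      rw [mem_child]
      have h1 := div_succ 0 c
      rw [LL_zero, Nat.div_one] at h1
      rw [h1]
      exact (hs c hc).1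
    have h1 : ∑ c ∈ s, zz ≤ ∑ c ∈ Ico (q * NN 0) ((q + 1) * NN 0), zz * fS pk e ∅ c := by
      refine le_trans ?_ (Finset.sum_le_sum_of_subset_of_nonneg hsub ?_)
      · apply Finset.sum_le_sum
        intro c hc
        unfold fS
        rw [if_pos (hs c hc).2, mul_one]
      · intro c _ _
        apply mul_nonneg zz_pos.le
        unfold fS
        split_ifs
        · norm_num
        · apply Finset.sum_nonneg
          intro x _
          split_ifs
          · exact E0_pos.le
          · exact he x
    rw [Finset.sum_const, nsmul_eq_mul] at h1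
    have h2 : ((s.card : ℕ) : ℝ) * zz < 2 ^ 9 := by linarith
    have h3 : ((s.card : ℕ) : ℝ) < 2 ^ 29 := by
      unfold zz at h2
      rw [mul_one_div, div_lt_iff₀ (by positivity)] at h2
      norm_num at h2 ⊢
      exact h2
    exact_mod_cast h3

end Pool.Agent.D9f
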