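import Pool.Agent.Lib.MP_d9c039_lc.F.SpecC

set_option autoImplicit false

/-!
# MP_d9c039_lc, the full statement: module CntF, the number of foreign marks near a window
-/

namespace Pool.Agent.D9f

open Finset

private theorem add_div_le (L y d : ℕ) (hL : 0 < L) : (y + d) / L ≤ y / L + d / L + 1 := by
  have h1 : y < (y / L + 1) * L := by
    have := Nat.lt_mul_div_succ y hL
    linarith [Nat.mul_comm L (y / L + 1)]
  have h2 : d < (d / L + 1) * L := by
    have := Nat.lt_mul_div_succ d hL
    linarith [Nat.mul_comm L (d / L + 1)]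
  have h3 : y + d < (y / L + d / L + 1 + 1) * L := by
    calc y + d < (y / L + 1) * L + (d / L + 1) * L := Nat.add_lt_add h1 h2
      _ = (y / L + d / L + 1 + 1) * L := by ring
  exact Nat.lt_succ_iff.1 (Nat.div_lt_of_lt_mul (by rwa [Nat.mul_comm] at h3))

/-- at most 16 marks per cell -/
private theorem fib {J : ℕ} {en : Finset ℕ} {p : ℕ → ℕ} {D : Dat} (h : InvW J en p D) (l c : ℕ)
    (M : Finset ℕ) (hM : ∀ v ∈ M, v ∈ D.fm ∧ D.ty v = l) :
    (M.filter (fun v => D.tk v / 8 = c)).card ≤ 16 := by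
  have h1 : (M.filter (fun v => D.tk v / 8 = c)).card ≤
      (range 8 ×ˢ (univ : Finset Bool)).card := by
    refine Finset.card_le_card_of_injOn (fun v => (D.tk v % 8, decide (v < D.tk v / 8))) ?_ ?_
    · intro v _
      exact Finset.mem_coe.2 (Finset.mem_product.2
        ⟨Finset.mem_range.2 (Nat.mod_lt _ (by norm_num)), Finset.mem_univ _⟩)
    · intro v hv v' hv' he
      have e1 := Finset.mem_filter.1 (Finset.mem_coe.1 hv)
      have e2 := Finset.mem_filter.1 (Finset.mem_coe.1 hv')
      have e3 : D.tk v % 8 = D.tk v' % 8 := congrArg Prod.fst he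
      have e4 : decide (v < D.tk v / 8) = decide (v' < D.tk v' / 8) := congrArg Prod.snd he
      have e5 : D.tk v = D.tk v' := by
        have e6 := e1.2
        have e7 := e2.2
        omega
      have e8 : v < D.tk v / 8 ↔ v' < D.tk v' / 8 := by
        rw [← decide_eq_true_iff (p := v < D.tk v / 8), e4, decide_eq_true_iff]
      exact h.inj v (hM v e1.1).1 v' (hM v' e2.1).1 ((hM v e1.1).2.trans (hM v' e2.1).2.symm) e5 e8
  rw [Finset.card_product, Finset.card_range, Finset.card_univ, Fintype.card_bool] at h1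
  exact h1

theorem tCntF (h1 : S_ClCells) : S_CntF := by
  intro J en p D h l a b hl hab
  set M := D.fm.filter (fun v => D.ty v = l ∧ a ≤ v + vv l ∧ v < b + vv l) with hMd
  set C := M.image (fun v => D.tk v / 8) with hCd
  set L := LL (l + 1) with hLd
  have hL : 0 < L := LL_pos _
  have hM : ∀ v ∈ M, v ∈ D.fm ∧ D.ty v = l := by
    intro v hv
    rw [hMd, Finset.mem_filter] at hv
    exact ⟨hv.1, hv.2.1⟩
  have hMC : M.card ≤ 16 * C.card :=
    Finset.card_le_mul_card_image M 16 fun c _ => fib h l c M hM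
  have hC : ∀ c ∈ C, D.clo l c ∧ a ≤ c + (ww l + vv l) ∧ c < b + (ww l + vv l) := by
    intro c hc
    rw [hCd, Finset.mem_image] at hc
    obtain ⟨v, hv, rfl⟩ := hc
    rw [hMd, Finset.mem_filter] at hv
    obtain ⟨hv1, rfl, hv2, hv3⟩ := hv
    obtain ⟨-, -, h2, -, h3, h4, -⟩ := h.i4 v hv1
    exact ⟨h2, by omega, by omega⟩
  set Q := C.image (fun c => c / L) with hQd
  have hCQ : C.card ≤ cc l * Q.card :=
    Finset.card_le_mul_card_image C (cc l) fun q _ => by
      refine h1 J en p D h l q hl _ fun c hc => ?_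
      rw [Finset.mem_filter] at hc
      exact ⟨(hC c hc.1).1, hc.2⟩
  set lo := a - (ww l + vv l) with hlo
  set d := b + (ww l + vv l) - lo with hd
  have hQ : Q ⊆ Icc (lo / L) (lo / L + d / L + 1) := by
    intro q hq
    rw [hQd, Finset.mem_image] at hq
    obtain ⟨c, hc, rfl⟩ := hq
    obtain ⟨-, h2, h3⟩ := hC c hc
    rw [Finset.mem_Icc]
    refine ⟨Nat.div_le_div_right (by omega), ?_⟩
    refine le_trans (Nat.div_le_div_right ?_) (add_div_le L lo d hL)
    omega
  have hQc : Q.card ≤ d / L + 2 := by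
    refine (Finset.card_le_card hQ).trans (le_of_eq ?_)
    rw [Nat.card_Icc]
    generalize lo / L = y
    generalize d / L = x
    omega
  have hdd : d / L ≤ (b - a + 2 * ww l + 2 * vv l) / L := Nat.div_le_div_right (by omega)
  calc M.card ≤ 16 * C.card := hMC
    _ ≤ 16 * (cc l * Q.card) := Nat.mul_le_mul_left _ hCQ
    _ ≤ 16 * (cc l * ((b - a + 2 * ww l + 2 * vv l) / L + 2)) :=
        Nat.mul_le_mul_left _ (Nat.mul_le_mul_left _ (by omega))
    _ = 16 * cc l * ((b - a + 2 * ww l + 2 * vv l) / L + 2) := by rw [Nat.mul_assoc]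

end Pool.Agent.D9f
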