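import Pool.Agent.Lib.MP_d9c039_lc.F.SpecB

set_option autoImplicit false

/-!
# MP_d9c039_lc, module CntR: at most `2 kk` surviving tokens are separated by a given block
-/

namespace Pool.Agent.D9f

open Finset

private lemma CntR_sub (X : CD) (i q x : ℕ) (hx : x ∈ X.T) (hr : X.Rr x i q) :
    x ∈ PP X.en X.p (8 * (q * LL i)) ∪ PP X.en X.p (8 * ((q + 1) * LL i)) := by
  obtain ⟨m, h1, _, h3, _, h5, h6⟩ := hr
  have hen : x ∈ X.en := (CD.mem_T.1 hx).1
  have hL : 0 < LL i := LL_pos i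
  have hle : x / 8 / LL i ≤ m / LL i := Nat.div_le_div_right h1.le
  have hlt : x / 8 / LL i < m / LL i := lt_of_le_of_ne hle h5
  rw [Finset.mem_union, mem_PP, mem_PP]
  rcases h6 with h6 | h6
  · right
    have h7 : x / 8 < (q + 1) * LL i := by
      rw [← Nat.div_lt_iff_lt_mul hL, ← h6]
      exact Nat.lt_succ_self q
    have h8 : (q + 1) * LL i ≤ m := by
      rw [← Nat.le_div_iff_mul_le hL, h6]
      exact hlt
    refine ⟨hen, ?_, ?_⟩
    · omega
    · omega
  · left
    have h7 : x / 8 < q * LL i := by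
      rw [← Nat.div_lt_iff_lt_mul hL, h6]
      exact hlt
    have h8 : q * LL i ≤ m := by
      rw [← Nat.le_div_iff_mul_le hL, h6]
    refine ⟨hen, ?_, ?_⟩
    · omega
    · omega

open Classical in
theorem tCntR : S_CntR := by
  intro X hX i q
  have h1 : X.T.filter (fun x => X.Rr x i q) ⊆
      PP X.en X.p (8 * (q * LL i)) ∪ PP X.en X.p (8 * ((q + 1) * LL i)) := by
    intro x hx
    rw [Finset.mem_filter] at hx
    exact CntR_sub X i q x hx.1 hx.2
  have h2 := Finset.card_le_card h1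
  have h3 := Finset.card_union_le (PP X.en X.p (8 * (q * LL i))) (PP X.en X.p (8 * ((q + 1) * LL i)))
  have h4 := hX.inv.cntw (8 * (q * LL i))
  have h5 := hX.inv.cntw (8 * ((q + 1) * LL i))
  have h6 : (X.T.filter (fun x => X.Rr x i q)).card ≤ kk + kk :=
    h2.trans (h3.trans (Nat.add_le_add h4 h5))
  have h7 : ((X.T.filter (fun x => X.Rr x i q)).card : ℝ) ≤ ((kk + kk : ℕ) : ℝ) := Nat.cast_le.2 h6
  rw [Nat.cast_add] at h7
  linarith

end Pool.Agent.D9f
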