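import Pool.Agent.Lib.MP_d9c039_lc.F.SpecA

set_option autoImplicit false

/-!
# MP_d9c039_lc, the full statement: module Conv

Convexity of the nested potential: `th` is the gradient of `U`.
-/

namespace Pool.Agent.D9f

open Finset

private theorem blk_one (q : ℕ) : blk 1 q = Ico (q * NN 0) ((q + 1) * NN 0) := by
  have h : LL 1 = NN 0 := by
    have h1 := LL_succ 0
    rw [LL_zero, Nat.one_mul, Nat.zero_add] at h1
    exact h1
  unfold blk
  rw [h]

private theorem conv_one (F : Fz) (f f' : ℕ → ℝ) (q : ℕ) :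
    ∑ c ∈ blk 1 q, F.th f 1 c * (f' c - f c) = F.U f' 1 q - F.U f 1 q := by
  rw [Fz.U_one, Fz.U_one, blk_one]
  have h : ∑ c ∈ Ico (q * NN 0) ((q + 1) * NN 0), F.th f 1 c * (f' c - f c) =
      ∑ i ∈ Ico (q * NN 0) ((q + 1) * NN 0), zz * f' i -
        ∑ i ∈ Ico (q * NN 0) ((q + 1) * NN 0), zz * f i := by
    rw [← Finset.sum_sub_distrib]
    apply Finset.sum_congr rfl
    intro c _
    rw [Fz.th_one, mul_sub]
  rw [h]
  ring

private theorem conv_step (F : Fz) (f f' : ℕ → ℝ) (j : ℕ)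
    (ih : ∀ q : ℕ, ∑ c ∈ blk (j + 1) q, F.th f (j + 1) c * (f' c - f c) ≤
      F.U f' (j + 1) q - F.U f (j + 1) q) (q : ℕ) :
    ∑ c ∈ blk (j + 2) q, F.th f (j + 2) c * (f' c - f c) ≤
      F.U f' (j + 2) q - F.U f (j + 2) q := by
  classical
  have hL : ∑ c ∈ blk (j + 2) q, F.th f (j + 2) c * (f' c - f c) =
      ∑ i ∈ Ico (q * NN (j + 1)) ((q + 1) * NN (j + 1)),
        F.ep f (j + 1) i * ∑ c ∈ blk (j + 1) i, F.th f (j + 1) c * (f' c - f c) := by
    rw [sum_blk_succ (j + 1) q]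
    apply Finset.sum_congr rfl
    intro i _
    rw [Finset.mul_sum]
    apply Finset.sum_congr rfl
    intro c hc
    rw [Fz.th_succ, mem_blk.mp hc]
    ring
  have hR : F.U f' (j + 2) q - F.U f (j + 2) q =
      ∑ i ∈ Ico (q * NN (j + 1)) ((q + 1) * NN (j + 1)),
        ((if F.cl (j + 1) i then F.kap (j + 1) i else sf (F.U f' (j + 1) i + uu (j + 1))) -
          (if F.cl (j + 1) i then F.kap (j + 1) i else sf (F.U f (j + 1) i + uu (j + 1)))) := by
    rw [Fz.U_succ, Fz.U_succ, Finset.sum_sub_distrib]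
    ring
  rw [hL, hR]
  apply Finset.sum_le_sum
  intro i _
  by_cases hc : F.cl (j + 1) i
  · rw [Fz.ep_cl hc, if_pos hc, if_pos hc, zero_mul, sub_self]
  · rw [Fz.ep_op hc, if_neg hc, if_neg hc]
    have h1 := mul_le_mul_of_nonneg_left (ih i) (sd_pos (F.U f (j + 1) i + uu (j + 1))).le
    have h2 := sf_conv (F.U f (j + 1) i + uu (j + 1)) (F.U f' (j + 1) i + uu (j + 1))
    have h3 : F.U f' (j + 1) i + uu (j + 1) - (F.U f (j + 1) i + uu (j + 1)) =
        F.U f' (j + 1) i - F.U f (j + 1) i := by ring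
    rw [h3] at h2
    exact h1.trans h2

theorem tConv : S_Conv := by
  intro F f f' j
  induction j with
  | zero => intro q h; exact absurd h (by omega)
  | succ j ih =>
    intro q _
    cases j with
    | zero => exact (conv_one F f f' q).le
    | succ j => exact conv_step F f f' j (fun q => ih q (by omega)) q

end Pool.Agent.D9f
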