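import Pool.Agent.Lib.MP_d9c039_lc.F.SpecC

set_option autoImplicit false

/-!
# MP_d9c039_lc, the full statement, module Core: the answer to a new token
-/

namespace Pool.Agent.D9f

open Finset

theorem tCore (h1 : S_Add) (h2 : S_VioF) (h3 : S_CaseR) (h4 : S_Pig) (h5 : S_CaseD) : S_Core := by
  classical
  intro J en p D x hJ hI hx hxl
  have hW := h1 J en p D x hI hx hxl
  have hold : ∀ n, x ∉ PP (insert x en) (Function.update p x (8 * LL J)) n →
      PP (insert x en) (Function.update p x (8 * LL J)) n ⊆ PP en p n := by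
    intro n hc t ht
    have ht' := ht
    rw [mem_PP] at ht
    obtain ⟨k1, k2, k3⟩ := ht
    have hne : t ≠ x := by
      rintro rfl
      exact hc ht'
    rw [mem_PP]
    refine ⟨(Finset.mem_insert.1 k1).resolve_left hne, k2, ?_⟩
    rwa [Function.update_of_ne hne] at k3
  generalize Function.update p x (8 * LL J) = p' at hW hold ⊢
  generalize insert x en = en' at hW hold ⊢
  by_cases hall : ∀ n, (PP en' p' n).card < kk
  · exact Or.inl { toInvW := hW, cnt := hall }
  · right
    push Not at hall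
    obtain ⟨n0, hn0, hmin⟩ : ∃ n0, kk ≤ (PP en' p' n0).card ∧
        ∀ n < n0, (PP en' p' n).card < kk :=
      ⟨Nat.find hall, Nat.find_spec hall, fun n hn => not_le.1 (Nat.find_min hall hn)⟩
    obtain ⟨hn0l, x1, c1, ck, hx1, hx1c, hck, hcard, h45⟩ := h2 J en' p' D n0 hW hn0
    have hxP : x ∈ PP en' p' n0 := by
      by_contra hc
      have k1 := hI.cnt n0
      have k2 := Finset.card_le_card (hold n0 hc)
      omega
    have hcl : ∀ (y : ℕ) (D' : Dat), y < n0 → InvW J en' (fun t => min (p' t) y) D' →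
        Inv J en' (fun t => min (p' t) y) D' := by
      intro y D' hy hW'
      refine { toInvW := hW', cnt := fun n => ?_ }
      rcases Nat.lt_or_ge y n with h | h
      · have k1 : PP en' (fun t => min (p' t) y) n = ∅ := by
          rw [Finset.eq_empty_iff_forall_notMem]
          intro t ht
          have k2 : n ≤ min (p' t) y := (mem_PP.1 ht).2.2
          have k3 : min (p' t) y ≤ y := min_le_right _ _
          omega
        rw [k1, Finset.card_empty]
        unfold kk
        norm_num
      · have k1 : PP en' (fun t => min (p' t) y) n ⊆ PP en' p' n := by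
          intro t ht
          obtain ⟨k2, k3, k4⟩ := mem_PP.1 ht
          exact mem_PP.2 ⟨k2, k3, le_trans k4 (min_le_left _ _)⟩
        exact (Finset.card_le_card k1).trans_lt (hmin n (lt_of_le_of_lt h hy))
    by_cases hR : ∃ x' ∈ (PP en' p' n0).filter (fun x => c1 < x / 8 ∧ x / 8 < ck), ∃ i < J,
        2 * ww i + 1 + c1 + 1 ≤ ck ∧ D.clo i (x' / 8)
    · obtain ⟨x', hx', i, hi, hw, hclo⟩ := hR
      rw [Finset.mem_filter] at hx'
      obtain ⟨v, D', hv1, hv2, hvf, hpk, hfm, hW'⟩ := h3 J en' p' D n0 c1 ck x' i hW hck hx'.1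
        hx'.2.1 hx'.2.2 hi hclo hw
      exact ⟨n0, x1, 8 * v + 4, D', hn0l, hxP, hx1, by omega, by omega,
        Or.inr ⟨v, rfl, hvf, hpk, hfm⟩, hcl _ D' (by omega) hW'⟩
    · push Not at hR
      obtain ⟨jb, qb, JJ, hOk⟩ := h4 J en' p' D n0 c1 ck hJ hW hn0l hck hcard h45
        (fun x' hx' i hi hw => hR x' hx' i hi hw)
      obtain ⟨yh, D', k1, k2, hpk, hpk', hfm, hW'⟩ := h5 _ hOk
      have k1' : c1 < yh := k1
      have k2' : yh < ck := k2
      exact ⟨n0, x1, 8 * yh, D', hn0l, hxP, hx1, by omega, by omega,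
        Or.inl ⟨yh, rfl, hpk, hpk', hfm⟩, hcl _ D' (by omega) hW'⟩

end Pool.Agent.D9f
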