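import Pool.Agent.Lib.MP_d9c039_lc.F.SpecB

set_option autoImplicit false

/-!
# MP_d9c039_lc, the full statement: module EDiff, the new shares
-/

namespace Pool.Agent.D9f

open Finset

private theorem zz_le : 8 * zz ≤ 1 := by
  unfold zz
  norm_num

theorem tEDiff (h1 : S_Pay) (h2 : S_RI3) (h3 : S_KBd) : S_EDiff := by
  intro X h x
  have hI : Pre X.J X.en X.p X.D := h.inv.toPre
  obtain ⟨hK0, hK1⟩ := (h3 X h).1 x
  have hz := zz_le
  have hc := c0_pos
  have hE := E0_eq
  obtain ⟨he0, heE⟩ := hI.e0 x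
  have hnJ : x ∉ X.JJ → X.del x = 0 := fun hJ => by
    unfold CD.del
    rw [if_neg hJ]
  have hd0 : 0 ≤ X.del x := by
    by_cases hJ : x ∈ X.JJ
    · exact (h1 X h x hJ).1
    · rw [hnJ hJ]
  by_cases hT : x ∈ X.T
  · have hT' := CD.mem_T.1 hT
    obtain ⟨hr0, hr1, -⟩ := h2 X h x hT
    have he' : X.e' x = E0 - c0 * (X.r x * (1 - X.K x)) := by
      unfold CD.e'
      rw [if_pos hT]
    have hdel : X.del x = c0 * (X.r x - X.D.rho x) := by
      by_cases hJ : x ∈ X.JJ
      · unfold CD.del CD.r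
        rw [if_pos hJ, if_pos hT'.2.2, if_pos hJ]
      · rw [hnJ hJ]
        unfold CD.r
        rw [if_neg hJ, sub_self, mul_zero]
    have he := e_eq_rho X.D x
    have hq0 : 0 ≤ X.r x * (1 - X.K x) := mul_nonneg hr0 (by linarith)
    have hq1 : X.r x * (1 - X.K x) ≤ 1 := mul_le_one₀ hr1 (by linarith) (by linarith)
    have hc0 : 0 ≤ c0 * (X.r x * (1 - X.K x)) := mul_nonneg hc.le hq0
    have hc1 : c0 * (X.r x * (1 - X.K x)) ≤ c0 := mul_le_of_le_one_right hc.le hq1
    refine ⟨?_, ?_, ?_, fun _ => ⟨?_, ?_⟩, fun hn => absurd hT'.1 hn⟩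
    · rw [he', hdel, he, if_pos hT]
      ring
    · rw [he']
      linarith
    · rw [he']
      linarith
    · rw [he']
      linarith
    · change (E0 - X.e' x) / c0 = _
      rw [he', sub_sub_cancel, mul_div_cancel_left₀ _ hc.ne']
  · have he' : X.e' x = X.D.e x - X.del x := by
      unfold CD.e'
      rw [if_neg hT]
    refine ⟨?_, ?_, ?_, fun hT2 => absurd hT2 hT, fun hn => ?_⟩
    · rw [he', if_neg hT, add_zero]
    · rw [he']
      by_cases hJ : x ∈ X.JJ
      · have hp := h.pp hJ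
        have ha := hI.alive x hp.1 (hp.2.1.trans_le hp.2.2)
        have hd := (h1 X h x hJ).2.1
        linarith
      · rw [hnJ hJ]
        linarith
    · rw [he']
      linarith
    · have hJ : x ∉ X.JJ := fun hJ => hn (h.pp hJ).1
      rw [he', hnJ hJ, hI.fresh x hn, sub_zero]

end Pool.Agent.D9f
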