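import Pool.Agent.Lib.MP_d9c039_lc.F.SpecG

set_option autoImplicit false

/-!
# MP_d9c039_lc, the full statement: assembly with constants which do not depend on `A`
-/

namespace Pool.Agent.D9f

open Finset
open Pool.Agent.D9 (cnt resp tabS)
open Pool.Agent.D9b (pendL drn plH LGood mList8 S_Plays S_Search S_Guess S_UM1 S_UM2 S_UM3 S_UC)
open Pool.Agent.D9c (mkH Enu cnt_le)

private lemma re_of_stages (d : ℕ → List ℕ) (hd : Computable d) :
    REPred (fun n : ℕ => ∃ s, n ∈ d s) := by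
  have h1 : Computable₂ (fun (n : ℕ) (s : ℕ) => decide (n ∈ d s)) := by
    have hp : PrimrecRel (fun (L : List ℕ) (n : ℕ) => ∃ a ∈ L, a = n) :=
      PrimrecRel.exists_mem_list (R := fun a b : ℕ => a = b) Primrec.eq
    have h2 : Computable (fun t : List ℕ × ℕ => decide (∃ a ∈ t.1, a = t.2)) :=
      (hp.decide).to_comp
    have h3 : Computable (fun t : ℕ × ℕ => decide (∃ a ∈ d t.2, a = t.1)) :=
      h2.comp (Computable.pair (hd.comp Computable.snd) Computable.fst)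
    exact h3.of_eq (fun t => by simp)
  have h2 : Partrec (fun n : ℕ => Nat.rfind (fun s => Part.some (decide (n ∈ d s)))) :=
    Partrec.rfind h1.partrec₂
  refine (Partrec.dom_re h2).of_eq ?_
  intro n
  refine Iff.trans (Nat.rfind_dom (p := fun s => Part.some (decide (n ∈ d s)))) ?_
  constructor
  · rintro ⟨s, hs, _⟩
    exact ⟨s, by simpa using hs⟩
  · rintro ⟨s, hs⟩
    exact ⟨s, by simpa using hs, fun _ => trivial⟩

/-- The full statement with constants. -/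
theorem finU (h1 : S_Brd) (h2 : S_SzC) (h3 : S_Plays) (h4 : S_Search) (h5 : S_Guess)
    (h6 : Pool.Agent.D9.EnumB) (h7 : S_UM1) (h8 : S_UM2) (h9 : S_UM3) (h10 : S_UC) :
    ∀ A : Set ℕ, REPred (fun n : ℕ => n ∈ A) →
      ∃ D : Set ℕ, REPred (fun n : ℕ => n ∈ D) ∧ (∀ n ∈ D, Even n) ∧
        (∃ φ : List Bool × ℕ →. List Bool, Partrec φ ∧ ∀ n : ℕ, ∀ τ : List Bool,
          τ.length = n → (∀ i < n, (τ.getD i false = true ↔ i ∈ D)) →
          ∃ j ≤ 2 ^ 48 + 32, ∃ σ ∈ φ (τ, j), σ.length = n ∧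
            ∀ i < n, (σ.getD i false = true ↔ i ∈ A)) ∧
        (∃ ψ : List Bool × ℕ →. List Bool, Partrec ψ ∧ ∀ n : ℕ, ∀ τ : List Bool,
          τ.length = n → (∀ i < n, (τ.getD i false = true ↔ i ∈ A)) →
          ∃ j ≤ 2, ∃ σ ∈ ψ (τ, j), σ.length = n ∧
            ∀ i < n, (σ.getD i false = true ↔ i ∈ D)) := by
  classical
  intro A hA
  obtain ⟨a, ha, hnd, hstep, ha0, halt, hmem⟩ := h6 A hA
  have hEnu : Enu a := ⟨hnd, hstep, ha0, halt⟩
  have hmono : ∀ s x, x ∈ a s → x ∈ a (s + 1) := by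
    intro s x hx
    rcases hstep s with h | ⟨y, h⟩
    · rw [h]; exact hx
    · rw [h]; exact List.mem_append_left _ hx
  obtain ⟨d, k1, k2, k3, k4, k5, k6⟩ := Pool.Agent.D9b.fam8 h3 h4 h7 h8 h9 h10 Sz CL h2.1 h2.2.1
    h2.2.2.1 h2.2.2.2.1 h1 a ha hEnu
  refine ⟨{x | ∃ s, x ∈ d s}, re_of_stages d k1, ?_, ?_, ?_⟩
  · rintro n ⟨s, hs⟩
    rw [Nat.even_iff]
    exact (k4 s n hs).1
  · obtain ⟨φ, hφ, hφ'⟩ := h5 a d A {x | ∃ s, x ∈ d s} (fun _ => 2 ^ 48 + 32) ha k1 hnd k2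
      hmono k3 hmem (fun x => Iff.rfl) (fun n s s' hs hs' h => by
        rcases Nat.lt_or_ge n 16 with h16 | h16
        · have := cnt_le (a s') (hnd s') n
          omega
        · obtain ⟨L, hL1, hL2⟩ := h2.2.2.2.2 n h16
          have h11 : (n, kk + 16) ∈ CL L := by
            unfold CL
            rw [List.mem_map]
            exact ⟨n, by simpa using ⟨hL2, hL1⟩, rfl⟩
          exact k5 L _ h11 hL1 hL2 s s' hs hs' h)
    exact ⟨φ, hφ, hφ'⟩
  · obtain ⟨φ, hφ, hφ'⟩ := h5 d a {x | ∃ s, x ∈ d s} A (fun _ => 2) k1 ha k2 hnd k3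
      hmono (fun x => Iff.rfl) hmem (fun n s s' _ hs' h => k6 n s s' hs' h)
    exact ⟨φ, hφ, hφ'⟩

end Pool.Agent.D9f
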