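import Pool.Agent.Lib.MP_d9c039_lc.F.SpecA

set_option autoImplicit false

/-!
# MP_d9c039_lc, the full statement, module Init: the initial invariants
-/

namespace Pool.Agent.D9f

open Finset

private theorem f0 (c : ℕ) : D0.f c = 8 * E0 := by
  have h1 : D0.f c = ∑ x ∈ Ico (8 * c) (8 * c + 8), E0 := by
    show fS ∅ (fun _ => E0) ∅ c = _
    unfold fS
    rw [if_neg (Finset.notMem_empty c)]
    exact Finset.sum_congr rfl fun x _ => if_neg (Finset.notMem_empty x)
  rw [h1, Finset.sum_const, Nat.card_Ico, Nat.add_sub_cancel_left, nsmul_eq_mul]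
  norm_num

private theorem card0 (q n : ℕ) : (Ico (q * n) ((q + 1) * n)).card = n := by
  rw [Nat.card_Ico, Nat.add_mul, Nat.one_mul, Nat.add_sub_cancel_left]

open Classical in
private theorem U0 : ∀ j q : ℕ, D0.U D0.f (j + 1) q = -aa (j + 1) := by
  intro j
  induction j with
  | zero =>
    intro q
    rw [Nat.zero_add, Fz.U_one]
    have h1 : ∑ i ∈ Ico (q * NN 0) ((q + 1) * NN 0), zz * D0.f i = (NN 0 : ℝ) * (zz * (8 * E0)) := by
      rw [Finset.sum_congr rfl fun i _ => by rw [f0 i], Finset.sum_const, card0, nsmul_eq_mul]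
    rw [h1]
    have h2 : (NN 0 : ℝ) = 2 ^ 40 := by
      have : NN 0 = 2 ^ 40 := rfl
      rw [this]
      norm_num
    have h3 : CC 1 = 2 ^ 9 := rfl
    have h4 : aa 1 = 2 ^ 9 - 1 / 2 ^ 17 := rfl
    rw [h2, h3, h4]
    unfold zz E0
    norm_num
  | succ j ih =>
    intro q
    rw [Fz.U_succ]
    have hN : (0 : ℝ) < NN (j + 1) := by exact_mod_cast NN_pos (j + 1)
    have hN1 : (1 : ℝ) ≤ NN (j + 1) := by exact_mod_cast NN_pos (j + 1)
    have h0 : sf (-Real.log (NN (j + 1))) = 1 / (2 * (NN (j + 1) : ℝ)) := by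
      unfold sf
      rw [if_pos (by linarith [Real.log_nonneg hN1]), Real.exp_neg, Real.exp_log hN]
      field_simp
    have h1 : (∑ i ∈ Ico (q * NN (j + 1)) ((q + 1) * NN (j + 1)),
        (if D0.cl (j + 1) i then D0.kap (j + 1) i else sf (D0.U D0.f (j + 1) i + uu (j + 1)))) =
        (NN (j + 1) : ℝ) * (1 / (2 * (NN (j + 1) : ℝ))) := by
      have h2 : ∀ i ∈ Ico (q * NN (j + 1)) ((q + 1) * NN (j + 1)),
          (if D0.cl (j + 1) i then D0.kap (j + 1) i else sf (D0.U D0.f (j + 1) i + uu (j + 1))) =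
          1 / (2 * (NN (j + 1) : ℝ)) := by
        intro i _
        have hcl : ¬ D0.cl (j + 1) i := fun h => h
        rw [if_neg hcl, ih i]
        have h3 : -aa (j + 1) + uu (j + 1) = -Real.log (NN (j + 1)) := by
          unfold uu
          ring
        rw [h3, h0]
      rw [Finset.sum_congr rfl h2, Finset.sum_const, card0, nsmul_eq_mul]
    have h4 : (NN (j + 1) : ℝ) * (1 / (2 * (NN (j + 1) : ℝ))) = 1 / 2 := by
      field_simp
    have h5 : CC (j + 2) = 16 * Lam (j + 1) := rfl
    have h6 : aa (j + 2) = 16 * sf (aa (j + 1) - Real.log (NN (j + 1)) - gg (j + 1)) - 1 / 2 := rfl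
    have h7 : Lam (j + 1) = sf (aa (j + 1) - Real.log (NN (j + 1)) - gg (j + 1)) := rfl
    rw [h1, h4, h5, h7, h6]
    ring

private theorem PP0 (p : ℕ → ℕ) (n : ℕ) : (PP ∅ p n).card = 0 := by
  unfold PP
  rw [Finset.filter_empty, Finset.card_empty]

theorem tInit (h1 : S_Par) : S_Init := by
  intro J p
  have hU : ∀ j q, 1 ≤ j → D0.U D0.f j q < -gg j := by
    intro j q hj
    obtain ⟨k, rfl⟩ : ∃ k, j = k + 1 := ⟨j - 1, by omega⟩
    rw [U0]
    linarith [h1.2 k]
  refine { enlt := ?_, ple := ?_, cntw := ?_, e0 := ?_, fresh := ?_, alive := ?_, neg := ?_, kapge := ?_,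
           i3 := ?_, i4 := ?_, inj := ?_, spc := ?_, opn := ?_, cnt := ?_ }
  · exact fun x hx => absurd hx (Finset.notMem_empty x)
  · exact fun x hx => absurd hx (Finset.notMem_empty x)
  · intro n
    rw [PP0]
    exact Nat.zero_le _
  · exact fun x => ⟨E0_pos.le, le_rfl⟩
  · exact fun x _ => rfl
  · exact fun x hx => absurd hx (Finset.notMem_empty x)
  · intro j q hj _
    linarith [hU j q hj, gg_pos j]
  · exact fun j q _ _ h => h.elim
  · exact fun x hx => absurd hx (Finset.notMem_empty x)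
  · exact fun v hv => absurd hv (Finset.notMem_empty v)
  · exact fun v hv => absurd hv (Finset.notMem_empty v)
  · exact fun v hv => absurd hv (Finset.notMem_empty v)
  · exact fun j q hj _ _ => hU j q hj
  · intro n
    rw [PP0]
    unfold kk
    exact Nat.succ_pos _

end Pool.Agent.D9f
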