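import Pool.Agent.Lib.MP_d9c039_lc.F.SpecB

set_option autoImplicit false

/-!
# MP_d9c039_lc, the full statement: module KBd (helper2)
-/

namespace Pool.Agent.D9f

open Finset

open Classical in
theorem tKBd (h1 : S_Sig) (h2 : S_CntR) : S_KBd := by
  intro X hX
  obtain ⟨hs0, -, hs2⟩ := h1 X hX
  have hc := h2 X hX
  have hzz : 0 < zz := by unfold zz; positivity
  have hc0 : 0 < c0 := by unfold c0; positivity
  refine ⟨fun x => ⟨?_, ?_⟩, ?_, ?_⟩
  · unfold CD.K
    refine Finset.sum_nonneg fun i hi => Finset.sum_nonneg fun q _ => ?_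
    split_ifs
    · exact hs0 i q (mem_Icc.1 hi).1
    · exact le_rfl
  · refine le_trans ?_ hs2
    unfold CD.K
    refine Finset.sum_le_sum fun i hi => Finset.sum_le_sum fun q _ => ?_
    split_ifs
    · exact le_rfl
    · exact hs0 i q (mem_Icc.1 hi).1
  · have e1 : ∑ x ∈ X.T, X.K x = ∑ i ∈ Icc 1 X.J, ∑ q ∈ range (LL X.J),
        X.sig i q * ((X.T.filter (fun x => X.Rr x i q)).card : ℝ) := by
      unfold CD.K
      rw [Finset.sum_comm]
      refine Finset.sum_congr rfl fun i _ => ?_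
      rw [Finset.sum_comm]
      refine Finset.sum_congr rfl fun q _ => ?_
      rw [← Finset.sum_filter, Finset.sum_const, nsmul_eq_mul, mul_comm]
    have e2 : ∑ x ∈ X.T, X.K x ≤ (2 * (kk : ℝ)) * (8 * zz) := by
      rw [e1]
      calc ∑ i ∈ Icc 1 X.J, ∑ q ∈ range (LL X.J),
            X.sig i q * ((X.T.filter (fun x => X.Rr x i q)).card : ℝ)
          ≤ ∑ i ∈ Icc 1 X.J, ∑ q ∈ range (LL X.J), (2 * (kk : ℝ)) * X.sig i q := by
            refine Finset.sum_le_sum fun i hi => Finset.sum_le_sum fun q _ => ?_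
            rw [mul_comm]
            exact mul_le_mul_of_nonneg_right (hc i q) (hs0 i q (mem_Icc.1 hi).1)
        _ = (2 * (kk : ℝ)) * ∑ i ∈ Icc 1 X.J, ∑ q ∈ range (LL X.J), X.sig i q := by
            rw [Finset.mul_sum]
            exact Finset.sum_congr rfl fun i _ => (Finset.mul_sum _ _ _).symm
        _ ≤ (2 * (kk : ℝ)) * (8 * zz) := mul_le_mul_of_nonneg_left hs2 (by positivity)
    have e3 : c0 * (2 * (kk : ℝ)) ≤ 258 := by
      unfold c0 kk
      norm_num
    calc c0 * ∑ x ∈ X.T, X.K x ≤ c0 * ((2 * (kk : ℝ)) * (8 * zz)) :=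
          mul_le_mul_of_nonneg_left e2 hc0.le
      _ = (c0 * (2 * (kk : ℝ))) * (8 * zz) := by ring
      _ ≤ 258 * (8 * zz) := mul_le_mul_of_nonneg_right e3 (by positivity)
      _ = 2064 * zz := by ring
  · intro j qB x
    unfold CD.KB
    refine Finset.sum_nonneg fun i hi => Finset.sum_nonneg fun q _ => ?_
    split_ifs
    · exact hs0 i q (mem_Icc.1 hi).1
    · exact le_rfl

end Pool.Agent.D9f
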