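import Pool.Agent.Lib.MP_d9c039_lc.F.SpecB

set_option autoImplicit false

/-!
# MP_d9c039_lc, the full statement, module KEq: the refund factor is a sum over one block
-/

namespace Pool.Agent.D9f

open Finset

open Classical in
private theorem K_eq_KB (X : CD) (j qB x : ℕ) (hj : j ≤ X.J)
    (H : ∀ i q, 1 ≤ i → i ≤ X.J → X.Rr x i q → X.sig i q ≠ 0 → i ≤ j ∧ q * LL i / LL j = qB) :
    X.K x = X.KB j qB x := by
  symm
  unfold CD.K CD.KB
  apply Finset.sum_subset_zero_on_sdiff
  · exact Finset.Icc_subset_Icc le_rfl hj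
  · intro i hi
    rw [Finset.mem_sdiff, Finset.mem_Icc, Finset.mem_Icc] at hi
    apply Finset.sum_eq_zero
    intro q _
    split_ifs with hR
    · by_contra hs
      exact hi.2 ⟨hi.1.1, (H i q hi.1.1 hi.1.2 hR hs).1⟩
    · rfl
  · intro i hi
    rw [Finset.mem_Icc] at hi
    apply Finset.sum_congr rfl
    intro q _
    by_cases hR : X.Rr x i q
    · rw [if_pos hR]
      by_cases hs : X.sig i q = 0
      · split_ifs
        · rfl
        · exact hs.symm
      · rw [if_pos ⟨hR, (H i q hi.1 (hi.2.trans hj) hR hs).2⟩]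
    · rw [if_neg hR, if_neg fun h => hR h.1]

theorem tKEq (h1 : S_Sup) : S_KEq := by
  intro X h x hx
  refine ⟨?_, ?_⟩
  · apply K_eq_KB X X.jb X.qb x h.jbJ
    intro i q hi hiJ _ hs
    have h2 := h1 X h i q hi hiJ hs
    exact ⟨h2.1, h2.2.1⟩
  · intro i qB hi hiJ hq hp
    apply K_eq_KB X i qB x hiJ
    intro i' q' _ _ hR _
    obtain ⟨m, hm1, _, hm3, _, hne, hq'⟩ := hR
    have h2 : m / LL i = qB := by
      apply Nat.div_eq_of_lt_le
      · have h3 : qB * LL i ≤ x / 8 := by
          rw [← hq]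
          exact Nat.div_mul_le_self _ _
        omega
      · omega
    have h3 : i' < i := by
      by_contra hcon
      push Not at hcon
      exact hne (div_up hcon (hq.trans h2.symm))
    refine ⟨h3.le, ?_⟩
    rcases hq' with rfl | rfl
    · rw [div_sub h3.le, hq]
    · rw [div_sub h3.le, h2]

end Pool.Agent.D9f
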