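import Pool.Agent.Lib.MP_d9c039_lc.F.SpecB

set_option autoImplicit false

/-!
# MP_d9c039_lc, the full statement: module Key
-/

namespace Pool.Agent.D9f

open Finset

open Classical in
private theorem key_swap (X : CD) (j qB : ℕ) (T' : Finset ℕ) :
    ∑ x ∈ T', X.D.th X.D.f j (x / 8) * (c0 * (X.r x * X.KB j qB x)) =
      ∑ i ∈ Icc 1 j, ∑ q ∈ (range (LL X.J)).filter (fun q => q * LL i / LL j = qB),
        c0 * (X.sig i q * ∑ x ∈ T'.filter (fun x => X.Rr x i q),
          X.D.th X.D.f j (x / 8) * X.r x) := by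
  unfold CD.KB
  simp only [Finset.mul_sum]
  rw [Finset.sum_comm]
  apply Finset.sum_congr rfl
  intro i _
  rw [Finset.sum_comm, Finset.sum_filter]
  apply Finset.sum_congr rfl
  intro q _
  by_cases hc : q * LL i / LL j = qB
  · rw [if_pos hc, Finset.sum_filter]
    apply Finset.sum_congr rfl
    intro x _
    by_cases hr : X.Rr x i q
    · rw [if_pos ⟨hr, hc⟩, if_pos hr]
      ring
    · rw [if_neg (fun h => hr h.1), if_neg hr]
      ring
  · rw [if_neg hc]
    apply Finset.sum_eq_zero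
    intro x _
    rw [if_neg (fun h => hc h.2)]
    ring

theorem tKey (h1 : S_Sig) (h2 : S_CntR) (h3 : S_KeyA) (h4 : S_KeyB) : S_Key := by
  classical
  intro X hX j qB hj hjJ
  have hsig := (h1 X hX).1
  have hP0 : ∀ i q, 0 ≤ ∏ l ∈ Ico i j, X.D.ep X.D.f l (q * LL i / LL l) :=
    fun i q => Finset.prod_nonneg (fun l _ => Fz.ep_nonneg _ _ _ _)
  have hz := zz_pos
  have hc := c0_pos
  rw [key_swap X j qB]
  -- the inner sums
  have hin : ∀ i ∈ Icc 1 j, ∀ q, q * LL i / LL j = qB →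
      ∑ x ∈ (X.T.filter (fun x => x / 8 / LL j = qB)).filter (fun x => X.Rr x i q),
        X.D.th X.D.f j (x / 8) * X.r x ≤
      2 * (kk : ℝ) * (2 * zz / 2 ^ i * ∏ l ∈ Ico i j, X.D.ep X.D.f l (q * LL i / LL l)) := by
    intro i hi q hq
    rw [Finset.mem_Icc] at hi
    have hb : ∀ x ∈ (X.T.filter (fun x => x / 8 / LL j = qB)).filter (fun x => X.Rr x i q),
        X.D.th X.D.f j (x / 8) * X.r x ≤
          2 * zz / 2 ^ i * ∏ l ∈ Ico i j, X.D.ep X.D.f l (q * LL i / LL l) := by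
      intro x hx
      rw [Finset.mem_filter, Finset.mem_filter] at hx
      exact h3 X hX i j q x hi.1 hi.2 hjJ hx.1.1 hx.2 (by rw [hq, hx.1.2])
    have hcard : ((((X.T.filter (fun x => x / 8 / LL j = qB)).filter
        (fun x => X.Rr x i q)).card : ℕ) : ℝ) ≤ 2 * (kk : ℝ) := by
      refine le_trans ?_ (h2 X hX i q)
      norm_cast
      apply Finset.card_le_card
      intro x hx
      rw [Finset.mem_filter, Finset.mem_filter] at hx
      rw [Finset.mem_filter]
      exact ⟨hx.1.1, hx.2⟩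
    refine (Finset.sum_le_card_nsmul _ _ _ hb).trans ?_
    rw [nsmul_eq_mul]
    exact mul_le_mul_of_nonneg_right hcard (mul_nonneg (by positivity) (hP0 i q))
  have hstep : ∀ i ∈ Icc 1 j,
      ∑ q ∈ (range (LL X.J)).filter (fun q => q * LL i / LL j = qB),
        c0 * (X.sig i q * ∑ x ∈ (X.T.filter (fun x => x / 8 / LL j = qB)).filter
          (fun x => X.Rr x i q), X.D.th X.D.f j (x / 8) * X.r x) ≤
      (516 * zz * X.sig j qB) * (1 / 2 ^ i) := by
    intro i hi
    have hi' := hi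
    rw [Finset.mem_Icc] at hi'
    have e1 : ∑ q ∈ (range (LL X.J)).filter (fun q => q * LL i / LL j = qB),
        c0 * (X.sig i q * ∑ x ∈ (X.T.filter (fun x => x / 8 / LL j = qB)).filter
          (fun x => X.Rr x i q), X.D.th X.D.f j (x / 8) * X.r x) ≤
        ∑ q ∈ (range (LL X.J)).filter (fun q => q * LL i / LL j = qB),
          (c0 * (2 * (kk : ℝ)) * (2 * zz / 2 ^ i)) *
            (X.sig i q * ∏ l ∈ Ico i j, X.D.ep X.D.f l (q * LL i / LL l)) := by
      apply Finset.sum_le_sum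
      intro q hq
      rw [Finset.mem_filter] at hq
      have e2 := mul_le_mul_of_nonneg_left (hin i hi q hq.2) (hsig i q hi'.1)
      have e3 := mul_le_mul_of_nonneg_left e2 hc.le
      refine e3.trans (le_of_eq ?_)
      ring
    refine e1.trans ?_
    rw [← Finset.mul_sum, h4 X hX i j qB hi'.1 hi'.2 hjJ]
    have e4 : c0 * (2 * (kk : ℝ)) ≤ 258 := by
      have := kk_c0
      linarith
    have e5 : 0 ≤ X.sig j qB := hsig j qB hj
    have e6 : (0 : ℝ) ≤ 2 * zz / 2 ^ i := by positivity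
    have e7 : c0 * (2 * (kk : ℝ)) * (2 * zz / 2 ^ i) ≤ 258 * (2 * zz / 2 ^ i) :=
      mul_le_mul_of_nonneg_right e4 e6
    refine (mul_le_mul_of_nonneg_right e7 e5).trans (le_of_eq ?_)
    ring
  refine (Finset.sum_le_sum hstep).trans ?_
  rw [← Finset.mul_sum]
  have e5 : 0 ≤ 516 * zz * X.sig j qB := mul_nonneg (by positivity) (hsig j qB hj)
  calc (516 * zz * X.sig j qB) * ∑ i ∈ Icc 1 j, (1 : ℝ) / 2 ^ i
      ≤ (516 * zz * X.sig j qB) * 1 := mul_le_mul_of_nonneg_left (sum_geo j) e5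
    _ = 516 * zz * X.sig j qB := mul_one _

end Pool.Agent.D9f
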