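import Pool.Agent.Lib.MP_d9c039_lc.F.SpecB

set_option autoImplicit false

/-!
# MP_d9c039_lc, the full statement: module KeyA (helper50)
-/

namespace Pool.Agent.D9f

open Finset

private theorem th_le_prod (h1 : S_Th) (h2 : S_ThEq) (F : Fz) (f : ℕ → ℝ) {i j q c : ℕ}
    (hi : 1 ≤ i) (hij : i ≤ j) (hc : c / LL i = q) :
    F.th f j c ≤ 2 * zz / 2 ^ i * ∏ l ∈ Ico i j, F.ep f l (q * LL i / LL l) := by
  have e1 : ∏ l ∈ Ico i j, F.ep f l (c / LL l) = ∏ l ∈ Ico i j, F.ep f l (q * LL i / LL l) := by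
    refine Finset.prod_congr rfl fun l hl => ?_
    rw [← hc, div_sub (Finset.mem_Ico.1 hl).1 c]
  rw [h2.2 F f i j c hi hij, e1]
  exact mul_le_mul_of_nonneg_right (h1 F f i c hi).2
    (Finset.prod_nonneg fun l _ => Fz.ep_nonneg F f l _)

theorem tKeyA (h1 : S_Th) (h2 : S_ThEq) (h3 : S_VisTh) (h4 : S_URle) (h5 : S_RI3) : S_KeyA := by
  intro X h i j q x hi hij hjJ hx hR hq
  obtain ⟨m, hm1, hm2, hm3, hv, -, hq'⟩ := hR
  obtain ⟨hr0, hr1, hr⟩ := h5 X h x hx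
  rcases hq' with hq' | hq'
  · have h6 := th_le_prod h1 h2 X.D.toFz X.D.f hi hij hq'.symm
    have h7 : X.D.th X.D.f j (x / 8) * X.r x ≤ X.D.th X.D.f j (x / 8) :=
      mul_le_of_le_one_right (h1 X.D.toFz X.D.f j (x / 8) (hi.trans hij)).1 hr1
    exact h7.trans h6
  · have h6 := th_le_prod h1 h2 X.D.toFz X.D.f hi hij hq'.symm
    have h8 : x / 8 / LL j = m / LL j := by
      rw [← hq, hq', div_sub hij m]
    have h9 := h3 X.D.toFz X.D.f X.J j (x / 8) m (X.r x) (hi.trans hij) hjJ h8 hv.2.2 (by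
      refine le_trans ?_ (hr m hm1 hm2 hm3 hv)
      refine mul_le_mul_of_nonneg_left (Real.exp_le_exp.2 (Finset.sum_le_sum fun l hl => ?_)) hr0
      have h10 := (h4 X.J X.en X.p X.D h.inv.toPre l (x / 8 / LL l) (mem_dif.1 hl).1.1).1
      exact min_le_min_right 0 (by linarith))
    rw [mul_comm]
    exact h9.trans h6

end Pool.Agent.D9f
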