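import Pool.Agent.Lib.MP_d9c039_lc.F.SpecB

set_option autoImplicit false

/-!
# MP_d9c039_lc, the full statement, module KeyB: the key bound, regrouping
-/

namespace Pool.Agent.D9f

open Finset

theorem tKeyB (h1 : S_ThEq) : S_KeyB := by
  intro X hX i j qB hi hij hj
  have hlt : ∀ x ∈ X.JJ, x / 8 / LL i < LL X.J := by
    intro x hx
    have h2 := hX.toOk0.lt (hX.adm x hx)
    exact lt_of_le_of_lt (Nat.div_le_self _ _) h2
  have e1 : ∀ q ∈ (range (LL X.J)).filter (fun q => q * LL i / LL j = qB),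
      X.sig i q * ∏ l ∈ Ico i j, X.D.ep X.D.f l (q * LL i / LL l) =
      ∑ x ∈ (X.JJ.filter (fun x => x / 8 / LL j = qB)).filter (fun x => x / 8 / LL i = q),
        X.D.th X.D.f j (x / 8) * X.del x := by
    intro q hq
    have hqB : q * LL i / LL j = qB := (Finset.mem_filter.1 hq).2
    have e2 : (X.JJ.filter (fun x => x / 8 / LL j = qB)).filter (fun x => x / 8 / LL i = q) =
        X.JJ.filter (fun x => x / 8 / LL i = q) := by
      ext x
      simp only [Finset.mem_filter]
      constructor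
      · rintro ⟨⟨h3, _⟩, h4⟩
        exact ⟨h3, h4⟩
      · rintro ⟨h3, h4⟩
        refine ⟨⟨h3, ?_⟩, h4⟩
        rw [← hqB, ← h4, div_sub hij]
    rw [e2]
    unfold CD.sig
    rw [Finset.sum_mul]
    refine Finset.sum_congr rfl fun x hx => ?_
    have hxq : x / 8 / LL i = q := (Finset.mem_filter.1 hx).2
    have e3 : ∏ l ∈ Ico i j, X.D.ep X.D.f l (q * LL i / LL l) =
        ∏ l ∈ Ico i j, X.D.ep X.D.f l (x / 8 / LL l) := by
      refine Finset.prod_congr rfl fun l hl => ?_
      rw [← hxq, div_sub (Finset.mem_Ico.1 hl).1]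
    rw [e3, h1.2 X.D.toFz X.D.f i j (x / 8) hi hij]
    ring
  rw [Finset.sum_congr rfl e1]
  unfold CD.sig
  refine Finset.sum_fiberwise_of_maps_to (g := fun x => x / 8 / LL i) ?_ _
  intro x hx
  obtain ⟨h3, h4⟩ := Finset.mem_filter.1 hx
  refine Finset.mem_filter.2 ⟨Finset.mem_range.2 (hlt x h3), ?_⟩
  rw [div_sub hij]
  exact h4

end Pool.Agent.D9f
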