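import Pool.Agent.Lib.MP_d9c039_lc.F.SpecG

set_option autoImplicit false

/-!
# MP_d9c039_lc, the full statement: module LG (from invariants to a good strategy)
-/

namespace Pool.Agent.D9f

open Finset
open Pool.Agent.D9 (cnt resp tabS)
open Pool.Agent.D9b (pendL drn plH LGood mList8 S_Plays S_Search S_Guess S_UM1 S_UM2 S_UM3 S_UC)
open Pool.Agent.D9c (mkH Enu)

/-- the history after the A-event `x` and the response `r` -/
private def appR (h : List (Bool × ℕ)) (x : ℕ) (r : Option ℕ) : List (Bool × ℕ) :=
  (r.toList).map (fun y => (true, y)) ++ (false, x) :: h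

/-- the property of a response -/
private def OkR (M : List ℕ) (I : List (Bool × ℕ) → Prop) (h : List (Bool × ℕ)) (x : ℕ)
    (r : Option ℕ) : Prop :=
  I (appR h x r) ∧ ∀ y, r = some y → y ∈ M ∧ (true, y) ∉ h

open Classical in
/-- the chosen response -/
private noncomputable def nx (M : List ℕ) (I : List (Bool × ℕ) → Prop) (h : List (Bool × ℕ))
    (x : ℕ) : Option ℕ :=
  if hh : ∃ r, OkR M I h x r then hh.choose else none

/-- the run along a play given newest first -/
private noncomputable def runR (M : List ℕ) (I : List (Bool × ℕ) → Prop) :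
    List ℕ → List (Bool × ℕ)
  | [] => []
  | x :: t => appR (runR M I t) x (nx M I (runR M I t) x)

/-- the strategy -/
private noncomputable def strat (M : List ℕ) (I : List (Bool × ℕ) → Prop) (p : List ℕ) :
    Option ℕ :=
  match p.reverse with
  | [] => none
  | x :: t => nx M I (runR M I t) x

private lemma nx_ok {S' : ℕ} {M : List ℕ} {I : List (Bool × ℕ) → Prop}
    (hs : ∀ h x, I h → x < S' → x ∉ plH h → I ((false, x) :: h) ∨
      ∃ y ∈ M, (true, y) ∉ h ∧ I ((true, y) :: (false, x) :: h))
    {h : List (Bool × ℕ)} {x : ℕ} (hI : I h) (hx : x < S') (hn : x ∉ plH h) :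
    OkR M I h x (nx M I h x) := by
  have h1 : ∃ r, OkR M I h x r := by
    rcases hs h x hI hx hn with h2 | ⟨y, hy, h3, h4⟩
    · exact ⟨none, h2, fun y hy => by cases hy⟩
    · refine ⟨some y, h4, fun z hz => ?_⟩
      cases hz
      exact ⟨hy, h3⟩
  unfold nx
  rw [dif_pos h1]
  exact h1.choose_spec

private lemma pl_app (h : List (Bool × ℕ)) (x : ℕ) (r : Option ℕ) :
    plH (appR h x r) = x :: plH h := by
  cases r with
  | none => rfl
  | some r => rfl

private lemma mk_app (h : List (Bool × ℕ)) (x : ℕ) (r : Option ℕ) :
    mkH (appR h x r) = r.toList ++ mkH h := by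
  cases r with
  | none => rfl
  | some r => rfl

private lemma pl_run (M : List ℕ) (I : List (Bool × ℕ) → Prop) (q : List ℕ) :
    plH (runR M I q) = q := by
  induction q with
  | nil => rfl
  | cons x t ih => rw [runR, pl_app, ih]

private lemma I_run {S' : ℕ} {M : List ℕ} {I : List (Bool × ℕ) → Prop} (h0 : I [])
    (hs : ∀ h x, I h → x < S' → x ∉ plH h → I ((false, x) :: h) ∨
      ∃ y ∈ M, (true, y) ∉ h ∧ I ((true, y) :: (false, x) :: h))
    (q : List ℕ) (hq : q.Nodup) (hlt : ∀ x ∈ q, x < S') : I (runR M I q) := by
  induction q with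
  | nil => exact h0
  | cons x t ih =>
    have ht := ih (List.nodup_cons.1 hq).2 (fun y hy => hlt y (List.mem_cons_of_mem _ hy))
    exact (nx_ok hs ht (hlt x List.mem_cons_self)
      (by rw [pl_run]; exact (List.nodup_cons.1 hq).1)).1

private lemma resp_append (σ : List ℕ → Option ℕ) (p : List ℕ) (x : ℕ) :
    resp σ (p ++ [x]) = resp σ p ++ (σ (p ++ [x])).toList := by
  unfold resp
  rw [List.length_append, List.length_singleton, List.range_succ, List.filterMap_append]
  congr 1
  · apply List.filterMap_congr
    intro i hi
    rw [List.mem_range] at hi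
    rw [List.take_append_of_le_length (by omega)]
  · have : (p ++ [x]).take (p.length + 1) = p ++ [x] := by
      apply List.take_of_length_le; simp
    simp only [List.filterMap_cons, List.filterMap_nil, this]
    cases σ (p ++ [x]) <;> simp

private lemma strat_append (M : List ℕ) (I : List (Bool × ℕ) → Prop) (p : List ℕ) (x : ℕ) :
    strat M I (p ++ [x]) = nx M I (runR M I p.reverse) x := by
  unfold strat
  simp [List.reverse_append]

private lemma resp_run (M : List ℕ) (I : List (Bool × ℕ) → Prop) (p : List ℕ) :
    resp (strat M I) p = (mkH (runR M I p.reverse)).reverse := by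
  induction p using List.reverseRecOn with
  | nil => rfl
  | append_singleton p x ih =>
    rw [resp_append, ih, strat_append, List.reverse_append]
    simp only [List.reverse_singleton, List.singleton_append, runR]
    rw [mk_app, List.reverse_append]
    congr 1
    cases nx M I (runR M I p.reverse) x <;> simp

private lemma run_suffix (M : List ℕ) (I : List (Bool × ℕ) → Prop) (b a : List ℕ) :
    ∃ B, runR M I (b ++ a) = B ++ runR M I a := by
  induction b with
  | nil => exact ⟨[], rfl⟩
  | cons x t ih =>
    obtain ⟨B, hB⟩ := ih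
    rw [List.cons_append, runR, appR, hB]
    exact ⟨((nx M I (B ++ runR M I a) x).toList).map (fun y => (true, y)) ++ (false, x) :: B,
      by simp⟩

private lemma cnt_rev (L : List ℕ) (n : ℕ) : cnt L.reverse n = cnt L n := by
  unfold Pool.Agent.D9.cnt
  rw [List.countP_reverse]

theorem tLG : S_LG := by
  intro S' M C I h0 hs hC hdr
  refine ⟨strat M I, ?_⟩
  intro p hp hlt
  constructor
  · intro y hy hne
    obtain ⟨p', x, rfl⟩ : ∃ p' x, p = p' ++ [x] := by
      rcases List.eq_nil_or_concat p with h | ⟨p', x, h⟩
      · exact absurd h hne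
      · exact ⟨p', x, by simpa using h⟩
    have hp' : p'.Nodup := (List.nodup_append.1 hp).1
    have hlt' : ∀ z ∈ p', z < S' := fun z hz => hlt z (List.mem_append_left _ hz)
    have hI := I_run h0 hs p'.reverse (List.nodup_reverse.2 hp')
      (fun x hx => hlt' x (List.mem_reverse.1 hx))
    have hxm : x ∉ plH (runR M I p'.reverse) := by
      rw [pl_run, List.mem_reverse]
      intro hx
      exact (List.nodup_append.1 hp).2.2 x hx x (by simp) rfl
    have hxl : x < S' := hlt x (by simp)
    have hval := nx_ok hs hI hxl hxm
    rw [strat_append] at hy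
    obtain ⟨h1, h2⟩ := hval.2 y hy
    refine ⟨h1, ?_⟩
    have htake : (p' ++ [x]).take ((p' ++ [x]).length - 1) = p' := by
      simp
    rw [htake, resp_run, List.mem_reverse, Pool.Agent.D9c.mem_mkH]
    exact h2
  · intro i hi
    have hrev : p.reverse = (p.drop i).reverse ++ (p.take i).reverse := by
      rw [← List.reverse_append, List.take_append_drop]
    obtain ⟨B, hB⟩ := run_suffix M I (p.drop i).reverse (p.take i).reverse
    rw [← hrev] at hB
    have hI := I_run h0 hs p.reverse (List.nodup_reverse.2 hp)
      (fun x hx => hlt x (List.mem_reverse.1 hx))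
    have hm : resp (strat M I) p = (mkH (runR M I p.reverse)).reverse := resp_run M I p
    have hm' : resp (strat M I) (p.take i) = (mkH (runR M I (p.take i).reverse)).reverse :=
      resp_run M I (p.take i)
    have hl : plH (runR M I p.reverse) = p.reverse := pl_run M I _
    have hl' : plH (runR M I (p.take i).reverse) = (p.take i).reverse := pl_run M I _
    constructor
    · intro e he h
      rw [hm, hm', cnt_rev, cnt_rev, hB] at h
      have h1 := Pool.Agent.D9c.new_pend B (runR M I (p.take i).reverse) e.1 h.symm
      rw [← hB, hl, hl', cnt_rev, cnt_rev] at h1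
      have h2 := hC _ hI e he
      omega
    · intro n hn h
      have h3 : cnt (plH (B ++ runR M I (p.take i).reverse)) n =
          cnt (plH (runR M I (p.take i).reverse)) n := by
        rw [← hB, hl, hl', cnt_rev, cnt_rev]
        exact h.symm
      have h1 := Pool.Agent.D9c.new_drn B (runR M I (p.take i).reverse) n h3
      rw [← hB] at h1
      rw [hm, hm', cnt_rev, cnt_rev]
      have h2 := hdr _ hI n
      omega

end Pool.Agent.D9f
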