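import Pool.Agent.Lib.MP_d9c039_lc.F.SpecA

set_option autoImplicit false

/-!
# MP_d9c039_lc, the full statement: module Lip (Lipschitz bound, locality, monotonicity)
-/

namespace Pool.Agent.D9f

open Finset

private theorem lip1 (h1 : S_Conv) (h2 : S_Th) (F : Fz) (f f' : ℕ → ℝ) (j q : ℕ) (hj : 1 ≤ j) :
    F.U f' j q - F.U f j q ≤ 2 * zz / 2 ^ j * ∑ c ∈ blk j q, max (f' c - f c) 0 := by
  have a1 := h1 F f' f j q hj
  have a2 : ∑ c ∈ blk j q, F.th f' j c * (f' c - f c) ≤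
      ∑ c ∈ blk j q, 2 * zz / 2 ^ j * max (f' c - f c) 0 := by
    refine Finset.sum_le_sum fun c _ => ?_
    obtain ⟨b1, b2⟩ := h2 F f' j c hj
    calc F.th f' j c * (f' c - f c) ≤ F.th f' j c * max (f' c - f c) 0 :=
          mul_le_mul_of_nonneg_left (le_max_left _ _) b1
      _ ≤ 2 * zz / 2 ^ j * max (f' c - f c) 0 :=
          mul_le_mul_of_nonneg_right b2 (le_max_right _ _)
  rw [← Finset.mul_sum] at a2
  have a3 : ∑ c ∈ blk j q, F.th f' j c * (f c - f' c) =
      -∑ c ∈ blk j q, F.th f' j c * (f' c - f c) := by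
    rw [← Finset.sum_neg_distrib]
    refine Finset.sum_congr rfl fun c _ => ?_
    ring
  rw [a3] at a1
  linarith

private theorem mono (h1 : S_Conv) (h2 : S_Th) (F : Fz) (f f' : ℕ → ℝ) (j q : ℕ)
    (h : ∀ c ∈ blk j q, f c ≤ f' c) : F.U f j q ≤ F.U f' j q := by
  rcases Nat.eq_zero_or_pos j with hj | hj
  · subst hj
    exact le_rfl
  · have a1 := lip1 h1 h2 F f' f j q hj
    have a2 : ∑ c ∈ blk j q, max (f c - f' c) 0 = 0 :=
      Finset.sum_eq_zero fun c hc => max_eq_right (sub_nonpos.mpr (h c hc))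
    rw [a2, mul_zero] at a1
    linarith

theorem tLip (h1 : S_Conv) (h2 : S_Th) : S_Lip := by
  refine ⟨fun F f f' j q hj => lip1 h1 h2 F f f' j q hj, fun F f f' j q h => ?_,
    fun F f f' j q h => mono h1 h2 F f f' j q h⟩
  exact le_antisymm (mono h1 h2 F f f' j q fun c hc => (h c hc).le)
    (mono h1 h2 F f' f j q fun c hc => (h c hc).ge)

end Pool.Agent.D9f
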