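import Pool.Agent.Lib.MP_d9c039_lc.F.SpecA

set_option autoImplicit false

/-!
# MP_d9c039_lc, the full statement, module Low: lowering `p` keeps the invariants (helper53)
-/

namespace Pool.Agent.D9f

open Finset

private theorem low_PP {en : Finset ℕ} {p p' : ℕ → ℕ} (h : ∀ x ∈ en, p' x ≤ p x) (n : ℕ) :
    PP en p' n ⊆ PP en p n := by
  intro x hx
  rw [mem_PP] at hx ⊢
  exact ⟨hx.1, hx.2.1, hx.2.2.trans (h x hx.1)⟩

private theorem low_fS (pk : Finset ℕ) {e : ℕ → ℝ} (he : ∀ x, e x ≤ E0) {S S' : Finset ℕ}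
    (h : S ⊆ S') (c : ℕ) : fS pk e S c ≤ fS pk e S' c := by
  unfold fS
  split_ifs with hc
  · exact le_rfl
  · refine Finset.sum_le_sum fun x _ => ?_
    by_cases h1 : x ∈ S
    · rw [if_pos h1, if_pos (h h1)]
    · rw [if_neg h1]
      split_ifs
      · exact he x
      · exact le_rfl

theorem tLow (h1 : S_Lip) : S_Low := by
  intro J en p p' D hD hp
  have hUR : ∀ i q, D.UR en p' i q ≤ D.UR en p i q := by
    intro i q
    unfold Dat.UR
    exact h1.2.2 D.toFz _ _ i q fun c _ => low_fS D.pk (fun x => (hD.e0 x).2) (low_PP hp _) c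
  have hlam : ∀ i q, D.lamR en p' i q ≤ D.lamR en p i q := by
    intro i q
    unfold Dat.lamR
    exact min_le_min (by linarith [hUR i q]) le_rfl
  have hrho : ∀ x, 0 ≤ D.rho x := by
    intro x
    unfold Dat.rho
    exact div_nonneg (by linarith [(hD.e0 x).2]) c0_pos.le
  refine ⟨hD.enlt, ?_, ?_, hD.e0, hD.fresh, ?_, hD.neg, hD.kapge, ?_, ?_, hD.inj, hD.spc⟩
  · intro x hx
    exact (hp x hx).trans (hD.ple x hx)
  · intro n
    exact (Finset.card_le_card (low_PP hp n)).trans (hD.cntw n)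
  · intro x hx h
    exact hD.alive x hx (lt_of_lt_of_le h (hp x hx))
  · intro x hx h m hm1 hm2 hv
    refine le_trans ?_ (hD.i3 x hx (lt_of_lt_of_le h (hp x hx)) m hm1
      (lt_of_lt_of_le hm2 (hp x hx)) hv)
    exact mul_le_mul_of_nonneg_left
      (Real.exp_le_exp.mpr (Finset.sum_le_sum fun i _ => hlam i _)) (hrho x)
  · intro v hv
    obtain ⟨a1, a2, a3, a4, a5, a6, a7⟩ := hD.i4 v hv
    exact ⟨a1, a2, a3, a4, a5, a6, (hp _ a2).trans a7⟩

end Pool.Agent.D9f
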