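import Pool.Agent.Lib.MP_d9c039_lc.F.SpecB

set_option autoImplicit false

/-!
# MP_d9c039_lc, the full statement: module P1 (lower bound for the new potentials)
-/

namespace Pool.Agent.D9f

open Finset

theorem tP1 (h1 : S_Conv) (h2 : S_Th) (h3 : S_Pay) (h4 : S_RI3) (h5 : S_KBd) (h6 : S_Cell) :
    S_P1 := by
  intro X h i q hi _
  have hc := h1 X.D.toFz X.D.f X.D1.f i q hi
  have hdel : ∀ x, 0 ≤ (if x ∈ X.JJ then X.del x else 0) := by
    intro x
    split_ifs with hx
    · exact (h3 X h x hx).1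
    · exact le_rfl
  have hdel2 : ∀ x, X.del x = (if x ∈ X.JJ then X.del x else 0) := by
    intro x
    by_cases hx : x ∈ X.JJ
    · rw [if_pos hx]
    · rw [if_neg hx, CD.del, if_neg hx]
  have key : -X.sig i q ≤ ∑ c ∈ blk i q, X.D.th X.D.f i c * (X.D1.f c - X.D.f c) := by
    rw [CD.sig, ← sum_cells i q X.JJ (X.D.th X.D.f i) X.del, ← Finset.sum_neg_distrib]
    apply Finset.sum_le_sum
    intro c _
    rw [← mul_neg]
    apply mul_le_mul_of_nonneg_left _ (h2 X.D.toFz X.D.f i c hi).1
    have hs : 0 ≤ ∑ x ∈ Ico (8 * c) (8 * c + 8), (if x ∈ X.JJ then X.del x else 0) :=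
      Finset.sum_nonneg (fun x _ => hdel x)
    obtain ⟨c1, c2, c3⟩ := h6 X h
    by_cases hpk : c ∈ X.D.pk
    · rw [c1 c hpk, sub_self]
      linarith
    · by_cases hy : c = X.yh
      · rw [hy] at hs ⊢
        rw [c2.1]
        linarith [c2.2.2]
      · rw [c3 c hpk hy, ← Finset.sum_neg_distrib]
        apply Finset.sum_le_sum
        intro x _
        rw [← hdel2 x]
        have hr : 0 ≤ (if x ∈ X.T then c0 * (X.r x * X.K x) else 0) := by
          split_ifs with hx
          · exact mul_nonneg c0_pos.le (mul_nonneg (h4 X h x hx).1 ((h5 X h).1 x).1)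
          · exact le_rfl
        linarith
  linarith

end Pool.Agent.D9f
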