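import Pool.Agent.Lib.MP_d9c039_lc.F.SpecB

set_option autoImplicit false

/-!
# MP_d9c039_lc, the full statement, module P2: the right potentials
-/

namespace Pool.Agent.D9f

open Finset

private theorem num1 : (129 : ℝ) + 2064 * zz ≤ 130 := by
  have hz : zz = 1 / 1048576 := by unfold zz; norm_num
  rw [hz]
  norm_num

private theorem num2 {s : ℝ} (hs : 0 ≤ s) : 1.001 * (516 * zz * s) ≤ s := by
  have hz : zz = 1 / 1048576 := by unfold zz; norm_num
  rw [hz]
  linarith

private theorem card_real (S : Finset ℕ) (a : ℝ) :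
    ∑ _x ∈ S, a = a * (S.card : ℝ) := by
  rw [Finset.sum_const, nsmul_eq_mul, mul_comm]

/-- the sum over a block of sums over the cells of a nonnegative function -/
private theorem sum_cells_le (j q : ℕ) (S : Finset ℕ) (g : ℕ → ℝ) (hg : ∀ x ∈ S, 0 ≤ g x) :
    ∑ c ∈ blk j q, ∑ x ∈ Ico (8 * c) (8 * c + 8), (if x ∈ S then g x else 0) ≤
      ∑ x ∈ S, g x := by
  have h1 := sum_cells j q S (fun _ => 1) g
  have h2 : ∑ c ∈ blk j q, ∑ x ∈ Ico (8 * c) (8 * c + 8), (if x ∈ S then g x else 0) =
      ∑ x ∈ S.filter (fun x => x / 8 / LL j = q), g x := by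
    refine Eq.trans ?_ (h1.trans ?_)
    · exact Finset.sum_congr rfl (fun c _ => (one_mul _).symm)
    · exact Finset.sum_congr rfl (fun x _ => one_mul _)
  rw [h2]
  exact Finset.sum_le_sum_of_subset_of_nonneg (Finset.filter_subset _ _)
    (fun x hx _ => hg x hx)

theorem tP2 (h1 : S_Conv) (h2 : S_Th) (h3 : S_Lip) (h4 : S_ThCmp) (h5 : S_Pay) (h6 : S_RI3)
    (h7 : S_Sig) (h8 : S_KBd) (h9 : S_EDiff) (h10 : S_KEq) (h11 : S_Key) : S_P2 := by
  classical
  intro X h x hx m hxm hmy hmp i hi hiJ hne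
  obtain ⟨qB, hqB⟩ : ∃ qB, qB = x / 8 / LL i := ⟨_, rfl⟩
  rw [← hqB] at hne ⊢
  obtain ⟨n, hn⟩ : ∃ n, n = 8 * ((qB + 1) * LL i) := ⟨_, rfl⟩
  -- the block ends before `m`
  have hend : (qB + 1) * LL i ≤ m := by
    have a1 : qB ≤ m / LL i := by
      rw [hqB]
      exact Nat.div_le_div_right hxm.le
    have a2 : qB + 1 ≤ m / LL i := Nat.lt_of_le_of_ne a1 hne
    exact (Nat.mul_le_mul_right _ a2).trans (Nat.div_mul_le_self m (LL i))
  have hnm : n ≤ 8 * m := by
    rw [hn]
    exact Nat.mul_le_mul_left 8 hend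
  have hPP : PP X.en X.p1 n = PP X.en X.p n := by
    ext z
    rw [mem_PP, mem_PP]
    unfold CD.p1
    constructor
    · rintro ⟨a1, a2, a3⟩
      exact ⟨a1, a2, a3.trans (min_le_left _ _)⟩
    · rintro ⟨a1, a2, a3⟩
      refine ⟨a1, a2, le_min a3 ?_⟩
      omega
  obtain ⟨S, hS⟩ : ∃ S, S = PP X.en X.p n := ⟨_, rfl⟩
  obtain ⟨F, hF⟩ : ∃ F, F = fS X.D.pk X.D.e S := ⟨_, rfl⟩
  obtain ⟨F', hF'⟩ : ∃ F', F' = fS (insert X.yh X.D.pk) X.e' S := ⟨_, rfl⟩
  have hUR : X.D.UR X.en X.p i qB = X.D.U F i qB := by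
    rw [hF, hS, hn]
    rfl
  have hUR' : X.D1.UR X.en X.p1 i qB = X.D.U F' i qB := by
    rw [hF', hS, ← hPP, hn]
    rfl
  rw [hUR, hUR']
  -- the cells of the block
  have hcy : ∀ c, c / LL i = qB → c < X.yh := by
    intro c hc
    have a1 : c < (qB + 1) * LL i := by
      have := (Finset.mem_Ico.mp (show c ∈ Ico (qB * LL i) ((qB + 1) * LL i) from
        mem_blk.mpr hc)).2
      exact this
    omega
  have hpk' : ∀ c, c / LL i = qB → (c ∈ insert X.yh X.D.pk ↔ c ∈ X.D.pk) := by
    intro c hc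
    rw [Finset.mem_insert]
    constructor
    · rintro (a | a)
      · have := hcy c hc
        omega
      · exact a
    · exact fun a => Or.inr a
  -- signs
  have hdel : ∀ z, 0 ≤ X.del z := by
    intro z
    by_cases hz : z ∈ X.JJ
    · exact (h5 X h z hz).1
    · unfold CD.del
      rw [if_neg hz]
  have hK : ∀ z, 0 ≤ X.K z := fun z => ((h8 X h).1 z).1
  have hr : ∀ z ∈ X.T, 0 ≤ X.r z ∧ X.r z ≤ 1 := fun z hz => ⟨(h6 X h z hz).1, (h6 X h z hz).2.1⟩
  have hrK : ∀ z ∈ X.T, 0 ≤ c0 * (X.r z * X.K z) := fun z hz =>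
    mul_nonneg c0_pos.le (mul_nonneg (hr z hz).1 (hK z))
  have hrK1 : ∀ z ∈ X.T, c0 * (X.r z * X.K z) ≤ c0 * X.K z := by
    intro z hz
    apply mul_le_mul_of_nonneg_left _ c0_pos.le
    have := mul_le_mul_of_nonneg_right (hr z hz).2 (hK z)
    linarith
  have he : ∀ z, X.e' z - X.D.e z ≤ (if z ∈ X.T then c0 * (X.r z * X.K z) else 0) := by
    intro z
    have a1 := (h9 X h z).1
    have a2 := hdel z
    linarith
  have hSal : ∀ z ∈ S, E0 - X.D.e z ≤ c0 := by
    intro z hz
    rw [hS] at hz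
    obtain ⟨b1, b2, b3⟩ := mem_PP.mp hz
    have b4 := h.inv.alive z b1 (lt_of_lt_of_le b2 b3)
    rw [E0_eq]
    linarith
  have hScard : c0 * (S.card : ℝ) ≤ 129 := by
    have a1 : (S.card : ℝ) ≤ (kk : ℝ) := by
      rw [hS]
      exact Nat.cast_le.mpr (h.inv.cntw n)
    have a2 := mul_le_mul_of_nonneg_left a1 c0_pos.le
    have a3 := kk_c0
    linarith
  have hth0 : ∀ g c, 0 ≤ X.D.th g i c := fun g c => (h2 X.D.toFz g i c hi).1
  -- comparison of the prices
  have hcell1 : ∀ c, c / LL i = qB → max (F' c - X.D.f c) 0 ≤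
      ∑ z ∈ Ico (8 * c) (8 * c + 8), (if z ∈ S then c0 else 0) +
        ∑ z ∈ Ico (8 * c) (8 * c + 8), (if z ∈ X.T then c0 * X.K z else 0) := by
    intro c hc
    have n1 : 0 ≤ ∑ z ∈ Ico (8 * c) (8 * c + 8), (if z ∈ S then c0 else 0) := by
      apply Finset.sum_nonneg
      intro z _
      split_ifs
      · exact c0_pos.le
      · exact le_rfl
    have n2 : 0 ≤ ∑ z ∈ Ico (8 * c) (8 * c + 8), (if z ∈ X.T then c0 * X.K z else 0) := by
      apply Finset.sum_nonneg
      intro z _
      split_ifs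
      · exact mul_nonneg c0_pos.le (hK z)
      · exact le_rfl
    apply max_le _ (add_nonneg n1 n2)
    by_cases hcp : c ∈ X.D.pk
    · have a1 : F' c = 1 := by
        rw [hF']
        unfold fS
        rw [if_pos ((hpk' c hc).mpr hcp)]
      have a2 : X.D.f c = 1 := by
        unfold Dat.f fS
        rw [if_pos hcp]
      rw [a1, a2, sub_self]
      exact add_nonneg n1 n2
    · have a1 : F' c = ∑ z ∈ Ico (8 * c) (8 * c + 8), (if z ∈ S then E0 else X.e' z) := by
        rw [hF']
        unfold fS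
        rw [if_neg (fun hh => hcp ((hpk' c hc).mp hh))]
      have a2 : X.D.f c = ∑ z ∈ Ico (8 * c) (8 * c + 8), X.D.e z := by
        unfold Dat.f fS
        rw [if_neg hcp]
        apply Finset.sum_congr rfl
        intro z _
        rw [if_neg (Finset.notMem_empty z)]
      rw [a1, a2, ← Finset.sum_sub_distrib, ← Finset.sum_add_distrib]
      apply Finset.sum_le_sum
      intro z _
      have b1 : 0 ≤ (if z ∈ X.T then c0 * X.K z else 0) := by
        split_ifs
        · exact mul_nonneg c0_pos.le (hK z)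
        · exact le_rfl
      by_cases hzS : z ∈ S
      · rw [if_pos hzS, if_pos hzS]
        have := hSal z hzS
        linarith
      · rw [if_neg hzS, if_neg hzS, zero_add]
        refine (he z).trans ?_
        split_ifs with hzT
        · exact hrK1 z hzT
        · exact le_rfl
  have hcmp : ∀ c, c / LL i = qB → X.D.th F' i c ≤ 1.001 * X.D.th X.D.f i c := by
    intro c hc
    have a1 := h4 X.D.toFz X.D.f F' i c 130 hi (by norm_num) (by
      intro l hl hli
      have b1 := h3.1 X.D.toFz X.D.f F' l (c / LL l) hl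
      refine b1.trans ?_
      apply mul_le_mul_of_nonneg_left _ (by have := zz_pos; positivity)
      have b2 : ∑ c' ∈ blk l (c / LL l), max (F' c' - X.D.f c') 0 ≤
          ∑ c' ∈ blk l (c / LL l),
            (∑ z ∈ Ico (8 * c') (8 * c' + 8), (if z ∈ S then c0 else 0) +
              ∑ z ∈ Ico (8 * c') (8 * c' + 8), (if z ∈ X.T then c0 * X.K z else 0)) := by
        apply Finset.sum_le_sum
        intro c' hc'
        apply hcell1
        rw [← hc]
        exact div_up hli.le (mem_blk.mp hc')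
      refine b2.trans ?_
      rw [Finset.sum_add_distrib]
      have b3 := sum_cells_le l (c / LL l) S (fun _ => c0) (fun _ _ => c0_pos.le)
      have b4 := sum_cells_le l (c / LL l) X.T (fun z => c0 * X.K z)
        (fun z _ => mul_nonneg c0_pos.le (hK z))
      rw [card_real] at b3
      rw [← Finset.mul_sum] at b4
      have b5 := (h8 X h).2.1
      have b6 := num1
      linarith)
    have a2 : Real.exp (2 * zz * 130) ≤ 1.001 := by
      have a3 := exp_zz_le (a := 260) (by norm_num)
      have a4 : (2 : ℝ) * zz * 130 = 260 * zz := by ring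
      rw [a4]
      exact a3
    exact a1.trans (mul_le_mul_of_nonneg_right a2 (hth0 _ c))
  -- the change of the cells
  obtain ⟨TS, hTS⟩ : ∃ TS, TS = X.T \ S := ⟨_, rfl⟩
  have hcell2 : ∀ c, c / LL i = qB → F' c - F c ≤
      ∑ z ∈ Ico (8 * c) (8 * c + 8), (if z ∈ TS then c0 * (X.r z * X.K z) else 0) := by
    intro c hc
    have n1 : 0 ≤ ∑ z ∈ Ico (8 * c) (8 * c + 8),
        (if z ∈ TS then c0 * (X.r z * X.K z) else 0) := by
      apply Finset.sum_nonneg
      intro z _
      split_ifs with hz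
      · rw [hTS, Finset.mem_sdiff] at hz
        exact hrK z hz.1
      · exact le_rfl
    by_cases hcp : c ∈ X.D.pk
    · have a1 : F' c = 1 := by
        rw [hF']
        unfold fS
        rw [if_pos ((hpk' c hc).mpr hcp)]
      have a2 : F c = 1 := by
        rw [hF]
        unfold fS
        rw [if_pos hcp]
      rw [a1, a2, sub_self]
      exact n1
    · have a1 : F' c = ∑ z ∈ Ico (8 * c) (8 * c + 8), (if z ∈ S then E0 else X.e' z) := by
        rw [hF']
        unfold fS
        rw [if_neg (fun hh => hcp ((hpk' c hc).mp hh))]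
      have a2 : F c = ∑ z ∈ Ico (8 * c) (8 * c + 8), (if z ∈ S then E0 else X.D.e z) := by
        rw [hF]
        unfold fS
        rw [if_neg hcp]
      rw [a1, a2, ← Finset.sum_sub_distrib]
      apply Finset.sum_le_sum
      intro z _
      by_cases hzS : z ∈ S
      · have hz2 : z ∉ TS := by
          rw [hTS, Finset.mem_sdiff]
          exact fun hh => hh.2 hzS
        rw [if_pos hzS, if_pos hzS, if_neg hz2, sub_self]
      · rw [if_neg hzS, if_neg hzS]
        refine (he z).trans ?_
        by_cases hzT : z ∈ X.T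
        · have hz2 : z ∈ TS := by
            rw [hTS, Finset.mem_sdiff]
            exact ⟨hzT, hzS⟩
          rw [if_pos hzT, if_pos hz2]
        · have hz2 : z ∉ TS := by
            rw [hTS, Finset.mem_sdiff]
            exact fun hh => hzT hh.1
          rw [if_neg hzT, if_neg hz2]
  -- the sum
  have hconv := h1 X.D.toFz F' F i qB hi
  have hflip : ∑ c ∈ blk i qB, X.D.th F' i c * (F c - F' c) =
      -∑ c ∈ blk i qB, X.D.th F' i c * (F' c - F c) := by
    rw [← Finset.sum_neg_distrib]
    apply Finset.sum_congr rfl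
    intro c _
    ring
  rw [hflip] at hconv
  have hsum : ∑ c ∈ blk i qB, X.D.th F' i c * (F' c - F c) ≤
      ∑ c ∈ blk i qB, 1.001 * (X.D.th X.D.f i c *
        ∑ z ∈ Ico (8 * c) (8 * c + 8), (if z ∈ TS then c0 * (X.r z * X.K z) else 0)) := by
    apply Finset.sum_le_sum
    intro c hc
    have hc' := mem_blk.mp hc
    have n1 : 0 ≤ ∑ z ∈ Ico (8 * c) (8 * c + 8),
        (if z ∈ TS then c0 * (X.r z * X.K z) else 0) := by
      apply Finset.sum_nonneg
      intro z _
      split_ifs with hz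
      · rw [hTS, Finset.mem_sdiff] at hz
        exact hrK z hz.1
      · exact le_rfl
    have b1 := mul_le_mul_of_nonneg_left (hcell2 c hc') (hth0 F' c)
    have b2 := mul_le_mul_of_nonneg_right (hcmp c hc') n1
    linarith
  rw [← Finset.mul_sum, sum_cells] at hsum
  have hsum2 : ∑ z ∈ TS.filter (fun z => z / 8 / LL i = qB),
      X.D.th X.D.f i (z / 8) * (c0 * (X.r z * X.K z)) ≤ 516 * zz * X.sig i qB := by
    refine le_trans ?_ (h11 X h i qB hi hiJ)
    have e1 : ∑ z ∈ TS.filter (fun z => z / 8 / LL i = qB),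
        X.D.th X.D.f i (z / 8) * (c0 * (X.r z * X.K z)) =
        ∑ z ∈ TS.filter (fun z => z / 8 / LL i = qB),
          X.D.th X.D.f i (z / 8) * (c0 * (X.r z * X.KB i qB z)) := by
      apply Finset.sum_congr rfl
      intro z hz
      rw [Finset.mem_filter, hTS, Finset.mem_sdiff] at hz
      obtain ⟨⟨b1, b2⟩, b3⟩ := hz
      have b4 := CD.mem_T.mp b1
      have b5 : z < n := by
        have b6 : z / 8 < (qB + 1) * LL i :=
          (Finset.mem_Ico.mp (show z / 8 ∈ Ico (qB * LL i) ((qB + 1) * LL i) from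
            mem_blk.mpr b3)).2
        omega
      have b6 : X.p z < n := by
        by_contra hcon
        apply b2
        rw [hS, mem_PP]
        exact ⟨b4.1, b5, not_lt.mp hcon⟩
      rw [(h10 X h z b1).2 i qB hi hiJ b3 (by rw [← hn]; exact b6)]
    rw [e1]
    apply Finset.sum_le_sum_of_subset_of_nonneg
    · apply Finset.filter_subset_filter
      rw [hTS]
      exact Finset.sdiff_subset
    · intro z hz _
      rw [Finset.mem_filter] at hz
      apply mul_nonneg (hth0 _ _)
      apply mul_nonneg c0_pos.le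
      exact mul_nonneg (hr z hz.1).1 ((h8 X h).2.2 i qB z)
  have hsig : 0 ≤ X.sig i qB := (h7 X h).1 i qB hi
  have hfin := num2 hsig
  have hsum3 := mul_le_mul_of_nonneg_left hsum2 (show (0 : ℝ) ≤ 1.001 by norm_num)
  linarith

end Pool.Agent.D9f
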