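import Pool.Agent.Lib.MP_d9c039_lc.F.SpecA

set_option autoImplicit false

/-!
# MP_d9c039_lc, the full statement: the parameters
-/

namespace Pool.Agent.D9f

open Finset

private theorem LLpos' (j : ℕ) : (0 : ℝ) < (LL j : ℝ) := Nat.cast_pos.2 (LL_pos j)

private theorem logLL_ge (j : ℕ) : 40 * Real.log 2 ≤ Real.log (LL (j + 1)) := by
  have h1 : ((2 : ℝ) ^ 40) ≤ (LL (j + 1) : ℝ) := by
    have := LL_ge j
    calc ((2 : ℝ) ^ 40) = ((2 ^ 40 : ℕ) : ℝ) := (Nat.cast_pow 2 40).symm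
      _ ≤ _ := Nat.cast_le.2 this
  have h2 := Real.log_le_log (by positivity) h1
  rw [Real.log_pow] at h2
  push_cast at h2
  exact h2

private theorem logLL_succ (j : ℕ) : Real.log (LL (j + 2)) = 4 * Real.log (LL (j + 1)) := by
  rw [LL_pow4, Nat.cast_pow, Real.log_pow]
  push_cast
  rfl

private theorem logNN (j : ℕ) : Real.log (NN (j + 1)) = 3 * Real.log (LL (j + 1)) := by
  have h1 : (LL (j + 2) : ℝ) = (LL (j + 1) : ℝ) * (NN (j + 1) : ℝ) := by
    rw [LL_succ (j + 1), Nat.cast_mul]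
  have h2 := Real.log_mul (LLpos' (j + 1)).ne' (Nat.cast_pos.2 (NN_pos (j + 1)) : (0 : ℝ) < _).ne'
  rw [← h1, logLL_succ] at h2
  linarith

private theorem one_step (j : ℕ) (h : 6 * Real.log (LL (j + 1)) ≤ aa (j + 1)) :
    6 * Real.log (LL (j + 2)) ≤ aa (j + 2) := by
  have h1 : aa (j + 2) = 16 * sf (aa (j + 1) - Real.log (NN (j + 1)) - gg (j + 1)) - 1 / 2 := rfl
  have h2 := logLL_ge j
  have h3 := Real.log_two_gt_d9
  have h4 := gg_le (j + 1)
  have h5 := logNN j
  have h6 : 0 < aa (j + 1) - Real.log (NN (j + 1)) - gg (j + 1) := by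
    rw [h5]
    norm_num at h4
    linarith
  have h7 : sf (aa (j + 1) - Real.log (NN (j + 1)) - gg (j + 1)) =
      (1 + (aa (j + 1) - Real.log (NN (j + 1)) - gg (j + 1))) / 2 := by
    unfold sf
    rw [if_neg (not_le.2 h6)]
  rw [h1, h7, h5, logLL_succ]
  norm_num at h4
  linarith

theorem tPar : S_Par := by
  have h0 : ∀ j, 6 * Real.log (LL (j + 1)) ≤ aa (j + 1) := by
    intro j
    induction j with
    | zero =>
      have h1 : LL 1 = 2 ^ 40 := by
        show 2 ^ (40 * 4 ^ 0) = 2 ^ 40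
        norm_num
      have h2 : aa 1 = 2 ^ 9 - 1 / 2 ^ 17 := rfl
      rw [zero_add, h1, h2, Nat.cast_pow, Real.log_pow]
      have h3 := Real.log_two_lt_d9
      push_cast
      norm_num
      linarith
    | succ j ih => exact one_step j ih
  refine ⟨h0, fun j => ?_⟩
  have h1 := h0 j
  have h2 := logLL_ge j
  have h3 := Real.log_two_gt_d9
  have h4 := gg_le (j + 1)
  norm_num at h4
  linarith

end Pool.Agent.D9f
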