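import Pool.Agent.Lib.MP_d9c039_lc.F.SpecB

set_option autoImplicit false

/-!
# MP_d9c039_lc, the full statement, module Pay: the payments (helper95)
-/

namespace Pool.Agent.D9f

open Finset

private theorem lamR_bd (h2 : S_URle) {J : ℕ} {en : Finset ℕ} {p : ℕ → ℕ} {D : Dat}
    (h : Pre J en p D) {i : ℕ} (q : ℕ) (hi : 1 ≤ i) :
    D.lam i q ≤ D.lamR en p i q ∧ D.lamR en p i q ≤ D.lam i q + 258 * zz * (1 / 2 ^ i) := by
  obtain ⟨h3, h4⟩ := h2 J en p D h i q hi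
  unfold Dat.lam Dat.lamR
  have hz := zz_pos
  have h5 : 2 * zz / 2 ^ i * 129 = 258 * zz * (1 / 2 ^ i) := by ring
  rw [h5] at h4
  have h6 : 0 ≤ 258 * zz * (1 / 2 ^ i) := by positivity
  constructor
  · exact min_le_min (by linarith) le_rfl
  · rcases le_total (D.U D.f i q + uu i) 0 with h7 | h7
    · rw [min_eq_left h7]
      exact (min_le_left _ _).trans (by linarith)
    · rw [min_eq_right h7]
      exact (min_le_right _ _).trans (by linarith)

private theorem sum_bd (j : ℕ) : ∑ i ∈ Ico 1 j, 258 * zz * (1 / 2 ^ i) ≤ 258 * zz := by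
  rw [← Finset.mul_sum]
  have h1 := sum_geo_Ico j
  have h2 := zz_pos
  nlinarith

/-- The price of an admissible cell. -/
private theorem tb_eq (h1 : S_ThEq) {X : CD} (h : X.Ok) {c : ℕ} (hc : X.Adm c) :
    X.tb c = 2 * zz / 2 ^ X.jb * Real.exp (∑ i ∈ Ico 1 X.jb, X.D.lam i (c / LL i)) :=
  h1.1 X.D.toFz X.D.f X.jb c h.jb1 hc.2.2.2.2

/-- `tb` and `thR`. -/
private theorem thR_bd (h1 : S_ThEq) (h2 : S_URle) {X : CD} (h : X.Ok) {x : ℕ}
    (hc : X.Adm (x / 8)) : X.tb (x / 8) ≤ X.thR x ∧ X.thR x ≤ 1.001 * X.tb (x / 8) := by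
  rw [tb_eq h1 h hc]
  unfold CD.thR
  have hz := zz_pos
  have hq : (0 : ℝ) ≤ 2 * zz / 2 ^ X.jb := by positivity
  have hb : ∀ i ∈ Ico 1 X.jb, X.D.lam i (x / 8 / LL i) ≤ X.D.lamR X.en X.p i (x / 8 / LL i) ∧
      X.D.lamR X.en X.p i (x / 8 / LL i) ≤ X.D.lam i (x / 8 / LL i) + 258 * zz * (1 / 2 ^ i) :=
    fun i hi => lamR_bd h2 h.inv.toPre _ (Finset.mem_Ico.mp hi).1
  constructor
  · refine mul_le_mul_of_nonneg_left (Real.exp_le_exp.mpr ?_) hq
    exact Finset.sum_le_sum fun i hi => (hb i hi).1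
  · have h3 : ∑ i ∈ Ico 1 X.jb, X.D.lamR X.en X.p i (x / 8 / LL i) ≤
        ∑ i ∈ Ico 1 X.jb, X.D.lam i (x / 8 / LL i) + 258 * zz := by
      refine (Finset.sum_le_sum fun i hi => (hb i hi).2).trans ?_
      rw [Finset.sum_add_distrib]
      have := sum_bd X.jb
      linarith
    have h4 := Real.exp_le_exp.mpr h3
    rw [Real.exp_add] at h4
    have h5 : Real.exp (258 * zz) ≤ 1.001 := exp_zz_le (by norm_num)
    have h6 := Real.exp_pos (∑ i ∈ Ico 1 X.jb, X.D.lam i (x / 8 / LL i))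
    calc 2 * zz / 2 ^ X.jb * Real.exp (∑ i ∈ Ico 1 X.jb, X.D.lamR X.en X.p i (x / 8 / LL i))
        ≤ 2 * zz / 2 ^ X.jb *
          (Real.exp (∑ i ∈ Ico 1 X.jb, X.D.lam i (x / 8 / LL i)) * 1.001) :=
          mul_le_mul_of_nonneg_left (h4.trans (mul_le_mul_of_nonneg_left h5 h6.le)) hq
      _ = 1.001 * (2 * zz / 2 ^ X.jb *
          Real.exp (∑ i ∈ Ico 1 X.jb, X.D.lam i (x / 8 / LL i))) := by ring

/-- Two admissible cells see each other. -/
private theorem adm_vis {X : CD} {c m : ℕ} (hc : X.Adm c) (hm : X.Adm m) : X.D.vis X.J c m := by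
  refine ⟨hc.2.2.2.1, hm.2.2.2.1, fun i hi _ hcl => ?_⟩
  rcases lt_or_ge i X.jb with h3 | h3
  · rcases hcl with h4 | h4
    · exact absurd h4 (hc.2.2.2.2 i hi h3)
    · exact absurd h4 (hm.2.2.2.2 i hi h3)
  · exact div_up h3 (hc.2.2.1.trans hm.2.2.1.symm)

/-- The bound for `rho` in the case `x / 8 < yh`. -/
private theorem rho_bd (h1 : S_ThEq) (h2 : S_URle) {X : CD} (h : X.Ok) {x : ℕ} (hx : x ∈ X.JJ)
    (hxy : x / 8 < X.yh) : X.D.rho x * X.thR x ≤ 1.001 * X.d := by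
  classical
  obtain ⟨m, hm, hym, hmd⟩ := h.ms
  have hc := h.adm x hx
  obtain ⟨hen, hn0, hp⟩ := h.pp hx
  have hck := h.ckn
  have hmck := hm.2.1
  have hi3 := h.inv.i3 x hen (hn0.trans_le hp) m (hxy.trans_le hym) (by omega) (adm_vis hc hm)
  have hsub : dif X.J (x / 8) m ⊆ Ico 1 X.jb := by
    intro i hi
    rw [mem_dif] at hi
    rw [Finset.mem_Ico]
    refine ⟨hi.1.1, ?_⟩
    by_contra h3
    exact hi.2 (div_up (not_lt.mp h3) (hc.2.2.1.trans hm.2.2.1.symm))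
  have hz := zz_pos
  have hrest : ∀ i ∈ Ico 1 X.jb \ dif X.J (x / 8) m, X.D.lamR X.en X.p i (x / 8 / LL i) ≤
      X.D.lam i (m / LL i) + 258 * zz * (1 / 2 ^ i) := by
    intro i hi
    rw [Finset.mem_sdiff, Finset.mem_Ico, mem_dif] at hi
    have h3 : x / 8 / LL i = m / LL i := by
      by_contra h4
      exact hi.2 ⟨⟨hi.1.1, (hi.1.2.trans_le h.jbJ).le⟩, h4⟩
    rw [h3]
    exact (lamR_bd h2 h.inv.toPre _ hi.1.1).2
  have hS1 : ∑ i ∈ Ico 1 X.jb, X.D.lamR X.en X.p i (x / 8 / LL i) =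
      ∑ i ∈ Ico 1 X.jb \ dif X.J (x / 8) m, X.D.lamR X.en X.p i (x / 8 / LL i) +
      ∑ i ∈ dif X.J (x / 8) m, X.D.lamR X.en X.p i (x / 8 / LL i) :=
    (Finset.sum_sdiff hsub).symm
  have hS2 : ∑ i ∈ Ico 1 X.jb, X.D.lam i (m / LL i) =
      ∑ i ∈ Ico 1 X.jb \ dif X.J (x / 8) m, X.D.lam i (m / LL i) +
      ∑ i ∈ dif X.J (x / 8) m, X.D.lam i (m / LL i) :=
    (Finset.sum_sdiff hsub).symm
  have hS3 : ∑ i ∈ Ico 1 X.jb \ dif X.J (x / 8) m, X.D.lamR X.en X.p i (x / 8 / LL i) ≤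
      ∑ i ∈ Ico 1 X.jb \ dif X.J (x / 8) m, X.D.lam i (m / LL i) + 258 * zz := by
    refine (Finset.sum_le_sum hrest).trans ?_
    rw [Finset.sum_add_distrib]
    have h4 : ∑ i ∈ Ico 1 X.jb \ dif X.J (x / 8) m, 258 * zz * (1 / 2 ^ i) ≤
        ∑ i ∈ Ico 1 X.jb, 258 * zz * (1 / 2 ^ i) :=
      Finset.sum_le_sum_of_subset_of_nonneg Finset.sdiff_subset fun i _ _ => by positivity
    have h5 := sum_bd X.jb
    linarith
  have hrho := rho_nonneg h.inv.toPre x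
  have hmain : X.D.rho x * Real.exp (∑ i ∈ Ico 1 X.jb, X.D.lamR X.en X.p i (x / 8 / LL i)) ≤
      1.001 * Real.exp (∑ i ∈ Ico 1 X.jb, X.D.lam i (m / LL i)) := by
    have h5 : Real.exp (258 * zz) ≤ 1.001 := exp_zz_le (by norm_num)
    rw [hS1, hS2, Real.exp_add, Real.exp_add]
    have h6 := Real.exp_le_exp.mpr hS3
    rw [Real.exp_add] at h6
    set a := Real.exp (∑ i ∈ Ico 1 X.jb \ dif X.J (x / 8) m,
      X.D.lamR X.en X.p i (x / 8 / LL i)) with ha
    set b := Real.exp (∑ i ∈ dif X.J (x / 8) m, X.D.lamR X.en X.p i (x / 8 / LL i)) with hb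
    set a' := Real.exp (∑ i ∈ Ico 1 X.jb \ dif X.J (x / 8) m, X.D.lam i (m / LL i)) with ha'
    set b' := Real.exp (∑ i ∈ dif X.J (x / 8) m, X.D.lam i (m / LL i)) with hb'
    have ha0 : 0 < a := Real.exp_pos _
    have ha'0 : 0 < a' := Real.exp_pos _
    have hb'0 : 0 < b' := Real.exp_pos _
    have h7 : a ≤ a' * 1.001 := h6.trans (mul_le_mul_of_nonneg_left h5 ha'0.le)
    calc X.D.rho x * (a * b) = a * (X.D.rho x * b) := by ring
      _ ≤ a * b' := mul_le_mul_of_nonneg_left hi3 ha0.le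
      _ ≤ a' * 1.001 * b' := mul_le_mul_of_nonneg_right h7 hb'0.le
      _ = 1.001 * (a' * b') := by ring
  rw [← hmd, tb_eq h1 h hm]
  unfold CD.thR
  have hq : (0 : ℝ) ≤ 2 * zz / 2 ^ X.jb := by positivity
  calc X.D.rho x * (2 * zz / 2 ^ X.jb *
        Real.exp (∑ i ∈ Ico 1 X.jb, X.D.lamR X.en X.p i (x / 8 / LL i)))
      = 2 * zz / 2 ^ X.jb * (X.D.rho x *
        Real.exp (∑ i ∈ Ico 1 X.jb, X.D.lamR X.en X.p i (x / 8 / LL i))) := by ring
    _ ≤ 2 * zz / 2 ^ X.jb * (1.001 * Real.exp (∑ i ∈ Ico 1 X.jb, X.D.lam i (m / LL i))) :=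
        mul_le_mul_of_nonneg_left hmain hq
    _ = 1.001 * (2 * zz / 2 ^ X.jb * Real.exp (∑ i ∈ Ico 1 X.jb, X.D.lam i (m / LL i))) := by
        ring

/-- The payments. -/
theorem tPay (h1 : S_ThEq) (h2 : S_URle) : S_Pay := by
  classical
  intro X h x hx
  have hc := h.adm x hx
  obtain ⟨hen, hn0, hp⟩ := h.pp hx
  have hd := h.d0
  have hdt := h.dm _ hc
  have htb : 0 < X.tb (x / 8) := hd.trans_le hdt
  have hc0 := c0_pos
  rcases lt_or_ge x (8 * X.yh) with hxy | hxy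
  · have hxy' : x / 8 < X.yh := by omega
    have hlt := h.lt _ hc hxy'
    obtain ⟨h3, h4⟩ := thR_bd h1 h2 h hc
    have hrho := rho_nonneg h.inv.toPre x
    have hrb := rho_bd h1 h2 h hx hxy'
    have hthR : 0 < X.thR x := htb.trans_le h3
    have hdel : X.del x = c0 * (2 * X.d / X.thR x - X.D.rho x) := by
      unfold CD.del
      rw [if_pos hx, if_pos hxy]
    have hle1 : 2 * X.d / X.thR x ≤ 1 := by
      rw [div_le_one hthR]
      linarith
    have hge0 : 0 ≤ 2 * X.d / X.thR x := by positivity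
    have hrb' : X.D.rho x ≤ 1.001 * X.d / X.thR x := by
      rw [le_div_iff₀ hthR]
      exact hrb
    have hmid : 0.999 * (X.d / X.thR x) ≤ 2 * X.d / X.thR x - X.D.rho x := by
      have e1 : 2 * X.d / X.thR x = 2 * (X.d / X.thR x) := by ring
      have e2 : 1.001 * X.d / X.thR x = 1.001 * (X.d / X.thR x) := by ring
      rw [e2] at hrb'
      rw [e1]
      linarith
    have hq0 : 0 < X.d / X.thR x := div_pos hd hthR
    rw [hdel]
    refine ⟨?_, ?_, ?_, ?_, ?_⟩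
    · exact mul_nonneg hc0.le (by linarith)
    · calc c0 * (2 * X.d / X.thR x - X.D.rho x) ≤ c0 * 1 :=
          mul_le_mul_of_nonneg_left (by linarith) hc0.le
        _ = c0 := mul_one _
    · have h5 : X.tb (x / 8) * (c0 * (0.999 * (X.d / X.thR x))) ≤
          X.tb (x / 8) * (c0 * (2 * X.d / X.thR x - X.D.rho x)) :=
        mul_le_mul_of_nonneg_left (mul_le_mul_of_nonneg_left hmid hc0.le) htb.le
      refine le_trans ?_ h5
      have h6 : 0.99 ≤ 0.999 * (X.tb (x / 8) / X.thR x) := by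
        have h7 : 0.991 ≤ X.tb (x / 8) / X.thR x := by
          rw [le_div_iff₀ hthR]
          linarith
        linarith
      have h8 : X.tb (x / 8) * (c0 * (0.999 * (X.d / X.thR x))) =
          (c0 * X.d) * (0.999 * (X.tb (x / 8) / X.thR x)) := by ring
      rw [h8, mul_comm 0.99]
      exact mul_le_mul_of_nonneg_left h6 (by positivity)
    · intro h5
      exact absurd h5 hxy'.ne
    · intro _
      exact ⟨CD.mem_T.mpr ⟨hen, hn0.trans_le hp, hxy⟩, hge0, hle1⟩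
  · have hdel : X.del x = c0 * X.d / X.tb (x / 8) := by
      unfold CD.del
      rw [if_pos hx, if_neg (not_lt.mpr hxy)]
    have hmul : X.tb (x / 8) * X.del x = c0 * X.d := by
      rw [hdel]
      field_simp
    have hcd : 0 < c0 * X.d := mul_pos hc0 hd
    refine ⟨?_, ?_, ?_, fun _ => hmul.le, fun h5 => absurd h5 (not_lt.mpr hxy)⟩
    · rw [hdel]
      positivity
    · rw [hdel, div_le_iff₀ htb]
      exact mul_le_mul_of_nonneg_left hdt hc0.le
    · rw [hmul]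
      linarith

end Pool.Agent.D9f
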