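import Pool.Agent.Lib.MP_d9c039_lc.F.SpecC

set_option autoImplicit false

/-!
# MP_d9c039_lc, full statement: pigeonhole, choice of the block
-/

namespace Pool.Agent.D9f

open Finset

private theorem ww_succ (j : ℕ) : ww (j + 1) = LL (j + 1) ^ 3 := rfl

private theorem LL_le_ww (j : ℕ) : LL (j + 1) ≤ ww (j + 1) := by
  rw [ww_succ]
  have h := LL_pos (j + 1)
  exact Nat.le_self_pow (by norm_num) _

private theorem two_ww_le (j : ℕ) : 2 * ww (j + 1) ≤ LL (j + 2) := by
  rw [ww_succ, LL_pow4, pow_succ (LL (j + 1)) 3, Nat.mul_comm]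
  apply Nat.mul_le_mul_left
  have h := LL_ge j
  have h2 : 2 ≤ 2 ^ 40 := by norm_num
  exact h2.trans h

private theorem split2 {U : Finset ℕ} {g : ℕ → ℕ} {a N : ℕ} (h : ∀ x ∈ U, g x = a ∨ g x = a + 1)
    (hN : 2 * N ≤ U.card) : ∃ q, N ≤ (U.filter (fun x => g x = q)).card := by
  by_contra hc
  push Not at hc
  have h1 := hc a
  have h2 := hc (a + 1)
  have h3 : U ⊆ U.filter (fun x => g x = a) ∪ U.filter (fun x => g x = a + 1) := by
    intro x hx
    rw [mem_union, mem_filter, mem_filter]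
    rcases h x hx with h | h
    · exact Or.inl ⟨hx, h⟩
    · exact Or.inr ⟨hx, h⟩
  have h4 := (card_le_card h3).trans (card_union_le _ _)
  omega

open Classical in
theorem tPig (h1 : S_CntCl) : S_Pig := by
  intro J en p D n0 c1 ck hJ inv hn0 hckn hcard hck hclo
  obtain ⟨U, hU⟩ : ∃ U, U = (PP en p n0).filter (fun x => c1 < x / 8 ∧ x / 8 < ck) := ⟨_, rfl⟩
  rw [← hU] at hcard hclo
  have hUm : ∀ x ∈ U, x ∈ PP en p n0 ∧ c1 < x / 8 ∧ x / 8 < ck := by
    intro x hx
    rw [hU, mem_filter] at hx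
    exact hx
  have hckJ : ck < LL J := by omega
  obtain ⟨h, hh⟩ : ∃ h, ck = h + c1 + 1 := ⟨ck - c1 - 1, by omega⟩
  have hh45 : 2 ^ 45 ≤ h := by omega
  have hex : ∃ i, h < 2 * ww i + 1 := by
    refine ⟨J, ?_⟩
    obtain ⟨J', rfl⟩ : ∃ J', J = J' + 1 := ⟨J - 1, by omega⟩
    have := LL_le_ww J'
    omega
  obtain ⟨t, ht⟩ : ∃ t, t = Nat.find hex := ⟨_, rfl⟩
  have ht1 : h < 2 * ww t + 1 := by
    rw [ht]
    exact Nat.find_spec hex
  have ht2 : ∀ i < t, 2 * ww i + 1 + c1 + 1 ≤ ck := by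
    intro i hi
    have := Nat.find_min hex (ht ▸ hi)
    omega
  have htJ : t ≤ J := by
    rw [ht]
    apply Nat.find_min'
    obtain ⟨J', rfl⟩ : ∃ J', J = J' + 1 := ⟨J - 1, by omega⟩
    have := LL_le_ww J'
    omega
  have ht0 : 1 ≤ t := by
    rcases Nat.eq_zero_or_pos t with h0 | h0
    · exfalso
      rw [h0] at ht1
      have h2 : 2 * ww 0 + 1 ≤ 2 ^ 45 := by
        unfold ww
        norm_num
      omega
    · exact h0
  have hno : ∀ x ∈ U, ∀ i < t, ¬ D.clo i (x / 8) := fun x hx i hi =>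
    hclo x hx i (by omega) (ht2 i hi)
  have hpk : ∀ x ∈ U, x / 8 ∉ D.pk := fun x hx hp => hno x hx 0 ht0 (Or.inl ⟨rfl, hp⟩)
  have hop : ∀ x ∈ U, ∀ i, 1 ≤ i → i < t → ¬ D.cl i (x / 8 / LL i) := fun x hx i hi hit hp =>
    hno x hx i hit (Or.inr ⟨hi, hp⟩)
  -- general construction
  have key : ∀ (jb qb : ℕ) (V : Finset ℕ), V ⊆ U → 2 ^ 43 ≤ V.card → 1 ≤ jb → jb ≤ J →
      (∀ x ∈ V, x / 8 / LL jb = qb) →
      (∀ x ∈ V, ∀ i, 1 ≤ i → i < jb → ¬ D.cl i (x / 8 / LL i)) → (D.cl jb qb ∨ jb = J) →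
      ∃ (jb qb : ℕ) (JJ : Finset ℕ), CD.Ok0 ⟨J, en, p, D, n0, c1, ck, jb, qb, JJ, 0, 0⟩ := by
    intro jb qb V hV hVc hj1 hj2 hq ho htop
    obtain ⟨JJ, hJJ, hJc⟩ := Finset.exists_subset_card_eq hVc
    refine ⟨jb, qb, JJ, ?_⟩
    exact {
      inv := inv
      n0le := hn0
      ckn := hckn
      jb1 := hj1
      jbJ := hj2
      card := hJc
      sub := fun x hx => (hUm x (hV (hJJ hx))).1
      adm := fun x hx => ⟨(hUm x (hV (hJJ hx))).2.1, (hUm x (hV (hJJ hx))).2.2, hq x (hJJ hx),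
        hpk x (hV (hJJ hx)), ho x (hJJ hx)⟩
      top := htop }
  rcases Nat.eq_or_lt_of_le htJ with htJ' | htJ'
  · -- t = J
    apply key J 0 U (Finset.Subset.refl _) _ hJ le_rfl
    · intro x hx
      have := (hUm x hx).2.2
      exact Nat.div_eq_of_lt (by omega)
    · intro x hx i hi hiJ
      exact hop x hx i hi (by omega)
    · exact Or.inr rfl
    · have h2 : 2 ^ 43 ≤ 2 ^ 48 := by norm_num
      exact h2.trans hcard
  · -- t < J
    have hhL : h ≤ LL (t + 1) := by
      obtain ⟨t', rfl⟩ : ∃ t', t = t' + 1 := ⟨t - 1, by omega⟩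
      have h3 : 2 * ww (t' + 1) ≤ LL (t' + 1 + 1) := two_ww_le t'
      omega
    obtain ⟨q1, hq1⟩ := split2 (U := U) (g := fun x => x / 8 / LL (t + 1))
      (a := (c1 + 1) / LL (t + 1)) (N := 2 ^ 47) (by
        intro x hx
        have hx1 := (hUm x hx).2.1
        have hx2 := (hUm x hx).2.2
        have e1 : (c1 + 1) / LL (t + 1) ≤ x / 8 / LL (t + 1) := Nat.div_le_div_right (by omega)
        have e2 : x / 8 / LL (t + 1) ≤ (c1 + 1 + LL (t + 1)) / LL (t + 1) :=
          Nat.div_le_div_right (by omega)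
        rw [Nat.add_div_right _ (LL_pos _)] at e2
        show x / 8 / LL (t + 1) = _ ∨ x / 8 / LL (t + 1) = _
        omega) (by
        have h2 : 2 * 2 ^ 47 = 2 ^ 48 := by norm_num
        rw [h2]
        exact hcard)
    obtain ⟨U1, hU1⟩ : ∃ U1, U1 = U.filter (fun x => x / 8 / LL (t + 1) = q1) := ⟨_, rfl⟩
    rw [← hU1] at hq1
    have hU1m : ∀ x ∈ U1, x ∈ U ∧ x / 8 / LL (t + 1) = q1 := by
      intro x hx
      rw [hU1, mem_filter] at hx
      exact hx
    by_cases hbig : ∃ i, D.cl t i ∧ 2 ^ 43 ≤ (U1.filter (fun x => x / 8 / LL t = i)).card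
    · obtain ⟨i, hi, hic⟩ := hbig
      apply key t i (U1.filter (fun x => x / 8 / LL t = i)) _ hic ht0 htJ
      · intro x hx
        exact (mem_filter.mp hx).2
      · intro x hx i hi hit
        exact hop x (hU1m x (mem_filter.mp hx).1).1 i hi hit
      · exact Or.inl hi
      · intro x hx
        exact (hU1m x (mem_filter.mp hx).1).1
    · push Not at hbig
      obtain ⟨Cl, hCl⟩ : ∃ Cl, Cl = U1.filter (fun x => D.cl t (x / 8 / LL t)) := ⟨_, rfl⟩
      have hs : (Cl.image (fun x => x / 8 / LL t)).card < 16 := by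
        apply h1.1 D.toFz D.f t q1 ht0 (inv.neg (t + 1) q1 (by omega) (by omega))
          (fun i hi => inv.kapge t i ht0 htJ hi)
        intro i hi
        rw [mem_image] at hi
        obtain ⟨x, hx, rfl⟩ := hi
        rw [hCl, mem_filter] at hx
        refine ⟨?_, hx.2⟩
        rw [div_succ]
        exact (hU1m x hx.1).2
      have hcl : Cl.card ≤ 2 ^ 43 * (Cl.image (fun x => x / 8 / LL t)).card := by
        apply Finset.card_le_mul_card_image
        intro i hi
        rw [mem_image] at hi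
        obtain ⟨x, hx, rfl⟩ := hi
        rw [hCl, mem_filter] at hx
        refine le_trans (card_le_card ?_) (hbig _ hx.2).le
        intro y hy
        rw [mem_filter] at hy ⊢
        refine ⟨?_, hy.2⟩
        have hy1 := hy.1
        rw [hCl, mem_filter] at hy1
        exact hy1.1
      obtain ⟨Op, hOp⟩ : ∃ Op, Op = U1.filter (fun x => ¬ D.cl t (x / 8 / LL t)) := ⟨_, rfl⟩
      have hsum : Cl.card + Op.card = U1.card := by
        rw [hCl, hOp]
        exact Finset.card_filter_add_card_filter_not _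
      have hOpc : 2 ^ 43 ≤ Op.card := by
        have e : (2 : ℕ) ^ 47 = 16 * 2 ^ 43 := by norm_num
        rw [e] at hq1
        have : Cl.card ≤ 2 ^ 43 * 15 := hcl.trans (Nat.mul_le_mul_left _ (by omega))
        omega
      have hex2 : ∃ j, t + 1 ≤ j ∧ (j = J ∨ D.cl j (q1 * LL (t + 1) / LL j)) :=
        ⟨J, by omega, Or.inl rfl⟩
      obtain ⟨jb, hjb⟩ : ∃ jb, jb = Nat.find hex2 := ⟨_, rfl⟩
      have hj1 : t + 1 ≤ jb ∧ (jb = J ∨ D.cl jb (q1 * LL (t + 1) / LL jb)) := by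
        rw [hjb]
        exact Nat.find_spec hex2
      have hj2 : jb ≤ J := by
        rw [hjb]
        exact Nat.find_min' hex2 ⟨by omega, Or.inl rfl⟩
      have hj3 : ∀ i, t + 1 ≤ i → i < jb → ¬ D.cl i (q1 * LL (t + 1) / LL i) := by
        intro i hi hij hc
        exact Nat.find_min hex2 (hjb ▸ hij) ⟨hi, Or.inr hc⟩
      have hdiv : ∀ x ∈ U1, ∀ i, t + 1 ≤ i → x / 8 / LL i = q1 * LL (t + 1) / LL i := by
        intro x hx i hi
        rw [← (hU1m x hx).2, div_sub hi]
      have hOpm : ∀ x ∈ Op, x ∈ U1 ∧ ¬ D.cl t (x / 8 / LL t) := by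
        intro x hx
        rw [hOp, mem_filter] at hx
        exact hx
      apply key jb (q1 * LL (t + 1) / LL jb) Op _ hOpc (by omega) hj2
      · intro x hx
        exact hdiv x (hOpm x hx).1 jb hj1.1
      · intro x hx i hi hij
        rcases Nat.lt_trichotomy i t with hit | hit | hit
        · exact hop x (hU1m x (hOpm x hx).1).1 i hi hit
        · subst hit
          exact (hOpm x hx).2
        · rw [hdiv x (hOpm x hx).1 i hit]
          exact hj3 i hit hij
      · exact hj1.2.symm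
      · intro x hx
        exact (hU1m x (hOpm x hx).1).1

end Pool.Agent.D9f
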