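import Pool.Agent.Lib.MP_d9c039_lc.F.SpecC

set_option autoImplicit false

/-!
# MP_d9c039_lc, the full statement, module Place: a free spaced cell in a window (helper53)
-/

namespace Pool.Agent.D9f

open Finset

private theorem place_icc (v r : ℕ) : (Icc (v - r) (v + r)).card ≤ 2 * r + 1 := by
  rw [Nat.card_Icc]
  omega

private theorem place_bi (s : Finset ℕ) (r : ℕ) :
    (s.biUnion fun v => Icc (v - r) (v + r)).card ≤ s.card * (2 * r + 1) :=
  Finset.card_biUnion_le_card_mul _ _ _ fun v _ => place_icc v r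

private theorem place_two (s : Finset ℕ) (a W r : ℕ) (hr : 2 * r ≤ W)
    (h1 : ∀ v ∈ s, a ≤ v + r ∧ v < a + W + r) (h2 : ∀ v ∈ s, ∀ w ∈ s, v < w → v + W < w) :
    s.card ≤ 2 := by
  by_contra hcon
  rw [not_le, Finset.two_lt_card] at hcon
  obtain ⟨x, hx, y, hy, z, hz, hxy, hxz, hyz⟩ := hcon
  have a1 := h1 x hx
  have a2 := h1 y hy
  have a3 := h1 z hz
  have b1 := h2 x hx y hy
  have b2 := h2 y hy x hx
  have b3 := h2 x hx z hz
  have b4 := h2 z hz x hx
  have b5 := h2 y hy z hz
  have b6 := h2 z hz y hy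
  clear h1 h2 hx hy hz
  omega

theorem tPlace (h1 : S_CntF) (h2 : S_Room) : S_Place := by
  intro J en p D hD i a hi
  by_contra hcon
  push Not at hcon
  have hroom := h2 i
  have hvi : 2 * vv i ≤ ww i := by
    have h0 := Nat.zero_le (∑ l ∈ range (i + 1),
      16 * cc l * ((ww i + 2 * ww l + 2 * vv l) / LL (l + 1) + 2) * (2 * vv l + 1))
    generalize (∑ l ∈ range (i + 1),
      16 * cc l * ((ww i + 2 * ww l + 2 * vv l) / LL (l + 1) + 2) * (2 * vv l + 1)) = S at hroom h0
    generalize ww i = W at *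
    generalize vv i = r at *
    omega
  set FL : ℕ → Finset ℕ := fun l =>
    D.fm.filter (fun v => D.ty v = l ∧ a ≤ v + vv l ∧ v < a + ww i + vv l) with hFL
  set FG : Finset ℕ := D.fm.filter (fun v => i < D.ty v ∧ a ≤ v + vv i ∧ v < a + ww i + vv i)
    with hFG
  have hG : FG.card ≤ 2 := by
    refine place_two FG a (ww i) (vv i) hvi ?_ ?_
    · intro v hv
      rw [hFG, Finset.mem_filter] at hv
      exact hv.2.2
    · intro v hv w hw hvw
      rw [hFG, Finset.mem_filter] at hv hw
      exact hD.spc v hv.1 w hw.1 hvw i hv.2.1 hw.2.1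
  have hL : ∀ l ∈ range (i + 1), (FL l).card ≤
      16 * cc l * ((ww i + 2 * ww l + 2 * vv l) / LL (l + 1) + 2) := by
    intro l hl
    have hlJ : l < J := lt_of_le_of_lt (Nat.lt_succ_iff.mp (Finset.mem_range.mp hl)) hi
    have h := h1 J en p D hD l a (a + ww i) hlJ (Nat.le_add_right _ _)
    rw [Nat.add_sub_cancel_left] at h
    exact h
  have hsub : Ico a (a + ww i) ⊆
      ((range (i + 1)).biUnion fun l => (FL l).biUnion fun v => Icc (v - vv l) (v + vv l)) ∪
        FG.biUnion fun v => Icc (v - vv i) (v + vv i) := by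
    intro v hv
    rw [Finset.mem_Ico] at hv
    obtain ⟨v', hv', hc1, hc2⟩ := hcon v hv.1 hv.2
    rcases le_or_gt (D.ty v') i with hty | hty
    · rw [min_eq_left hty] at hc1 hc2
      refine Finset.mem_union_left _ (Finset.mem_biUnion.mpr ⟨D.ty v',
        Finset.mem_range.mpr (Nat.lt_succ_of_le hty), Finset.mem_biUnion.mpr ⟨v', ?_, ?_⟩⟩)
      · rw [hFL]
        refine Finset.mem_filter.mpr ⟨hv', rfl, ?_, ?_⟩
        · exact hv.1.trans hc1
        · exact lt_of_le_of_lt hc2 (Nat.add_lt_add_right hv.2 _)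
      · rw [Finset.mem_Icc]
        generalize vv (D.ty v') = r at *
        omega
    · rw [min_eq_right hty.le] at hc1 hc2
      refine Finset.mem_union_right _ (Finset.mem_biUnion.mpr ⟨v', ?_, ?_⟩)
      · rw [hFG]
        refine Finset.mem_filter.mpr ⟨hv', hty, ?_, ?_⟩
        · exact hv.1.trans hc1
        · exact lt_of_le_of_lt hc2 (Nat.add_lt_add_right hv.2 _)
      · rw [Finset.mem_Icc]
        generalize vv i = r at *
        omega
  have hcard := Finset.card_le_card hsub
  rw [Nat.card_Ico, Nat.add_sub_cancel_left] at hcard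
  have hA : ((range (i + 1)).biUnion fun l =>
      (FL l).biUnion fun v => Icc (v - vv l) (v + vv l)).card ≤
      ∑ l ∈ range (i + 1),
        16 * cc l * ((ww i + 2 * ww l + 2 * vv l) / LL (l + 1) + 2) * (2 * vv l + 1) := by
    refine Finset.card_biUnion_le.trans (Finset.sum_le_sum fun l hl => ?_)
    exact (place_bi (FL l) (vv l)).trans (Nat.mul_le_mul_right _ (hL l hl))
  have hB : (FG.biUnion fun v => Icc (v - vv i) (v + vv i)).card ≤ 2 * (2 * vv i + 1) :=
    (place_bi FG (vv i)).trans (Nat.mul_le_mul_right _ hG)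
  have hC := Finset.card_union_le ((range (i + 1)).biUnion fun l =>
      (FL l).biUnion fun v => Icc (v - vv l) (v + vv l))
    (FG.biUnion fun v => Icc (v - vv i) (v + vv i))
  exact absurd (hcard.trans (hC.trans (Nat.add_le_add hA hB))) (Nat.not_le.mpr hroom)

end Pool.Agent.D9f
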