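import Pool.Agent.Lib.MP_d9c039_lc.F.SpecB

set_option autoImplicit false

/-!
# MP_d9c039_lc, the full statement, module PreD: all invariants after the direct answer
-/

namespace Pool.Agent.D9f

open Finset

private theorem p1_le (X : CD) (x : ℕ) : X.p1 x ≤ X.p x := min_le_left _ _

private theorem PP_sub (X : CD) (n : ℕ) : PP X.en X.p1 n ⊆ PP X.en X.p n := by
  intro x hx
  rw [mem_PP] at hx ⊢
  exact ⟨hx.1, hx.2.1, hx.2.2.trans (p1_le X x)⟩

private theorem mem_T1 {X : CD} {x : ℕ} (hx : x ∈ X.en) (h : x < X.p1 x) : x ∈ X.T :=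
  CD.mem_T.mpr ⟨hx, h.trans_le (p1_le X x), h.trans_le (min_le_right _ _)⟩

private theorem clo_mono {X : CD} {i c : ℕ} (h : X.D.clo i c) : X.D1.clo i c := by
  rcases h with ⟨h1, h2⟩ | h
  · exact Or.inl ⟨h1, Finset.mem_insert_of_mem h2⟩
  · exact Or.inr h

private theorem neg1 (h2 : S_Rise) (h3 : S_ClB) (h4 : S_BetaB) {X : CD} (h : X.Ok) {j q : ℕ}
    (hj : 1 ≤ j) (hJ : j ≤ X.J) : X.D1.U X.D1.f j q < 0 := by
  have hn := h.inv.neg j q hj hJ
  show X.D.U X.D1.f j q < 0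
  by_cases hb : j = X.jb ∧ q = X.qb
  · rw [hb.1, hb.2] at hn ⊢
    exact (h4 X h).trans_lt hn
  · by_cases hc : X.D.cl j q
    · exact (h3 X h j q hj hJ hc hb).trans_lt hn
    · have ho := h.inv.opn j q hj hJ hc
      have hr := h2 X h j q hj
      linarith

theorem tPreD (h1 : S_EDiff) (h2 : S_Rise) (h3 : S_ClB) (h4 : S_BetaB) (h5 : S_I3D) : S_PreD := by
  intro X h
  exact
    { enlt := h.inv.enlt
      ple := fun x hx => (p1_le X x).trans (h.inv.ple x hx)
      cntw := fun n => (Finset.card_le_card (PP_sub X n)).trans (h.inv.cntw n)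
      e0 := fun x => ⟨(h1 X h x).2.1, (h1 X h x).2.2.1⟩
      fresh := fun x hx => (h1 X h x).2.2.2.2 hx
      alive := fun x hx hp => ((h1 X h x).2.2.2.1 (mem_T1 hx hp)).1
      neg := fun j q hj hJ => neg1 h2 h3 h4 h hj hJ
      kapge := h.inv.kapge
      i3 := h5 X h
      i4 := fun v hv => by
        obtain ⟨a1, a2, a3, a4, a5, a6, a7⟩ := h.inv.i4 v hv
        exact ⟨a1, a2, clo_mono a3, a4, a5, a6, (p1_le X _).trans a7⟩
      inj := h.inv.inj
      spc := h.inv.spc }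

end Pool.Agent.D9f
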