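import Pool.Agent.Lib.MP_d9c039_lc.F.SpecB

set_option autoImplicit false

/-!
# MP_d9c039_lc, the full statement: module RI3 (the invariant i3 after the payments)
-/

namespace Pool.Agent.D9f

open Finset

theorem tRI3 (h1 : S_ThEq) (h2 : S_URle) (h3 : S_Pay) : S_RI3 := by
  intro X h x hx
  obtain ⟨hen, hxp, hxy⟩ := CD.mem_T.mp hx
  by_cases hJ : x ∈ X.JJ
  · have hr : X.r x = 2 * X.d / X.thR x := if_pos hJ
    obtain ⟨-, hr0, hr1⟩ := (h3 X h x hJ).2.2.2.2 hxy
    rw [hr]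
    refine ⟨hr0, hr1, ?_⟩
    intro m hm hmy _ hvis
    have hax := h.adm x hJ
    have hay := h.ya
    have hqm : m / LL X.jb = X.qb := by
      apply le_antisymm
      · have h4 := Nat.div_le_div_right (c := LL X.jb) hmy.le
        rw [hay.2.2.1] at h4
        exact h4
      · have h4 := Nat.div_le_div_right (c := LL X.jb) hm.le
        rw [hax.2.2.1] at h4
        exact h4
    have ham : X.Adm m := by
      refine ⟨hax.1.trans hm, hmy.trans hay.2.1, hqm, hvis.2.1, ?_⟩
      intro i hi1 hi2 hcl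
      have h4 := hvis.2.2 i hi1 (hi2.le.trans h.jbJ) (Or.inr hcl)
      apply hax.2.2.2.2 i hi1 hi2
      rw [h4]
      exact hcl
    have hlt := h.lt m ham hmy
    have htb : X.tb m = 2 * zz / 2 ^ X.jb *
        Real.exp (∑ i ∈ Ico 1 X.jb, X.D.lam i (m / LL i)) :=
      h1.1 X.D.toFz X.D.f X.jb m h.jb1 ham.2.2.2.2
    rw [htb] at hlt
    have hcz : (0 : ℝ) < 2 * zz / 2 ^ X.jb := by
      have := zz_pos
      positivity
    have hthR : X.thR x = 2 * zz / 2 ^ X.jb *
        Real.exp (∑ i ∈ Ico 1 X.jb, X.D.lamR X.en X.p i (x / 8 / LL i)) := rfl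
    have hth0 : 0 < X.thR x := by
      rw [hthR]
      exact mul_pos hcz (Real.exp_pos _)
    have hsub : dif X.J (x / 8) m ⊆ Ico 1 X.jb := by
      intro i hi
      rw [mem_dif] at hi
      rw [Finset.mem_Ico]
      refine ⟨hi.1.1, ?_⟩
      by_contra hcon
      apply hi.2
      apply div_up (not_lt.mp hcon)
      rw [hax.2.2.1, hqm]
    rw [hthR] at hr0 ⊢
    have hs1 := Finset.sum_sdiff hsub (f := fun i => X.D.lamR X.en X.p i (x / 8 / LL i))
    have hs2 := Finset.sum_sdiff hsub (f := fun i => X.D.lam i (m / LL i))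
    have hs3 : ∑ i ∈ Ico 1 X.jb \ dif X.J (x / 8) m, X.D.lam i (m / LL i) ≤
        ∑ i ∈ Ico 1 X.jb \ dif X.J (x / 8) m, X.D.lamR X.en X.p i (x / 8 / LL i) := by
      apply Finset.sum_le_sum
      intro i hi
      rw [Finset.mem_sdiff, Finset.mem_Ico, mem_dif] at hi
      have hiJ : i ≤ X.J := hi.1.2.le.trans h.jbJ
      have heq : x / 8 / LL i = m / LL i := by
        by_contra hcon
        exact hi.2 ⟨⟨hi.1.1, hiJ⟩, hcon⟩
      rw [heq]
      unfold Dat.lam Dat.lamR
      have h5 := (h2 X.J X.en X.p X.D h.inv.toPre i (m / LL i) hi.1.1).1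
      exact min_le_min (by linarith) le_rfl
    rw [← hs2, Real.exp_add] at hlt
    rw [← hs1, Real.exp_add]
    set A := Real.exp (∑ i ∈ dif X.J (x / 8) m, X.D.lamR X.en X.p i (x / 8 / LL i)) with hA
    set B := Real.exp (∑ i ∈ Ico 1 X.jb \ dif X.J (x / 8) m,
      X.D.lamR X.en X.p i (x / 8 / LL i)) with hB
    set A' := Real.exp (∑ i ∈ dif X.J (x / 8) m, X.D.lam i (m / LL i)) with hA'
    have hApos : 0 < A := Real.exp_pos _
    have hBpos : 0 < B := Real.exp_pos _
    have hA'pos : 0 < A' := Real.exp_pos _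
    have hB' : Real.exp (∑ i ∈ Ico 1 X.jb \ dif X.J (x / 8) m, X.D.lam i (m / LL i)) ≤ B :=
      Real.exp_le_exp.mpr hs3
    have h6 : 2 * X.d ≤ 2 * zz / 2 ^ X.jb * (B * A') := by
      refine hlt.le.trans ?_
      apply mul_le_mul_of_nonneg_left _ hcz.le
      exact mul_le_mul_of_nonneg_right hB' hA'pos.le
    have h7 : 2 * X.d / (2 * zz / 2 ^ X.jb * (B * A)) * A =
        2 * X.d / (2 * zz / 2 ^ X.jb * B) := by
      field_simp
    rw [h7, div_le_iff₀ (mul_pos hcz hBpos)]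
    calc 2 * X.d ≤ 2 * zz / 2 ^ X.jb * (B * A') := h6
      _ = A' * (2 * zz / 2 ^ X.jb * B) := by ring
  · have hr : X.r x = X.D.rho x := if_neg hJ
    rw [hr]
    refine ⟨rho_nonneg h.inv.toPre x, rho_le_one h.inv.toPre hen hxp, ?_⟩
    intro m hm _ hpm hvis
    exact h.inv.i3 x hen hxp m hm hpm hvis

end Pool.Agent.D9f
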