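import Pool.Agent.Lib.MP_d9c039_lc.F.SpecB

set_option autoImplicit false

/-!
# MP_d9c039_lc, the full statement: rise of the potentials
-/

namespace Pool.Agent.D9f

open Finset

theorem tRise (h1 : S_Lip) (h2 : S_TV) : S_Rise := by
  intro X hX j q hj
  have hL := h1.1 X.D.toFz X.D.f X.D1.f j q hj
  have hT := (h2 X hX j q).1
  have hz := zz_pos
  have hz2 : zz ≤ 1 / 1048576 := by unfold zz; norm_num
  set P : ℝ := 2 * zz / 2 ^ j with hP
  have hP0 : 0 < P := by positivity
  have hgg : gg j = 2 * P := gg_eq j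
  have h3 : P * ∑ c ∈ blk j q, max (X.D1.f c - X.D.f c) 0 ≤ P * (1 + 2064 * zz) :=
    mul_le_mul_of_nonneg_left hT hP0.le
  have h4 : P * (1 + 2064 * zz) < 2 * P := by nlinarith
  rw [hgg]
  linarith

end Pool.Agent.D9f
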