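import Pool.Agent.Lib.MP_d9c039_lc.F.SpecC

set_option autoImplicit false

/-!
# MP_d9c039_lc, the full statement, module Room: arithmetic of the windows (helper69)
-/

namespace Pool.Agent.D9f

open Finset

private theorem LL1 : LL 1 = 2 ^ 40 := by
  show 2 ^ (40 * 4 ^ 0) = 2 ^ 40
  norm_num

private theorem x_ge (j : ℕ) : (2 : ℝ) ^ 40 * 2 ^ j ≤ (LL (j + 1) : ℝ) := by
  induction j with
  | zero =>
    rw [LL1]
    norm_num
  | succ j ih =>
    rw [LL_pow4, Nat.cast_pow]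
    have h1 : (1 : ℝ) ≤ 2 ^ j := one_le_pow₀ (by norm_num)
    have h2 : (2 : ℝ) ≤ (LL (j + 1) : ℝ) := by nlinarith
    have h3 : (LL (j + 1) : ℝ) * 2 ≤ (LL (j + 1) : ℝ) ^ 4 := by
      have h4 : (LL (j + 1) : ℝ) ^ 4 = (LL (j + 1) : ℝ) * (LL (j + 1) : ℝ) ^ 3 := by ring
      rw [h4]
      refine mul_le_mul_of_nonneg_left ?_ (by linarith)
      calc (2 : ℝ) ≤ 2 ^ 3 := by norm_num
        _ ≤ (LL (j + 1) : ℝ) ^ 3 := pow_le_pow_left₀ (by norm_num) h2 3
    calc (2 : ℝ) ^ 40 * 2 ^ (j + 1) = (2 ^ 40 * 2 ^ j) * 2 := by rw [pow_succ]; ring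
      _ ≤ (LL (j + 1) : ℝ) * 2 := by linarith
      _ ≤ _ := h3

private theorem ww_succ (j : ℕ) : (ww (j + 1) : ℝ) = (LL (j + 1) : ℝ) ^ 3 := by
  have h : ww (j + 1) = LL (j + 1) ^ 3 := rfl
  rw [h, Nat.cast_pow]

private theorem vv_le (j : ℕ) : (vv (j + 1) : ℝ) ≤ 10 * (LL (j + 1) : ℝ) := by
  have h : vv (j + 1) = ww j := rfl
  rw [h]
  cases j with
  | zero =>
    have h0 : ww 0 = 10 * 2 ^ 40 := rfl
    rw [h0, LL1]
    norm_num
  | succ j =>
    rw [ww_succ, LL_pow4, Nat.cast_pow]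
    have h1 := x_ge j
    have h2 : (1 : ℝ) ≤ 2 ^ j := one_le_pow₀ (by norm_num)
    have h3 : (1 : ℝ) ≤ (LL (j + 1) : ℝ) := by nlinarith
    have h4 : (LL (j + 1) : ℝ) ^ 3 ≤ (LL (j + 1) : ℝ) ^ 4 :=
      pow_le_pow_right₀ h3 (by norm_num)
    have h5 : (0 : ℝ) ≤ (LL (j + 1) : ℝ) ^ 4 := by positivity
    linarith

private theorem term_le (j k : ℕ) (hjk : j ≤ k) :
    ((16 * cc (j + 1) * ((ww (k + 1) + 2 * ww (j + 1) + 2 * vv (j + 1)) / LL (j + 1 + 1) + 2) *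
      (2 * vv (j + 1) + 1) : ℕ) : ℝ) ≤
      (ww (k + 1) : ℝ) / 2 ^ 25 * (1 / (2 : ℝ)) ^ j := by
  set L : ℝ := (LL (j + 1) : ℝ) with hL
  set W : ℝ := (ww (k + 1) : ℝ) with hW
  have h1 := x_ge j
  have h2 : (1 : ℝ) ≤ 2 ^ j := one_le_pow₀ (by norm_num)
  have hL40 : (2 : ℝ) ^ 40 ≤ L := by nlinarith
  have hL0 : (0 : ℝ) < L := lt_of_lt_of_le (by positivity) hL40
  have hLW : L ^ 3 ≤ W := by
    rw [hW, ww_succ]
    have h3 : L ≤ (LL (k + 1) : ℝ) := by
      rw [hL]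
      exact_mod_cast LL_mono (Nat.succ_le_succ hjk)
    exact pow_le_pow_left₀ hL0.le h3 3
  have hW0 : 0 < W := lt_of_lt_of_le (by positivity) hLW
  have hv := vv_le j
  have hv0 : (0 : ℝ) ≤ (vv (j + 1) : ℝ) := Nat.cast_nonneg _
  have hcc : (cc (j + 1) : ℝ) = 15 * L := by
    have h : cc (j + 1) = 15 * LL (j + 1) := rfl
    rw [h, Nat.cast_mul, ← hL]
    norm_num
  have hLL : (LL (j + 1 + 1) : ℝ) = L ^ 4 := by
    rw [LL_pow4, Nat.cast_pow]
  have hdiv : (((ww (k + 1) + 2 * ww (j + 1) + 2 * vv (j + 1)) / LL (j + 1 + 1) : ℕ) : ℝ) ≤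
      4 * W / L ^ 4 := by
    refine Nat.cast_div_le.trans ?_
    rw [hLL]
    refine div_le_div_of_nonneg_right ?_ (by positivity)
    push_cast
    rw [← hW, ww_succ, ← hL]
    have h3 : 20 * L ≤ L ^ 3 := by
      have h4 : (20 : ℝ) ≤ L ^ 2 := by nlinarith
      nlinarith
    linarith
  have hd0 : (0 : ℝ) ≤ 4 * W / L ^ 4 := by positivity
  have h5 : ((16 * cc (j + 1) * ((ww (k + 1) + 2 * ww (j + 1) + 2 * vv (j + 1)) /
      LL (j + 1 + 1) + 2) * (2 * vv (j + 1) + 1) : ℕ) : ℝ) ≤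
      16 * (15 * L) * (4 * W / L ^ 4 + 2) * (21 * L) := by
    rw [Nat.cast_mul, Nat.cast_mul, Nat.cast_mul, hcc, Nat.cast_add, Nat.cast_add, Nat.cast_mul]
    refine mul_le_mul (mul_le_mul (by norm_num) ?_ (by positivity) (by positivity)) ?_
      (by positivity) (by positivity)
    · push_cast at hdiv ⊢
      linarith
    · push_cast
      linarith
  refine h5.trans ?_
  have h6 : 16 * (15 * L) * (4 * W / L ^ 4 + 2) * (21 * L) = 20160 * (W / L ^ 2) + 10080 * L ^ 2 := by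
    field_simp
    ring
  have h7 : W / L ^ 2 ≤ W / L := by
    refine div_le_div_of_nonneg_left hW0.le hL0 ?_
    nlinarith
  have h8 : L ^ 2 ≤ W / L := by
    rw [le_div_iff₀ hL0]
    calc L ^ 2 * L = L ^ 3 := by ring
      _ ≤ W := hLW
  have h9 : W / L ≤ W / (2 ^ 40 * 2 ^ j) :=
    div_le_div_of_nonneg_left hW0.le (by positivity) h1
  have h10 : W / 2 ^ 25 * (1 / (2 : ℝ)) ^ j = 2 ^ 15 * (W / (2 ^ 40 * 2 ^ j)) := by
    rw [one_div, inv_pow]
    field_simp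
  rw [h6, h10]
  have h11 : (0 : ℝ) ≤ W / (2 ^ 40 * 2 ^ j) := by positivity
  linarith

theorem tRoom : S_Room := by
  intro i
  cases i with
  | zero =>
    have h1 : cc 0 = 2 ^ 29 := rfl
    have h2 : ww 0 = 10 * 2 ^ 40 := rfl
    have h3 : vv 0 = 0 := rfl
    rw [zero_add, Finset.sum_range_one, zero_add, LL1, h1, h2, h3]
    norm_num
  | succ k =>
    have hreal : ((∑ l ∈ range (k + 1 + 1),
        16 * cc l * ((ww (k + 1) + 2 * ww l + 2 * vv l) / LL (l + 1) + 2) * (2 * vv l + 1) +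
        2 * (2 * vv (k + 1) + 1) : ℕ) : ℝ) < (ww (k + 1) : ℝ) := by
      rw [Finset.sum_range_succ', Nat.cast_add, Nat.cast_add, Nat.cast_sum]
      set W : ℝ := (ww (k + 1) : ℝ) with hW
      have h1 := x_ge k
      have h2 : (1 : ℝ) ≤ 2 ^ k := one_le_pow₀ (by norm_num)
      have hL40 : (2 : ℝ) ^ 40 ≤ (LL (k + 1) : ℝ) := by nlinarith
      have hWL : W = (LL (k + 1) : ℝ) ^ 3 := by rw [hW, ww_succ]
      have hW1 : (2 : ℝ) ^ 80 * (LL (k + 1) : ℝ) ≤ W := by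
        rw [hWL]
        have h3 : (2 : ℝ) ^ 80 ≤ (LL (k + 1) : ℝ) ^ 2 := by
          calc (2 : ℝ) ^ 80 = (2 ^ 40) ^ 2 := by norm_num
            _ ≤ _ := pow_le_pow_left₀ (by positivity) hL40 2
        have h4 : (LL (k + 1) : ℝ) ^ 3 = (LL (k + 1) : ℝ) ^ 2 * (LL (k + 1) : ℝ) := by ring
        rw [h4]
        exact mul_le_mul_of_nonneg_right h3 (by linarith)
      have hW0 : 0 < W := by
        have : (0 : ℝ) < 2 ^ 80 * (LL (k + 1) : ℝ) := by
          have : (0 : ℝ) < (LL (k + 1) : ℝ) := lt_of_lt_of_le (by norm_num) hL40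
          positivity
        linarith
      have hsum : ∑ j ∈ range (k + 1), ((16 * cc (j + 1) * ((ww (k + 1) + 2 * ww (j + 1) +
          2 * vv (j + 1)) / LL (j + 1 + 1) + 2) * (2 * vv (j + 1) + 1) : ℕ) : ℝ) ≤
          W / 2 ^ 25 * 2 := by
        refine (Finset.sum_le_sum fun j hj => term_le j k
          (Nat.lt_succ_iff.1 (Finset.mem_range.1 hj))).trans ?_
        rw [← Finset.mul_sum]
        exact mul_le_mul_of_nonneg_left (sum_geometric_two_le _) (by positivity)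
      have h0 : ((16 * cc 0 * ((ww (k + 1) + 2 * ww 0 + 2 * vv 0) / LL (0 + 1) + 2) *
          (2 * vv 0 + 1) : ℕ) : ℝ) ≤ 2 ^ 33 * (W / 2 ^ 40 + 22) := by
        have e1 : cc 0 = 2 ^ 29 := rfl
        have e2 : ww 0 = 10 * 2 ^ 40 := rfl
        have e3 : vv 0 = 0 := rfl
        have e4 : (((ww (k + 1) + 2 * (10 * 2 ^ 40) + 2 * 0) / 2 ^ 40 : ℕ) : ℝ) ≤
            W / 2 ^ 40 + 20 := by
          refine Nat.cast_div_le.trans ?_
          push_cast
          rw [← hW]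
          norm_num
          linarith
        rw [zero_add, LL1, e1, e2, e3]
        rw [Nat.cast_mul, Nat.cast_mul, Nat.cast_add]
        have e5 : ((16 * 2 ^ 29 : ℕ) : ℝ) = 2 ^ 33 := by norm_num
        have e6 : ((2 * 0 + 1 : ℕ) : ℝ) = 1 := by norm_num
        rw [e5, e6, mul_one]
        refine mul_le_mul_of_nonneg_left ?_ (by positivity)
        have e7 : ((2 : ℕ) : ℝ) = 2 := by norm_num
        rw [e7]
        linarith
      have hlast : ((2 * (2 * vv (k + 1) + 1) : ℕ) : ℝ) ≤ 42 * (LL (k + 1) : ℝ) := by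
        have hv := vv_le k
        push_cast
        linarith
      have h5 : (0 : ℝ) < (LL (k + 1) : ℝ) := lt_of_lt_of_le (by norm_num) hL40
      have h6 : (2 : ℝ) ^ 120 ≤ W := by
        calc (2 : ℝ) ^ 120 = 2 ^ 80 * 2 ^ 40 := by norm_num
          _ ≤ 2 ^ 80 * (LL (k + 1) : ℝ) := mul_le_mul_of_nonneg_left hL40 (by positivity)
          _ ≤ W := hW1
      have h7 : 42 * (LL (k + 1) : ℝ) ≤ W / 4 := by
        norm_num at hW1 ⊢
        linarith
      have h8 : (2 : ℝ) ^ 33 * (W / 2 ^ 40 + 22) ≤ W / 4 := by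
        norm_num at h6 ⊢
        linarith
      have h9 : W / 2 ^ 25 * 2 ≤ W / 4 := by
        norm_num
        linarith
      linarith
    exact_mod_cast hreal

end Pool.Agent.D9f
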