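import Pool.Agent.Lib.MP_d9c039_lc.F.SpecG

set_option autoImplicit false

/-!
# MP_d9c039_lc, F/Self: the packing of the self marks
-/

namespace Pool.Agent.D9f

open Finset
open Pool.Agent.D9 (cnt resp tabS)
open Pool.Agent.D9b (pendL drn plH LGood mList8 S_Plays S_Search S_Guess S_UM1 S_UM2 S_UM3 S_UC)
open Pool.Agent.D9c (mkH Enu)

/-- the number of the places of `slf` to the right of `t` -/
private theorem slf_count (S t : ℕ) (h16 : 16 ∣ S) (ht : t ≤ S) (K : List ℕ)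
    (hK : ∀ y, t ≤ y → slf S y → y ∈ K) :
    S - t < 16 * (K.countP (fun y => decide (t ≤ y ∧ y < S)) + 1) := by
  obtain ⟨u, rfl⟩ := h16
  obtain ⟨m, hm1, hm2, hm3⟩ : ∃ m, t ≤ m ∧ 8 * u ≤ m ∧ (m = t ∨ m = 8 * u) := by
    rcases Nat.le_total t (8 * u) with h | h
    · exact ⟨8 * u, h, le_rfl, Or.inr rfl⟩
    · exact ⟨t, le_rfl, h, Or.inl rfl⟩
  obtain ⟨w, hw⟩ : ∃ w, w = (16 * u - m + 2) / 8 := ⟨_, rfl⟩
  have h1 : ((List.range w).map (fun j => 16 * u - 6 - 8 * j)).Subperm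
      (K.filter (fun y => decide (t ≤ y ∧ y < 16 * u))) := by
    apply List.subperm_of_subset
    · apply List.Nodup.map_on _ List.nodup_range
      intro i hi j hj hij
      rw [List.mem_range] at hi hj
      omega
    · intro x hx
      rw [List.mem_map] at hx
      obtain ⟨j, hj, hjx⟩ := hx
      rw [List.mem_range] at hj
      have h2 : t ≤ x ∧ x < 16 * u := by omega
      rw [List.mem_filter]
      refine ⟨hK x h2.1 ?_, by simpa using h2⟩
      unfold slf
      omega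
  have h2 := h1.length_le
  rw [List.length_map, List.length_range, ← List.countP_eq_length_filter] at h2
  omega

/-- the last free place of `slf` before `n` -/
private theorem last_free (S : ℕ) (h : List (Bool × ℕ)) (n : ℕ) :
    ∃ t ≤ n, (t = 0 ∨ (1 ≤ t ∧ slf S (t - 1) ∧ (true, t - 1) ∉ h)) ∧
      ∀ y, t ≤ y → y < n → slf S y → (true, y) ∈ h := by
  induction n with
  | zero => exact ⟨0, le_rfl, Or.inl rfl, fun y _ h1 => absurd h1 (Nat.not_lt_zero _)⟩
  | succ n ih =>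
    by_cases hf : slf S n ∧ (true, n) ∉ h
    · refine ⟨n + 1, le_rfl, Or.inr ⟨by omega, ?_, ?_⟩, fun y h1 h2 => by omega⟩
      · rw [Nat.add_sub_cancel]
        exact hf.1
      · rw [Nat.add_sub_cancel]
        exact hf.2
    · obtain ⟨t, h1, h2, h3⟩ := ih
      refine ⟨t, by omega, h2, fun y h4 h5 h6 => ?_⟩
      by_cases h7 : y = n
      · subst h7
        by_contra h8
        exact hf ⟨h6, h8⟩
      · exact h3 y h4 (by omega) h6

private theorem pack_A (S : ℕ) (h : List (Bool × ℕ)) (x : ℕ) (hP : Pack S h) :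
    Pack S ((false, x) :: h) := by
  intro t ht hor
  have hold : t = 0 ∨ (1 ≤ t ∧ slf S (t - 1) ∧ (true, t - 1) ∉ h) := by
    rcases hor with h1 | ⟨h1, h2, h3⟩
    · exact Or.inl h1
    · exact Or.inr ⟨h1, h2, fun h4 => h3 (List.mem_cons_of_mem _ h4)⟩
  have h1 := hP t ht hold
  rw [Pool.Agent.D9c.mkH_cons_A, Pool.Agent.D9b.pendL_A, Pool.Agent.D9b.plH_cons_A, List.countP_cons]
  by_cases h2 : t ≤ x ∧ x < S
  · rw [if_pos h2, if_pos (decide_eq_true h2), List.length_cons]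
    omega
  · rw [if_neg h2, if_neg (by simpa using h2)]
    omega

private theorem pend_eq (S t x1 : ℕ) (h : List (Bool × ℕ)) (hmin : ∀ z ∈ pendL 0 S h, x1 ≤ z)
    (htx : t ≤ x1) : pendL t S h = pendL 0 S h := by
  rw [Pool.Agent.D9b.pendL_filter 0 t S h (Nat.zero_le _)]
  apply List.filter_eq_self.2
  intro z hz
  exact decide_eq_true (htx.trans (hmin z hz))

theorem tSelf : S_Self := by
  refine ⟨fun S h x hP => pack_A S h x hP, ?_⟩
  intro S h h16 _ hnd _ _ hP hlen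
  classical
  have hne : ∃ x, x ∈ pendL 0 S h := by
    have h1 : 0 < (pendL 0 S h).length := by omega
    obtain ⟨x, hx⟩ := List.exists_mem_of_length_pos h1
    exact ⟨x, hx⟩
  obtain ⟨x1, hx1, hmin⟩ : ∃ x1 ∈ pendL 0 S h, ∀ z ∈ pendL 0 S h, x1 ≤ z :=
    ⟨Nat.find hne, Nat.find_spec hne, fun z hz => Nat.find_min' hne hz⟩
  have hx1S := (Pool.Agent.D9b.pendL_range 0 S h x1 hx1).2
  have hex : ∃ y, x1 ≤ y ∧ slf S y ∧ (true, y) ∉ h := by
    by_contra hno
    push Not at hno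
    obtain ⟨t, ht1, ht2, ht3⟩ := last_free S h x1
    have h1 := hP t (by omega) ht2
    rw [pend_eq S t x1 h hmin ht1] at h1
    have h2 := Pool.Agent.D9b.countP_range_le (plH h) hnd t S
    have h3 := slf_count S t h16 (by omega) (mkH h) (fun y h4 h5 => by
      rw [Pool.Agent.D9c.mem_mkH]
      rcases Nat.lt_or_ge y x1 with h6 | h6
      · exact ht3 y h4 h6 h5
      · exact hno y h6 h5)
    omega
  obtain ⟨y, ⟨hy1, hy2, hy3⟩, hymin⟩ : ∃ y, (x1 ≤ y ∧ slf S y ∧ (true, y) ∉ h) ∧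
      ∀ z, (x1 ≤ z ∧ slf S z ∧ (true, z) ∉ h) → y ≤ z :=
    ⟨Nat.find hex, Nat.find_spec hex, fun z hz => Nat.find_min' hex hz⟩
  have hyS : y < S := hy2.1
  refine ⟨y, hy2, hy3, ⟨x1, hx1, hy1⟩, ?_⟩
  intro t ht hor
  have hold : t = 0 ∨ (1 ≤ t ∧ slf S (t - 1) ∧ (true, t - 1) ∉ h) := by
    rcases hor with h1 | ⟨h1, h2, h3⟩
    · exact Or.inl h1
    · exact Or.inr ⟨h1, h2, fun h4 => h3 (List.mem_cons_of_mem _ h4)⟩
  have h1 := hP t ht hold
  rw [Pool.Agent.D9c.mkH_cons_D, Pool.Agent.D9b.pendL_D, Pool.Agent.D9b.plH_cons_D, List.countP_cons,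
    if_pos hyS, List.length_nil]
  by_cases hty : t ≤ y
  · have htx : t ≤ x1 := by
      rcases hor with h2 | ⟨h2, h3, h4⟩
      · omega
      · by_contra h5
        have h6 : y ≤ t - 1 := hymin (t - 1) ⟨by omega, h3, fun h7 => h4 (List.mem_cons_of_mem _ h7)⟩
        omega
    rw [pend_eq S t x1 h hmin htx] at h1
    rw [if_pos (decide_eq_true ⟨hty, hyS⟩)]
    omega
  · have h2 : ¬ (decide (t ≤ y ∧ y < S) = true) := by
      rw [decide_eq_true_eq]
      exact fun h3 => hty h3.1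
    rw [if_neg h2]
    omega

end Pool.Agent.D9f
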