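import Pool.Agent.Lib.MP_d9c039_lc.F.SpecB

set_option autoImplicit false

/-!
# MP_d9c039_lc, the full statement: module Sig
-/

namespace Pool.Agent.D9f

open Finset

/-- **Sig**. -/
theorem tSig (h1 : S_Th) (h2 : S_Pay) : S_Sig := by
  intro X hX
  have hth : ∀ i c, 1 ≤ i → 0 ≤ X.D.th X.D.f i c ∧ X.D.th X.D.f i c ≤ 2 * zz / 2 ^ i :=
    fun i c hi => h1 X.D.toFz X.D.f i c hi
  have hA : ∀ i q, 1 ≤ i → 0 ≤ X.sig i q := by
    intro i q hi
    unfold CD.sig
    apply Finset.sum_nonneg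
    intro x hx
    rw [Finset.mem_filter] at hx
    exact mul_nonneg (hth i _ hi).1 (h2 X hX x hx.1).1
  have hB : ∀ i, 1 ≤ i → ∑ q ∈ range (LL X.J), X.sig i q ≤ 8 * zz / 2 ^ i := by
    intro i hi
    have e : ∑ q ∈ range (LL X.J), X.sig i q =
        ∑ x ∈ X.JJ, X.D.th X.D.f i (x / 8) * X.del x := by
      unfold CD.sig
      apply Finset.sum_fiberwise_of_maps_to (s := X.JJ) (t := range (LL X.J))
        (g := fun x => x / 8 / LL i)
      intro x hx
      rw [Finset.mem_range]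
      exact lt_of_le_of_lt (Nat.div_le_self _ _) (hX.toOk0.lt (hX.adm x hx))
    rw [e]
    calc _ ≤ ∑ x ∈ X.JJ, 2 * zz / 2 ^ i * c0 := by
          apply Finset.sum_le_sum
          intro x hx
          have h3 := h2 X hX x hx
          exact mul_le_mul (hth i _ hi).2 h3.2.1 h3.1 (by have := zz_pos; positivity)
      _ = 2 * zz / 2 ^ i * (2 ^ 43 * c0) := by
          rw [Finset.sum_const, nsmul_eq_mul, hX.card]
          push_cast
          ring
      _ = 8 * zz / 2 ^ i := by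
          rw [nJ_c0]
          ring
  refine ⟨hA, hB, ?_⟩
  calc _ ≤ ∑ i ∈ Icc 1 X.J, 8 * zz * (1 / 2 ^ i) := by
        apply Finset.sum_le_sum
        intro i hi
        have h3 := hB i (Finset.mem_Icc.mp hi).1
        rw [mul_one_div]
        exact h3
    _ = 8 * zz * ∑ i ∈ Icc 1 X.J, (1 : ℝ) / 2 ^ i := (Finset.mul_sum _ _ _).symm
    _ ≤ 8 * zz * 1 := mul_le_mul_of_nonneg_left (sum_geo _) (by have := zz_pos; positivity)
    _ = 8 * zz := mul_one _

end Pool.Agent.D9f
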