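import Pool.Agent.Lib.MP_d9c039_lc.F.SpecB

set_option autoImplicit false

/-!
# MP_d9c039_lc, the full statement: module Sup
-/

namespace Pool.Agent.D9f

open Finset

theorem tSup (h1 : S_ThEq) : S_Sup := by
  intro X hX i q hi hiJ hne
  unfold CD.sig at hne
  obtain ⟨x, hx, hxne⟩ := Finset.exists_ne_zero_of_sum_ne_zero hne
  rw [Finset.mem_filter] at hx
  obtain ⟨hxJ, hxq⟩ := hx
  have hadm := (hX.adm x hxJ).2.2.1
  have hth : X.D.th X.D.f i (x / 8) ≠ 0 := left_ne_zero_of_mul hxne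
  have hle : i ≤ X.jb := by
    by_contra hlt
    push Not at hlt
    have hcl : X.D.cl X.jb X.qb := by
      rcases hX.top with h | h
      · exact h
      · omega
    apply hth
    rw [h1.2 X.D.toFz X.D.f X.jb i (x / 8) hX.jb1 hlt.le]
    refine mul_eq_zero_of_right _ (Finset.prod_eq_zero (i := X.jb) (Finset.mem_Ico.mpr ⟨le_rfl, hlt⟩) ?_)
    rw [hadm]
    exact Fz.ep_cl hcl
  refine ⟨hle, ?_, x, hxJ, hxq⟩
  rw [← hxq, div_sub hle, hadm]

end Pool.Agent.D9f
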