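import Pool.Agent.Lib.MP_d9c039_lc.F.SpecG

set_option autoImplicit false

/-!
# MP_d9c039_lc, the full statement: computability of the sizes
-/

namespace Pool.Agent.D9f

open Finset
open Pool.Agent.D9 (cnt resp tabS)
open Pool.Agent.D9b (pendL drn plH LGood mList8 S_Plays S_Search S_Guess S_UM1 S_UM2 S_UM3 S_UC)
open Pool.Agent.D9c (mkH Enu)

private theorem szc_pow2 : Primrec (fun n : ℕ => 2 ^ n) :=
  (Primrec.nat_rec₁ (f := fun _ y => 2 * y) 1
    (Primrec.nat_mul.comp (Primrec.const 2) Primrec.snd).to₂).of_eq fun n => by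
      induction n with
      | zero => rfl
      | succ n ih =>
        change 2 * (Nat.rec 1 (fun _ y => 2 * y) n : ℕ) = 2 ^ (n + 1)
        rw [ih, pow_succ']

private theorem szc_pow4 : Primrec (fun n : ℕ => 4 ^ n) :=
  (Primrec.nat_rec₁ (f := fun _ y => 4 * y) 1
    (Primrec.nat_mul.comp (Primrec.const 4) Primrec.snd).to₂).of_eq fun n => by
      induction n with
      | zero => rfl
      | succ n ih =>
        change 4 * (Nat.rec 1 (fun _ y => 4 * y) n : ℕ) = 4 ^ (n + 1)
        rw [ih, pow_succ']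

private theorem szc_succ (L : ℕ) : Sz (L + 1) = Sz L + 8 * 2 ^ (40 * 4 ^ L) := rfl

private theorem szc_Sz : Primrec Sz :=
  (Primrec.nat_rec₁ (f := fun L y => y + 8 * 2 ^ (40 * 4 ^ L)) 16
    (Primrec.nat_add.comp Primrec.snd (Primrec.nat_mul.comp (Primrec.const 8)
      (szc_pow2.comp (Primrec.nat_mul.comp (Primrec.const 40)
        (szc_pow4.comp Primrec.fst))))).to₂).of_eq fun n => by
      induction n with
      | zero => rfl
      | succ n ih =>
        rw [szc_succ, ← ih]

private theorem szc_fm {α β : Type} (p : α → Bool) (f : α → β) (l : List α) :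
    l.filterMap (fun x => if p x = true then some (f x) else none) = (l.filter p).map f := by
  induction l with
  | nil => rfl
  | cons a l ih =>
    by_cases h : p a = true
    · rw [List.filterMap_cons_some (b := f a) (by rw [if_pos h]), ih, List.filter_cons_of_pos h,
        List.map_cons]
    · rw [List.filterMap_cons_none (by rw [if_neg h]), ih, List.filter_cons_of_neg h]

private theorem szc_CL (k : ℕ) : Primrec (fun L : ℕ =>
    ((List.range (Sz (L + 1))).filter (fun n => decide (Sz L ≤ n))).map (fun n => (n, k))) := by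
  have h : Primrec (fun q : ℕ => (List.range (Sz (q + 1))).filterMap (fun n =>
      if (decide (Sz q ≤ n)) = true then some (n, k) else none)) := by
    refine Primrec.listFilterMap (Primrec.list_range.comp (szc_Sz.comp Primrec.succ)) ?_
    refine Primrec.ite ?_ ?_ (Primrec.const none)
    · have h1 : PrimrecPred (fun w : ℕ × ℕ => Sz w.1 ≤ w.2) :=
        Primrec.nat_le.comp (szc_Sz.comp Primrec.fst) Primrec.snd
      exact h1.of_eq fun w => by simp
    · exact Primrec.option_some.comp (Primrec.snd.pair (Primrec.const k))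
  exact h.of_eq fun q => szc_fm _ _ _

private theorem szc_lt (L : ℕ) : L < Sz L := by
  induction L with
  | zero =>
    change 0 < 16
    norm_num
  | succ L ih =>
    rw [szc_succ]
    have : 0 < 2 ^ (40 * 4 ^ L) := Nat.two_pow_pos _
    omega

private theorem szc_le (L : ℕ) : Sz L ≤ 8 * 2 ^ (40 * 4 ^ L) := by
  induction L with
  | zero =>
    change 16 ≤ 8 * 2 ^ (40 * 4 ^ 0)
    norm_num
  | succ L ih =>
    rw [szc_succ]
    have h1 : 2 ^ (40 * 4 ^ (L + 1)) = 2 ^ (40 * 4 ^ L) * 2 ^ (120 * 4 ^ L) := by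
      rw [← pow_add]
      congr 1
      ring
    have h2 : 2 ≤ 2 ^ (120 * 4 ^ L) := by
      calc 2 = 2 ^ 1 := (pow_one 2).symm
        _ ≤ 2 ^ (120 * 4 ^ L) := by
          apply Nat.pow_le_pow_right (by norm_num)
          have : 0 < 4 ^ L := Nat.pow_pos (by norm_num)
          omega
    rw [h1]
    have h3 : 2 ^ (40 * 4 ^ L) * 2 ≤ 2 ^ (40 * 4 ^ L) * 2 ^ (120 * 4 ^ L) :=
      Nat.mul_le_mul_left _ h2
    omega

theorem tSzC : S_SzC := by
  refine ⟨szc_Sz.to_comp, ?_, szc_lt, ?_, ?_⟩
  · exact (szc_CL (kk + 16)).to_comp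
  · intro L
    have := szc_le L
    rw [szc_succ]
    omega
  · intro n hn
    classical
    have hex : ∃ L, n < Sz (L + 1) :=
      ⟨n, (Nat.lt_succ_self n).trans (szc_lt (n + 1))⟩
    have h1 : n < Sz (Nat.find hex + 1) := Nat.find_spec hex
    refine ⟨Nat.find hex, ?_, h1⟩
    rcases Nat.eq_zero_or_pos (Nat.find hex) with h0 | h0
    · rw [h0]
      exact hn
    · have h2 := Nat.find_min hex (Nat.sub_lt h0 one_pos)
      have h3 : Nat.find hex - 1 + 1 = Nat.find hex := by omega
      rw [h3] at h2
      omega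

end Pool.Agent.D9f
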