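import Pool.Agent.Lib.MP_d9c039_lc.F.SpecB

set_option autoImplicit false

/-!
# MP_d9c039_lc, the full statement: total variation of the cell values
-/

namespace Pool.Agent.D9f

open Finset

private theorem del_out {X : CD} {x : ℕ} (hx : x ∉ X.JJ) : X.del x = 0 := if_neg hx

private theorem del_nonneg (h1 : S_Pay) {X : CD} (h : X.Ok) (x : ℕ) : 0 ≤ X.del x := by
  by_cases hx : x ∈ X.JJ
  · exact (h1 X h x hx).1
  · rw [del_out hx]

private theorem ref_nonneg (h2 : S_RI3) (h3 : S_KBd) {X : CD} (h : X.Ok) (x : ℕ) :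
    0 ≤ (if x ∈ X.T then c0 * (X.r x * X.K x) else 0) := by
  split_ifs with hx
  · exact mul_nonneg c0_pos.le (mul_nonneg (h2 X h x hx).1 ((h3 X h).1 x).1)
  · exact le_rfl

private theorem ref_le (h2 : S_RI3) (h3 : S_KBd) {X : CD} (h : X.Ok) (x : ℕ) :
    (if x ∈ X.T then c0 * (X.r x * X.K x) else 0) ≤ (if x ∈ X.T then c0 * X.K x else 0) := by
  split_ifs with hx
  · refine mul_le_mul_of_nonneg_left ?_ c0_pos.le
    have := (h2 X h x hx).2.1
    have h5 := ((h3 X h).1 x).1
    nlinarith
  · exact le_rfl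

private theorem k_nonneg (h3 : S_KBd) {X : CD} (h : X.Ok) (x : ℕ) :
    0 ≤ (if x ∈ X.T then c0 * X.K x else 0) := by
  split_ifs with hx
  · exact mul_nonneg c0_pos.le ((h3 X h).1 x).1
  · exact le_rfl

theorem tTV (h1 : S_Pay) (h2 : S_RI3) (h3 : S_KBd) (h4 : S_Cell) : S_TV := by
  intro X h j q
  obtain ⟨c1, c2, c3⟩ := h4 X h
  constructor
  · have hpt : ∀ c ∈ blk j q, max (X.D1.f c - X.D.f c) 0 ≤ (if c = X.yh then 1 else 0) +
        1 * ∑ x ∈ Ico (8 * c) (8 * c + 8), (if x ∈ X.T then c0 * X.K x else 0) := by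
      intro c _
      have hS : 0 ≤ ∑ x ∈ Ico (8 * c) (8 * c + 8), (if x ∈ X.T then c0 * X.K x else 0) :=
        Finset.sum_nonneg fun x _ => k_nonneg h3 h x
      have hI : (0 : ℝ) ≤ (if c = X.yh then 1 else 0) := by
        split_ifs <;> norm_num
      rw [one_mul]
      refine max_le ?_ (add_nonneg hI hS)
      by_cases hp : c ∈ X.D.pk
      · rw [c1 c hp, sub_self]
        exact add_nonneg hI hS
      · by_cases hy : c = X.yh
        · subst hy
          rw [if_pos rfl, c2.1]
          linarith [c2.2.1]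
        · rw [c3 c hp hy, if_neg hy, zero_add]
          refine Finset.sum_le_sum fun x _ => ?_
          linarith [del_nonneg h1 h x, ref_le h2 h3 h x]
    refine (Finset.sum_le_sum hpt).trans ?_
    rw [Finset.sum_add_distrib, sum_cells j q X.T (fun _ => 1) (fun x => c0 * X.K x)]
    refine add_le_add ?_ ?_
    · rw [Finset.sum_ite_eq']
      split_ifs <;> norm_num
    · refine le_trans ?_ (h3 X h).2.1
      rw [Finset.mul_sum]
      refine (Finset.sum_le_sum_of_subset_of_nonneg (Finset.filter_subset _ _) fun x _ _ => ?_).trans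
        (Finset.sum_le_sum fun x _ => le_of_eq (one_mul _))
      rw [one_mul]
      exact mul_nonneg c0_pos.le ((h3 X h).1 x).1
  · have hpt : ∀ c ∈ blk j q, max (X.D.f c - X.D1.f c) 0 ≤
        1 * ∑ x ∈ Ico (8 * c) (8 * c + 8), (if x ∈ X.JJ then X.del x else 0) := by
      intro c _
      have hS : 0 ≤ ∑ x ∈ Ico (8 * c) (8 * c + 8), (if x ∈ X.JJ then X.del x else 0) := by
        refine Finset.sum_nonneg fun x _ => ?_
        split_ifs
        · exact del_nonneg h1 h x
        · exact le_rfl
      rw [one_mul]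
      refine max_le ?_ hS
      by_cases hp : c ∈ X.D.pk
      · rw [c1 c hp, sub_self]
        exact hS
      · by_cases hy : c = X.yh
        · subst hy
          rw [c2.1]
          linarith [c2.2.2]
        · rw [← neg_sub, c3 c hp hy, ← Finset.sum_neg_distrib]
          refine Finset.sum_le_sum fun x _ => ?_
          have h5 := ref_nonneg h2 h3 h x
          by_cases hx : x ∈ X.JJ
          · rw [if_pos hx]
            linarith
          · rw [if_neg hx, del_out hx]
            linarith
    refine (Finset.sum_le_sum hpt).trans ?_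
    rw [sum_cells j q X.JJ (fun _ => 1) (fun x => X.del x)]
    have h6 : ∑ x ∈ X.JJ.filter (fun x => x / 8 / LL j = q), (1 : ℝ) * X.del x ≤
        ∑ x ∈ X.JJ, c0 := by
      refine (Finset.sum_le_sum_of_subset_of_nonneg (Finset.filter_subset _ _) fun x _ _ => ?_).trans
        (Finset.sum_le_sum fun x hx => ?_)
      · rw [one_mul]
        exact del_nonneg h1 h x
      · rw [one_mul]
        exact (h1 X h x hx).2.1
    refine h6.trans ?_
    rw [Finset.sum_const, h.card, nsmul_eq_mul]
    rw [Nat.cast_pow, Nat.cast_ofNat]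
    exact nJ_c0.le

end Pool.Agent.D9f

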