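import Pool.Agent.Lib.MP_d9c039_lc.F.SpecA

set_option autoImplicit false

/-!
# MP_d9c039_lc, the full statement: comparison of prices
-/

namespace Pool.Agent.D9f

open Finset

private theorem thCmp_aux (h1 : S_Th) (F : Fz) (f f' : ℕ → ℝ) (c : ℕ) (T : ℝ) (hT : 0 ≤ T) (k : ℕ)
    (h : ∀ i, 1 ≤ i → i < k + 1 →
      F.U f' i (c / LL i) - F.U f i (c / LL i) ≤ 2 * zz / 2 ^ i * T) :
    F.th f' (k + 1) c ≤ Real.exp (2 * zz * T * (1 - 2 / 2 ^ (k + 1))) * F.th f (k + 1) c := by
  induction k with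
  | zero =>
    rw [zero_add, F.th_one, F.th_one]
    norm_num
  | succ k ih =>
    have ih' := ih (fun i hi hik => h i hi (hik.trans (Nat.lt_succ_self _)))
    rw [F.th_succ, F.th_succ]
    have hz := zz_pos
    have t0 : 0 ≤ F.th f (k + 1) c := (h1 F f (k + 1) c (Nat.le_add_left 1 k)).1
    by_cases hcl : F.cl (k + 1) (c / LL (k + 1))
    · rw [Fz.ep_cl hcl, Fz.ep_cl hcl]
      simp
    · rw [Fz.ep_op hcl, Fz.ep_op hcl]
      set P : ℝ := 2 ^ (k + 1) with hP
      have hP0 : 0 < P := by positivity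
      have hk := h (k + 1) (Nat.le_add_left 1 k) (Nat.lt_succ_self _)
      have hsd : sd (F.U f' (k + 1) (c / LL (k + 1)) + uu (k + 1)) ≤
          sd (F.U f (k + 1) (c / LL (k + 1)) + uu (k + 1)) * Real.exp (2 * zz / P * T) := by
        apply sd_exp
        · linarith
        · positivity
      have hexp : Real.exp (2 * zz * T * (1 - 2 / 2 ^ (k + 1 + 1))) =
          Real.exp (2 * zz * T * (1 - 2 / P)) * Real.exp (2 * zz / P * T) := by
        rw [← Real.exp_add, pow_succ, ← hP]
        congr 1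
        field_simp
        ring
      rw [hexp]
      calc F.th f' (k + 1) c * sd (F.U f' (k + 1) (c / LL (k + 1)) + uu (k + 1))
          ≤ (Real.exp (2 * zz * T * (1 - 2 / P)) * F.th f (k + 1) c) *
            (sd (F.U f (k + 1) (c / LL (k + 1)) + uu (k + 1)) * Real.exp (2 * zz / P * T)) := by
            apply mul_le_mul ih' hsd (sd_pos _).le
            exact mul_nonneg (Real.exp_pos _).le t0
        _ = _ := by ring

theorem tThCmp (h1 : S_Th) : S_ThCmp := by
  intro F f f' j c T hj hT h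
  obtain ⟨k, rfl⟩ := Nat.exists_eq_add_of_le' hj
  have t0 : 0 ≤ F.th f (k + 1) c := (h1 F f (k + 1) c hj).1
  refine (thCmp_aux h1 F f f' c T hT k h).trans (mul_le_mul_of_nonneg_right ?_ t0)
  apply Real.exp_le_exp.mpr
  have hz := zz_pos
  have h2 : (0 : ℝ) ≤ 2 / 2 ^ (k + 1) := by positivity
  have h3 : 0 ≤ 2 * zz * T := by positivity
  nlinarith

end Pool.Agent.D9f
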