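import Pool.Agent.Lib.MP_d9c039_lc.F.SpecA

set_option autoImplicit false

/-!
# MP_d9c039_lc, the full statement: module ThEq (helper56)
-/

namespace Pool.Agent.D9f

open Finset

private theorem thEq_one (F : Fz) (f : ℕ → ℝ) (c : ℕ) : ∀ j : ℕ,
    (∀ i, 1 ≤ i → i < j + 1 → ¬ F.cl i (c / LL i)) →
    F.th f (j + 1) c = 2 * zz / 2 ^ (j + 1) *
      Real.exp (∑ i ∈ Ico 1 (j + 1), min (F.U f i (c / LL i) + uu i) 0) := by
  intro j
  induction j with
  | zero =>
    intro _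
    have h1 : Ico 1 (0 + 1) = (∅ : Finset ℕ) := Finset.Ico_self 1
    have h2 : (2 : ℝ) * zz / 2 ^ (0 + 1) = zz := by
      rw [zero_add, pow_one, mul_div_cancel_left₀ _ two_ne_zero]
    rw [h1, Finset.sum_empty, Real.exp_zero, mul_one, h2]
    exact Fz.th_one F f c
  | succ j ih =>
    intro h
    have h1 := ih fun i h2 h3 => h i h2 (by omega)
    have h2 : ¬ F.cl (j + 1) (c / LL (j + 1)) := h (j + 1) (by omega) (by omega)
    have h3 : F.th f (j + 1 + 1) c = F.th f (j + 1) c * F.ep f (j + 1) (c / LL (j + 1)) :=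
      Fz.th_succ F f j c
    rw [h3, h1, Fz.ep_op h2, Finset.sum_Ico_succ_top (by omega : 1 ≤ j + 1), Real.exp_add,
      pow_succ 2 (j + 1)]
    unfold sd
    generalize Real.exp (∑ i ∈ Ico 1 (j + 1), min (F.U f i (c / LL i) + uu i) 0) = A
    generalize Real.exp (min (F.U f (j + 1) (c / LL (j + 1)) + uu (j + 1)) 0) = B
    have h4 : (2 : ℝ) ^ (j + 1) ≠ 0 := pow_ne_zero _ two_ne_zero
    generalize (2 : ℝ) ^ (j + 1) = P at h4 ⊢
    generalize zz = z
    field_simp

private theorem thEq_two (F : Fz) (f : ℕ → ℝ) (c : ℕ) (i : ℕ) : ∀ k : ℕ,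
    F.th f (i + 1 + k) c = F.th f (i + 1) c * ∏ l ∈ Ico (i + 1) (i + 1 + k),
      F.ep f l (c / LL l) := by
  intro k
  induction k with
  | zero =>
    rw [add_zero, Finset.Ico_self, Finset.prod_empty, mul_one]
  | succ k ih =>
    have h1 : i + 1 + (k + 1) = i + k + 2 := by omega
    have h2 : i + 1 + k = i + k + 1 := by omega
    rw [h2] at ih
    have h3 : F.th f (i + k + 2) c = F.th f (i + k + 1) c * F.ep f (i + k + 1)
        (c / LL (i + k + 1)) := Fz.th_succ F f (i + k) c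
    have h4 : Ico (i + 1) (i + k + 2) = Ico (i + 1) (i + k + 1 + 1) := rfl
    rw [h1, h3, ih, h4, Finset.prod_Ico_succ_top (by omega : i + 1 ≤ i + k + 1), mul_assoc]

theorem tThEq : S_ThEq := by
  constructor
  · intro F f j c hj h
    obtain ⟨k, rfl⟩ : ∃ k, j = k + 1 := ⟨j - 1, by omega⟩
    exact thEq_one F f c k h
  · intro F f i j c hi hij
    obtain ⟨a, rfl⟩ : ∃ a, i = a + 1 := ⟨i - 1, by omega⟩
    obtain ⟨k, rfl⟩ : ∃ k, j = a + 1 + k := ⟨j - (a + 1), by omega⟩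
    exact thEq_two F f c a k

end Pool.Agent.D9f
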