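import Pool.Agent.Lib.MP_d9c039_lc.F.SpecG

set_option autoImplicit false

/-!
# MP_d9c039_lc, the full statement: the pending tokens of a history

Author: helper78 (statement and plan: helper23).
-/

namespace Pool.Agent.D9f

open Finset
open Pool.Agent.D9 (cnt resp tabS)
open Pool.Agent.D9b (pendL drn plH LGood mList8 S_Plays S_Search S_Guess S_UM1 S_UM2 S_UM3 S_UC)
open Pool.Agent.D9c (mkH Enu)

private theorem mem_er (S : ℕ) (h : List (Bool × ℕ)) (x : ℕ) :
    x ∈ er S h ↔ x + S ∈ plH h := by
  unfold er
  rw [List.mem_toFinset, List.mem_map]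
  constructor
  · rintro ⟨z, hz, rfl⟩
    rw [List.mem_filter, decide_eq_true_eq] at hz
    rw [Nat.sub_add_cancel hz.2]
    exact hz.1
  · intro hx
    refine ⟨x + S, ?_, Nat.add_sub_cancel x S⟩
    rw [List.mem_filter, decide_eq_true_eq]
    exact ⟨hx, Nat.le_add_left S x⟩

private theorem part1 (S N : ℕ) (n : ℕ) (h1 : 1 ≤ n) (hN : n ≤ N) (h : List (Bool × ℕ)) :
    (plH h).Nodup → ∀ x, x ∈ PP (er S h) (pr S N h) n ↔ x + S ∈ pendL S (n + S) h := by
  induction h with
  | nil =>
    intro _ x
    rw [mem_PP, mem_er, D9b.plH_nil, D9b.pendL_nil]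
    simp
  | cons e t ih =>
    obtain ⟨m, y⟩ := e
    cases m
    · intro hd x
      rw [D9b.plH_cons_A, List.nodup_cons] at hd
      have hi := ih hd.2 x
      rw [mem_PP, mem_er] at hi
      rw [mem_PP, mem_er, D9b.plH_cons_A, D9b.pendL_A, List.mem_cons]
      show (x + S = y ∨ x + S ∈ plH t) ∧ x < n ∧ n ≤ (if y = x + S then N else pr S N t x) ↔ _
      by_cases hy : y = x + S
      · rw [if_pos hy]
        by_cases hx : x < n
        · rw [if_pos ⟨by omega, by omega⟩, List.mem_cons]
          exact ⟨fun _ => Or.inl hy.symm, fun _ => ⟨Or.inl hy.symm, hx, hN⟩⟩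
        · rw [if_neg (by omega)]
          constructor
          · exact fun h => absurd h.2.1 hx
          · intro h
            exfalso
            have h3 := D9b.pendL_mem_pl _ _ _ _ h
            rw [← hy] at h3
            exact hd.1 h3
      · rw [if_neg hy]
        have hy' : ¬ x + S = y := fun h => hy h.symm
        have h4 : (x + S ∈ if S ≤ y ∧ y < n + S then y :: pendL S (n + S) t
            else pendL S (n + S) t) ↔ x + S ∈ pendL S (n + S) t := by
          split_ifs
          · rw [List.mem_cons, or_iff_right hy']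
          · rfl
        rw [h4, ← hi, or_iff_right hy']
    · intro hd x
      rw [D9b.plH_cons_D] at hd
      have hi := ih hd x
      rw [mem_PP, mem_er] at hi
      rw [mem_PP, mem_er, D9b.plH_cons_D, D9b.pendL_D]
      show x + S ∈ plH t ∧ x < n ∧ n ≤ min (pr S N t x) (y - S) ↔ _
      by_cases hy : y < n + S
      · rw [if_pos hy]
        constructor
        · rintro ⟨_, _, h3⟩
          have := le_min_iff.mp h3
          omega
        · intro h
          exact absurd h List.not_mem_nil
      · rw [if_neg hy, ← hi, le_min_iff]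
        constructor
        · rintro ⟨h2, h3, h4, _⟩
          exact ⟨h2, h3, h4⟩
        · rintro ⟨h2, h3, h4⟩
          exact ⟨h2, h3, h4, by omega⟩

theorem tTr : S_Tr := by
  intro S N h n hd h1 hN
  have hp := part1 S N n h1 hN h hd
  refine ⟨hp, ?_⟩
  have h2 : (PP (er S h) (pr S N h) n).map (addRightEmbedding S) =
      (pendL S (n + S) h).toFinset := by
    ext z
    rw [Finset.mem_map, List.mem_toFinset]
    constructor
    · rintro ⟨x, hx, rfl⟩
      exact (hp x).1 hx
    · intro hz
      have h3 := (D9b.pendL_range _ _ _ _ hz).1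
      refine ⟨z - S, (hp _).2 ?_, Nat.sub_add_cancel h3⟩
      rw [Nat.sub_add_cancel h3]
      exact hz
  rw [← Finset.card_map (addRightEmbedding S), h2, List.toFinset_card_of_nodup]
  exact hd.sublist (D9b.pendL_sublist _ _ _)

end Pool.Agent.D9f
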