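import Pool.Agent.Lib.MP_d9c039_lc.F.SpecG

set_option autoImplicit false

/-!
# MP_d9c039_lc, the full statement, module TrS: `er` and `pr` after an event
-/

namespace Pool.Agent.D9f

open Finset
open Pool.Agent.D9 (cnt resp tabS)
open Pool.Agent.D9b (pendL drn plH LGood mList8 S_Plays S_Search S_Guess S_UM1 S_UM2 S_UM3 S_UC)
open Pool.Agent.D9c (mkH Enu)

private theorem mem_er {S : ℕ} {h : List (Bool × ℕ)} {x : ℕ} : x ∈ er S h ↔ x + S ∈ plH h := by
  unfold er
  rw [List.mem_toFinset, List.mem_map]
  constructor
  · rintro ⟨y, hy, rfl⟩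
    obtain ⟨h1, h2⟩ := List.mem_filter.mp hy
    have h3 : S ≤ y := of_decide_eq_true h2
    rw [Nat.sub_add_cancel h3]
    exact h1
  · intro hx
    exact ⟨x + S, List.mem_filter.mpr ⟨hx, decide_eq_true (Nat.le_add_left S x)⟩,
      Nat.add_sub_cancel x S⟩

private theorem plH_A (y : ℕ) (h : List (Bool × ℕ)) : plH ((false, y) :: h) = y :: plH h := rfl

private theorem plH_D (y : ℕ) (h : List (Bool × ℕ)) : plH ((true, y) :: h) = plH h := rfl

theorem tTrS : S_TrS := by
  intro S N h y
  refine ⟨fun hy => ⟨?_, ?_⟩, fun hy => ⟨?_, ?_⟩, ?_, ?_, fun x => mem_er⟩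
  · ext x
    rw [mem_er, Finset.mem_insert, mem_er, plH_A, List.mem_cons]
    constructor
    · rintro (h1 | h1)
      · left
        omega
      · exact Or.inr h1
    · rintro (h1 | h1)
      · left
        omega
      · exact Or.inr h1
  · funext x
    rw [Function.update_apply]
    change (if y = x + S then N else pr S N h x) = _
    by_cases h1 : y = x + S
    · rw [if_pos h1, if_pos (by omega)]
    · rw [if_neg h1, if_neg (by omega)]
  · ext x
    rw [mem_er, mem_er, plH_A, List.mem_cons]
    constructor
    · rintro (h1 | h1)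
      · omega
      · exact h1
    · exact Or.inr
  · funext x
    change (if y = x + S then N else pr S N h x) = _
    rw [if_neg (by omega)]
  · ext x
    rw [mem_er, mem_er, plH_D]
  · intro x
    rfl

end Pool.Agent.D9f
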