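import Pool.Agent.Lib.MP_d9c039_lc.F.SpecA

set_option autoImplicit false

/-!
# MP_d9c039_lc, the full statement: module URle
-/

namespace Pool.Agent.D9f

open Finset

/-- the value of a cell grows with the set of the full tokens -/
private theorem fS_mono {pk : Finset ℕ} {e : ℕ → ℝ} (he : ∀ x, e x ≤ E0) (S : Finset ℕ) (c : ℕ) :
    fS pk e ∅ c ≤ fS pk e S c := by
  unfold fS
  split_ifs with h
  · exact le_rfl
  · apply Finset.sum_le_sum
    intro x _
    rw [if_neg (Finset.notMem_empty x)]
    split_ifs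
    · exact he x
    · exact le_rfl

/-- the growth of a cell -/
private theorem fS_diff {pk : Finset ℕ} {e : ℕ → ℝ} (S : Finset ℕ)
    (hS : ∀ x ∈ S, E0 - e x ≤ c0) (c : ℕ) :
    max (fS pk e S c - fS pk e ∅ c) 0 ≤ c0 * ((S.filter (fun x => x / 8 = c)).card : ℝ) := by
  have h0 : 0 ≤ c0 * ((S.filter (fun x => x / 8 = c)).card : ℝ) :=
    mul_nonneg c0_pos.le (Nat.cast_nonneg _)
  apply max_le _ h0
  unfold fS
  split_ifs with h
  · rw [sub_self]
    exact h0
  · rw [← Finset.sum_sub_distrib]
    calc _ ≤ ∑ x ∈ Ico (8 * c) (8 * c + 8), (if x ∈ S then c0 else 0) := by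
          apply Finset.sum_le_sum
          intro x _
          rw [if_neg (Finset.notMem_empty x)]
          split_ifs with h1
          · exact hS x h1
          · rw [sub_self]
      _ = ∑ x ∈ (Ico (8 * c) (8 * c + 8)).filter (fun x => x ∈ S), c0 :=
          (Finset.sum_filter _ _).symm
      _ = c0 * (((Ico (8 * c) (8 * c + 8)).filter (fun x => x ∈ S)).card : ℝ) := by
          rw [Finset.sum_const, nsmul_eq_mul, mul_comm]
      _ ≤ _ := by
          apply mul_le_mul_of_nonneg_left _ c0_pos.le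
          apply Nat.cast_le.mpr
          apply Finset.card_le_card
          intro x hx
          rw [Finset.mem_filter, Finset.mem_Ico] at hx
          rw [Finset.mem_filter]
          exact ⟨hx.2, by omega⟩

/-- the cells of the tokens of `S` -/
private theorem fib (S B : Finset ℕ) :
    ∑ c ∈ B, (S.filter (fun x => x / 8 = c)).card ≤ S.card := by
  calc ∑ c ∈ B, (S.filter (fun x => x / 8 = c)).card
      = ∑ c ∈ B, ∑ x ∈ S, (if x / 8 = c then 1 else 0) :=
        Finset.sum_congr rfl (fun c _ => Finset.card_filter _ _)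
    _ = ∑ x ∈ S, ∑ c ∈ B, (if x / 8 = c then 1 else 0) := Finset.sum_comm
    _ ≤ ∑ x ∈ S, 1 := by
        apply Finset.sum_le_sum
        intro x _
        rw [Finset.sum_ite_eq]
        split_ifs
        · exact le_rfl
        · exact Nat.zero_le _
    _ = S.card := by rw [Finset.sum_const, smul_eq_mul, Nat.mul_one]

/-- **URle**. -/
theorem tURle (h1 : S_Lip) : S_URle := by
  obtain ⟨hL1, _, hL3⟩ := h1
  intro J en p D hP i q hi
  have hle : ∀ x, D.e x ≤ E0 := fun x => (hP.e0 x).2
  constructor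
  · exact hL3 D.toFz D.f _ i q (fun c _ => fS_mono hle _ c)
  · obtain ⟨n, hn⟩ : ∃ n, n = 8 * ((q + 1) * LL i) := ⟨_, rfl⟩
    have h2 := hL1 D.toFz D.f (fS D.pk D.e (PP en p n)) i q hi
    have hS : ∀ x ∈ PP en p n, E0 - D.e x ≤ c0 := by
      intro x hx
      obtain ⟨hx1, hx2, hx3⟩ := mem_PP.mp hx
      have h5 := hP.alive x hx1 (lt_of_lt_of_le hx2 hx3)
      rw [E0_eq]
      linarith
    have h3 : ∑ c ∈ blk i q, max (fS D.pk D.e (PP en p n) c - D.f c) 0 ≤ 129 := by
      calc _ ≤ ∑ c ∈ blk i q, c0 * (((PP en p n).filter (fun x => x / 8 = c)).card : ℝ) :=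
            Finset.sum_le_sum (fun c _ => fS_diff _ hS c)
        _ = c0 * ((∑ c ∈ blk i q, ((PP en p n).filter (fun x => x / 8 = c)).card : ℕ) : ℝ) := by
            rw [Nat.cast_sum, Finset.mul_sum]
        _ ≤ c0 * (kk : ℝ) := by
            apply mul_le_mul_of_nonneg_left _ c0_pos.le
            exact Nat.cast_le.mpr ((fib _ _).trans (hP.cntw n))
        _ ≤ 129 := by
            rw [mul_comm]
            exact kk_c0
    have h4 : 2 * zz / 2 ^ i * ∑ c ∈ blk i q, max (fS D.pk D.e (PP en p n) c - D.f c) 0 ≤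
        2 * zz / 2 ^ i * 129 :=
      mul_le_mul_of_nonneg_left h3 (by have := zz_pos; positivity)
    have h5 : D.UR en p i q = D.U (fS D.pk D.e (PP en p n)) i q := by
      rw [hn]
      rfl
    rw [h5]
    linarith

end Pool.Agent.D9f
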