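import Pool.Agent.Lib.MP_d9c039_lc.F.SpecC

set_option autoImplicit false

/-!
# MP_d9c039_lc, module VioF: facts about a violation
-/

namespace Pool.Agent.D9f

open Finset

private theorem kk_eq : kk = 2 ^ 48 + 16 := rfl

theorem tVioF : S_VioF := by
  intro J en p D n0 hI hk
  have hne : (PP en p n0).Nonempty := by
    rw [← Finset.card_pos]
    exact lt_of_lt_of_le (by rw [kk_eq]; positivity) hk
  refine ⟨?_, ?_⟩
  · obtain ⟨x, hx⟩ := hne
    rw [mem_PP] at hx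
    exact hx.2.2.trans (hI.ple x hx.1)
  have hx1 := Finset.min'_mem _ hne
  have hmin : ∀ x ∈ PP en p n0, (PP en p n0).min' hne ≤ x := fun x hx => Finset.min'_le _ x hx
  generalize (PP en p n0).min' hne = x1 at hx1 hmin
  have hx1n : x1 < n0 := (mem_PP.mp hx1).2.1
  have hsub : PP en p n0 ⊆ ((PP en p n0).filter (fun x => x1 / 8 < x / 8 ∧ x / 8 < (n0 - 1) / 8) ∪
      Ico (8 * (x1 / 8)) (8 * (x1 / 8) + 8)) ∪ Ico (8 * ((n0 - 1) / 8)) (8 * ((n0 - 1) / 8) + 8) := by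
    intro x hx
    have h1 := hmin x hx
    have h2 := (mem_PP.mp hx).2.1
    rw [Finset.mem_union, Finset.mem_union, Finset.mem_filter, Finset.mem_Ico, Finset.mem_Ico]
    by_cases h3 : x / 8 = x1 / 8
    · left; right; omega
    · by_cases h4 : x / 8 = (n0 - 1) / 8
      · right; omega
      · left; left
        refine ⟨hx, ?_, ?_⟩ <;> omega
  have hc1 := Finset.card_le_card hsub
  have hc2 := Finset.card_union_le ((PP en p n0).filter (fun x => x1 / 8 < x / 8 ∧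
    x / 8 < (n0 - 1) / 8) ∪ Ico (8 * (x1 / 8)) (8 * (x1 / 8) + 8))
    (Ico (8 * ((n0 - 1) / 8)) (8 * ((n0 - 1) / 8) + 8))
  have hc3 := Finset.card_union_le ((PP en p n0).filter (fun x => x1 / 8 < x / 8 ∧
    x / 8 < (n0 - 1) / 8)) (Ico (8 * (x1 / 8)) (8 * (x1 / 8) + 8))
  rw [Nat.card_Ico] at hc2 hc3
  have hsub2 : (PP en p n0).filter (fun x => x1 / 8 < x / 8 ∧ x / 8 < (n0 - 1) / 8) ⊆
      Ico (8 * (x1 / 8 + 1)) (8 * ((n0 - 1) / 8)) := by
    intro x hx
    rw [Finset.mem_filter] at hx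
    rw [Finset.mem_Ico]
    omega
  have hc4 := Finset.card_le_card hsub2
  rw [Nat.card_Ico] at hc4
  rw [kk_eq] at hk
  have h48 : 2 ^ 48 ≤ ((PP en p n0).filter (fun x => x1 / 8 < x / 8 ∧
    x / 8 < (n0 - 1) / 8)).card := by omega
  refine ⟨x1, x1 / 8, (n0 - 1) / 8, hx1, by omega, by omega, h48, ?_⟩
  have := h48.trans hc4
  omega

end Pool.Agent.D9f
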