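import Pool.Agent.Lib.MP_d9c039_lc.F.SpecA

set_option autoImplicit false

/-!
# MP_d9c039_lc, the full statement, module VisTh: prices of two visible cells (helper95)
-/

namespace Pool.Agent.D9f

open Finset

/-- The levels at which the blocks differ. -/
private theorem dif_eq {J j' c m : ℕ} (hj : j' ≤ J) (he : c / LL j' = m / LL j')
    (hne : ∀ i, 1 ≤ i → i < j' → c / LL i ≠ m / LL i) : dif J c m = Ico 1 j' := by
  ext i
  rw [mem_dif, Finset.mem_Ico]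
  constructor
  · rintro ⟨⟨h1, _⟩, h3⟩
    refine ⟨h1, ?_⟩
    by_contra h4
    exact h3 (div_up (not_lt.mp h4) he)
  · rintro ⟨h1, h2⟩
    exact ⟨⟨h1, (h2.trans_le hj).le⟩, hne i h1 h2⟩

/-- Prices of two visible cells. -/
theorem tVisTh (_h1 : S_Th) (h2 : S_ThEq) : S_VisTh := by
  classical
  intro F f J j c m r hj1 hjJ hjcm hcl hr
  have hex : ∃ i, 1 ≤ i ∧ c / LL i = m / LL i := ⟨j, hj1, hjcm⟩
  obtain ⟨j', hj', hmin⟩ : ∃ j', (1 ≤ j' ∧ c / LL j' = m / LL j') ∧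
      ∀ i, 1 ≤ i → i < j' → c / LL i ≠ m / LL i :=
    ⟨Nat.find hex, Nat.find_spec hex, fun i h1 h3 h4 => Nat.find_min hex h3 ⟨h1, h4⟩⟩
  obtain ⟨hj'1, hj'e⟩ := hj'
  have hj'j : j' ≤ j := by
    by_contra h
    exact hmin j hj1 (not_le.mp h) hjcm
  rw [dif_eq (hj'j.trans hjJ) hj'e hmin] at hr
  have hopc : ∀ i, 1 ≤ i → i < j' → ¬ F.cl i (c / LL i) := fun i h1 h3 h4 =>
    hmin i h1 h3 (hcl i h1 ((h3.trans_le hj'j).le.trans hjJ) (Or.inl h4))
  have hopm : ∀ i, 1 ≤ i → i < j' → ¬ F.cl i (m / LL i) := fun i h1 h3 h4 =>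
    hmin i h1 h3 (hcl i h1 ((h3.trans_le hj'j).le.trans hjJ) (Or.inr h4))
  have hle : r * F.th f j' c ≤ F.th f j' m := by
    rw [h2.1 F f j' c hj'1 hopc, h2.1 F f j' m hj'1 hopm, mul_left_comm]
    refine mul_le_mul_of_nonneg_left hr ?_
    have := zz_pos
    positivity
  have hprod : ∏ l ∈ Ico j' j, F.ep f l (c / LL l) = ∏ l ∈ Ico j' j, F.ep f l (m / LL l) := by
    refine Finset.prod_congr rfl fun l hl => ?_
    rw [div_up (Finset.mem_Ico.mp hl).1 hj'e]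
  rw [h2.2 F f j' j c hj'1 hj'j, h2.2 F f j' j m hj'1 hj'j, hprod, ← mul_assoc]
  exact mul_le_mul_of_nonneg_right hle (Finset.prod_nonneg fun l _ => Fz.ep_nonneg F f l _)

end Pool.Agent.D9f
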