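import Pool.Agent.Lib.MP_d9c039_lc.Enum
import Pool.Agent.Lib.MP_d9c039_lc.V2.Plays
import Pool.Agent.Lib.MP_d9c039_lc.V2.PrimChk
import Pool.Agent.Lib.MP_d9c039_lc.V2.Search
import Pool.Agent.Lib.MP_d9c039_lc.V2.Guess
import Pool.Agent.Lib.MP_d9c039_lc.V2.UM1
import Pool.Agent.Lib.MP_d9c039_lc.V2.UM2
import Pool.Agent.Lib.MP_d9c039_lc.V2.UM3
import Pool.Agent.Lib.MP_d9c039_lc.V2.UC
import Pool.Agent.Lib.MP_d9c039_lc.F.Conv
import Pool.Agent.Lib.MP_d9c039_lc.F.Th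
import Pool.Agent.Lib.MP_d9c039_lc.F.Lip
import Pool.Agent.Lib.MP_d9c039_lc.F.ThCmp
import Pool.Agent.Lib.MP_d9c039_lc.F.ThEq
import Pool.Agent.Lib.MP_d9c039_lc.F.VisTh
import Pool.Agent.Lib.MP_d9c039_lc.F.Clos
import Pool.Agent.Lib.MP_d9c039_lc.F.CntCl
import Pool.Agent.Lib.MP_d9c039_lc.F.Par
import Pool.Agent.Lib.MP_d9c039_lc.F.Init
import Pool.Agent.Lib.MP_d9c039_lc.F.Low
import Pool.Agent.Lib.MP_d9c039_lc.F.Add
import Pool.Agent.Lib.MP_d9c039_lc.F.CloseInv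
import Pool.Agent.Lib.MP_d9c039_lc.F.URle
import Pool.Agent.Lib.MP_d9c039_lc.F.Choice
import Pool.Agent.Lib.MP_d9c039_lc.F.Pay
import Pool.Agent.Lib.MP_d9c039_lc.F.RI3
import Pool.Agent.Lib.MP_d9c039_lc.F.Sig
import Pool.Agent.Lib.MP_d9c039_lc.F.CntR
import Pool.Agent.Lib.MP_d9c039_lc.F.KBd
import Pool.Agent.Lib.MP_d9c039_lc.F.EDiff
import Pool.Agent.Lib.MP_d9c039_lc.F.Cell
import Pool.Agent.Lib.MP_d9c039_lc.F.TV
import Pool.Agent.Lib.MP_d9c039_lc.F.ThC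
import Pool.Agent.Lib.MP_d9c039_lc.F.Sup
import Pool.Agent.Lib.MP_d9c039_lc.F.KeyA
import Pool.Agent.Lib.MP_d9c039_lc.F.KeyB
import Pool.Agent.Lib.MP_d9c039_lc.F.Key
import Pool.Agent.Lib.MP_d9c039_lc.F.KEq
import Pool.Agent.Lib.MP_d9c039_lc.F.Rise
import Pool.Agent.Lib.MP_d9c039_lc.F.P1
import Pool.Agent.Lib.MP_d9c039_lc.F.ClB
import Pool.Agent.Lib.MP_d9c039_lc.F.BetaB
import Pool.Agent.Lib.MP_d9c039_lc.F.P2
import Pool.Agent.Lib.MP_d9c039_lc.F.I3D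
import Pool.Agent.Lib.MP_d9c039_lc.F.PreD
import Pool.Agent.Lib.MP_d9c039_lc.F.CaseD
import Pool.Agent.Lib.MP_d9c039_lc.F.VioF
import Pool.Agent.Lib.MP_d9c039_lc.F.ClCells
import Pool.Agent.Lib.MP_d9c039_lc.F.CntF
import Pool.Agent.Lib.MP_d9c039_lc.F.Room
import Pool.Agent.Lib.MP_d9c039_lc.F.Place
import Pool.Agent.Lib.MP_d9c039_lc.F.CaseR
import Pool.Agent.Lib.MP_d9c039_lc.F.Pig
import Pool.Agent.Lib.MP_d9c039_lc.F.Core
import Pool.Agent.Lib.MP_d9c039_lc.F.Reset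
import Pool.Agent.Lib.MP_d9c039_lc.F.Tr
import Pool.Agent.Lib.MP_d9c039_lc.F.TrS
import Pool.Agent.Lib.MP_d9c039_lc.F.Self
import Pool.Agent.Lib.MP_d9c039_lc.F.BInit
import Pool.Agent.Lib.MP_d9c039_lc.F.BSelf
import Pool.Agent.Lib.MP_d9c039_lc.F.BCore
import Pool.Agent.Lib.MP_d9c039_lc.F.LG
import Pool.Agent.Lib.MP_d9c039_lc.F.Brd
import Pool.Agent.Lib.MP_d9c039_lc.F.SzC
import Pool.Agent.Lib.MP_d9c039_lc.F.FinU

set_option autoImplicit false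

/-!
# MP_d9c039_lc, the full statement: assembly
-/

namespace Pool.Agent.D9f

/-- The full statement, with constants which do not depend on `A`. -/
theorem fullU :
    ∀ A : Set ℕ, REPred (fun n : ℕ => n ∈ A) →
      ∃ D : Set ℕ, REPred (fun n : ℕ => n ∈ D) ∧ (∀ n ∈ D, Even n) ∧
        (∃ φ : List Bool × ℕ →. List Bool, Partrec φ ∧ ∀ n : ℕ, ∀ τ : List Bool,
          τ.length = n → (∀ i < n, (τ.getD i false = true ↔ i ∈ D)) →
          ∃ j ≤ 2 ^ 48 + 32, ∃ σ ∈ φ (τ, j), σ.length = n ∧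
            ∀ i < n, (σ.getD i false = true ↔ i ∈ A)) ∧
        (∃ ψ : List Bool × ℕ →. List Bool, Partrec ψ ∧ ∀ n : ℕ, ∀ τ : List Bool,
          τ.length = n → (∀ i < n, (τ.getD i false = true ↔ i ∈ A)) →
          ∃ j ≤ 2, ∃ σ ∈ ψ (τ, j), σ.length = n ∧
            ∀ i < n, (σ.getD i false = true ↔ i ∈ D)) := by
  have hLip := tLip tConv tTh
  have hVis := tVisTh tTh tThEq
  have hClos := tClos hLip
  have hInit := tInit tPar
  have hLow := tLow hLip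
  have hCI := tCloseInv hClos
  have hUR := tURle hLip
  have hThCmp := tThCmp tTh
  have hPay := tPay tThEq hUR
  have hRI3 := tRI3 tThEq hUR hPay
  have hSig := tSig tTh hPay
  have hKBd := tKBd hSig tCntR
  have hED := tEDiff hPay hRI3 hKBd
  have hCell := tCell hED
  have hTV := tTV hPay hRI3 hKBd hCell
  have hThC := tThC hThCmp hLip hTV
  have hSup := tSup tThEq
  have hKA := tKeyA tTh tThEq hVis hUR hRI3
  have hKB := tKeyB tThEq
  have hKey := tKey hSig tCntR hKA hKB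
  have hKEq := tKEq hSup
  have hRise := tRise hLip hTV
  have hP1 := tP1 tConv tTh hPay hRI3 hKBd hCell
  have hClB := tClB tConv tTh tThEq hPay hRI3 hKBd hCell hSup
  have hBeta := tBetaB tConv tTh hPay hRI3 hSig hKBd hCell hThC hKEq hKey
  have hP2 := tP2 tConv tTh hLip hThCmp hPay hRI3 hSig hKBd hED hKEq hKey
  have hI3D := tI3D hRI3 hSig hKBd hED hP1 hP2
  have hPreD := tPreD hED hRise hClB hBeta hI3D
  have hCaseD := tCaseD (tChoice tThEq) hPreD hCI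
  have hCC := tClCells tCntCl
  have hPl := tPlace (tCntF hCC) tRoom
  have hCR := tCaseR hLow hPl
  have hPig := tPig tCntCl
  have hCore := tCore tAdd tVioF hCR hPig hCaseD
  have hReset := tReset hLow
  have hBS := tBSelf tTrS tSelf hReset
  have hBC := tBCore tTr tTrS tSelf hCore
  have hBrd := tBrd tTr (tBInit hInit) hBS hBC tLG
  exact finU hBrd tSzC Pool.Agent.D9b.tPlays (Pool.Agent.D9b.tSearch Pool.Agent.D9b.tPrimChk)
    Pool.Agent.D9b.tGuess Pool.Agent.D9.enumB Pool.Agent.D9b.tUM1 Pool.Agent.D9b.tUM2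
    Pool.Agent.D9b.tUM3 Pool.Agent.D9b.tUC

/-- The frozen statement S15453. -/
theorem full : S_Fin := by
  intro A hA
  obtain ⟨D, h1, h2, ⟨φ, h3, h4⟩, ψ, h5, h6⟩ := fullU A hA
  exact ⟨D, h1, h2, ⟨φ, h3, _, h4⟩, ψ, h5, _, h6⟩

end Pool.Agent.D9f
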