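import Pool.Agent.Lib.MP_d9c039_lc.F.Defs

set_option autoImplicit false

/-!
# MP_d9c039_lc, the full statement: basic lemmas
-/

namespace Pool.Agent.D9f

open Finset

/-! ## sizes -/

theorem LL_zero : LL 0 = 1 := rfl
theorem LL_pos (j : ℕ) : 0 < LL j := by
  cases j
  · exact Nat.one_pos
  · exact Nat.two_pow_pos _
theorem NN_pos (j : ℕ) : 0 < NN j := by
  cases j
  · exact Nat.two_pow_pos _
  · exact Nat.two_pow_pos _

theorem LL_succ (j : ℕ) : LL (j + 1) = LL j * NN j := by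
  cases j with
  | zero => show 2 ^ (40 * 4 ^ 0) = 1 * 2 ^ 40; norm_num
  | succ j =>
    show 2 ^ (40 * 4 ^ (j + 1)) = 2 ^ (40 * 4 ^ j) * 2 ^ (120 * 4 ^ j)
    rw [← pow_add]
    congr 1
    ring

/-- `LL (j+2) = (LL (j+1))^4` -/
theorem LL_pow4 (j : ℕ) : LL (j + 2) = LL (j + 1) ^ 4 := by
  show 2 ^ (40 * 4 ^ (j + 1)) = (2 ^ (40 * 4 ^ j)) ^ 4
  rw [← pow_mul]
  congr 1
  ring

theorem LL_dvd {i j : ℕ} (h : i ≤ j) : LL i ∣ LL j := by
  induction h with
  | refl => exact dvd_rfl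
  | step _ ih => exact ih.trans ⟨NN _, LL_succ _⟩

theorem LL_mono {i j : ℕ} (h : i ≤ j) : LL i ≤ LL j := Nat.le_of_dvd (LL_pos j) (LL_dvd h)

theorem LL_one_le (j : ℕ) : 1 ≤ LL j := LL_pos j

/-- `LL (j+1) ≥ 2 ^ 40` -/
theorem LL_ge (j : ℕ) : 2 ^ 40 ≤ LL (j + 1) := by
  show 2 ^ 40 ≤ 2 ^ (40 * 4 ^ j)
  exact Nat.pow_le_pow_right (by norm_num) (by have := Nat.one_le_pow j 4 (by norm_num); omega)

theorem div_succ (j c : ℕ) : c / LL j / NN j = c / LL (j + 1) := by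
  rw [Nat.div_div_eq_div_mul, ← LL_succ]

/-- two cells in one block of level `i` are in one block of level `j ≥ i` -/
theorem div_up {i j c m : ℕ} (h : i ≤ j) (e : c / LL i = m / LL i) : c / LL j = m / LL j := by
  obtain ⟨k, hk⟩ := LL_dvd h
  rw [hk, ← Nat.div_div_eq_div_mul, ← Nat.div_div_eq_div_mul, e]

/-- the block of level `j` around the block `(i, c / LL i)` -/
theorem div_sub {i j : ℕ} (h : i ≤ j) (c : ℕ) : c / LL i * LL i / LL j = c / LL j := by
  apply div_up h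
  rw [Nat.mul_div_cancel _ (LL_pos i)]

theorem mem_blk {j q c : ℕ} : c ∈ blk j q ↔ c / LL j = q := by
  unfold blk
  rw [Finset.mem_Ico]
  constructor
  · rintro ⟨h1, h2⟩
    exact Nat.div_eq_of_lt_le h1 h2
  · rintro rfl
    exact ⟨Nat.div_mul_le_self _ _, by
      rw [Nat.add_mul, Nat.one_mul]
      exact Nat.lt_div_mul_add (LL_pos j)⟩

theorem blk_zero (q : ℕ) : blk 0 q = {q} := by
  ext c
  rw [mem_blk, LL_zero, Nat.div_one, Finset.mem_singleton]

theorem mem_child {j q i : ℕ} : i ∈ Ico (q * NN j) ((q + 1) * NN j) ↔ i / NN j = q := by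
  rw [Finset.mem_Ico]
  constructor
  · rintro ⟨h1, h2⟩
    exact Nat.div_eq_of_lt_le h1 h2
  · rintro rfl
    exact ⟨Nat.div_mul_le_self _ _, by
      rw [Nat.add_mul, Nat.one_mul]
      exact Nat.lt_div_mul_add (NN_pos j)⟩

/-- the cells of a block, sorted by the blocks of the next lower level -/
theorem sum_blk_succ (j q : ℕ) (g : ℕ → ℝ) :
    ∑ c ∈ blk (j + 1) q, g c = ∑ i ∈ Ico (q * NN j) ((q + 1) * NN j), ∑ c ∈ blk j i, g c := by
  symm
  have h := Finset.sum_fiberwise_of_maps_to (s := blk (j + 1) q)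
    (t := Ico (q * NN j) ((q + 1) * NN j)) (g := fun c => c / LL j) (fun c hc => by
      rw [mem_child, div_succ]
      exact mem_blk.mp hc) g
  rw [← h]
  apply Finset.sum_congr rfl
  intro i hi
  apply Finset.sum_congr _ (fun _ _ => rfl)
  ext c
  rw [Finset.mem_filter, mem_blk, mem_blk]
  constructor
  · intro hc
    refine ⟨?_, hc⟩
    rw [← div_succ, hc]
    exact mem_child.mp hi
  · exact fun hc => hc.2

/-! ## constants -/

theorem zz_pos : 0 < zz := by unfold zz; positivity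
theorem c0_pos : 0 < c0 := by unfold c0; positivity
theorem E0_pos : 0 < E0 := by unfold E0; positivity
theorem E0_eq : E0 = 2 * c0 := by unfold E0 c0; norm_num
theorem kk_c0 : (kk : ℝ) * c0 ≤ 129 := by unfold kk c0; norm_num
theorem nJ_c0 : (2 ^ 43 : ℝ) * c0 = 4 := by unfold c0; norm_num
theorem gg_eq (j : ℕ) : gg j = 2 * (2 * zz / 2 ^ j) := by unfold gg; ring
theorem gg_pos (j : ℕ) : 0 < gg j := by unfold gg; have := zz_pos; positivity
theorem gg_le (j : ℕ) : gg j ≤ 1 / 2 ^ 18 := by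
  unfold gg zz
  rw [div_le_iff₀ (by positivity)]
  have : (1 : ℝ) ≤ 2 ^ j := one_le_pow₀ (by norm_num)
  nlinarith

/-! ## the function `sf` -/

theorem sd_pos (v : ℝ) : 0 < sd v := by unfold sd; positivity

theorem sd_le (v : ℝ) : sd v ≤ 1 / 2 := by
  unfold sd
  have : Real.exp (min v 0) ≤ 1 := Real.exp_le_one_iff.mpr (min_le_right _ _)
  linarith

theorem sf_pos (v : ℝ) : 0 < sf v := by
  unfold sf
  split_ifs with h
  · positivity
  · linarith [not_le.mp h]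

theorem sd_exp {u v T : ℝ} (h : v - u ≤ T) (hT : 0 ≤ T) : sd v ≤ sd u * Real.exp T := by
  unfold sd
  rw [div_mul_eq_mul_div, ← Real.exp_add]
  apply div_le_div_of_nonneg_right _ (by norm_num)
  apply Real.exp_le_exp.mpr
  rcases le_total u 0 with h1 | h1
  · rw [min_eq_left h1]
    linarith [min_le_left v 0]
  · rw [min_eq_right h1]
    linarith [min_le_right v 0]

/-- convexity -/
theorem sf_conv (u v : ℝ) : sd u * (v - u) ≤ sf v - sf u := by
  unfold sf sd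
  have key : ∀ a b : ℝ, Real.exp a * (b - a) ≤ Real.exp b - Real.exp a := by
    intro a b
    have h1 := Real.add_one_le_exp (b - a)
    have h2 : Real.exp b = Real.exp a * Real.exp (b - a) := by
      rw [← Real.exp_add]; congr 1; ring
    rw [h2]
    have := Real.exp_pos a
    nlinarith
  rcases le_or_gt u 0 with h1 | h1
  · rw [min_eq_left h1, if_pos h1]
    rcases le_or_gt v 0 with h2 | h2
    · rw [if_pos h2]
      linarith [key u v]
    · rw [if_neg (not_le.mpr h2)]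
      have h3 := key u 0
      rw [Real.exp_zero] at h3
      have h4 : Real.exp u ≤ 1 := Real.exp_le_one_iff.mpr h1
      nlinarith
  · rw [min_eq_right h1.le, if_neg (not_le.mpr h1), Real.exp_zero]
    rcases le_or_gt v 0 with h2 | h2
    · rw [if_pos h2]
      linarith [Real.add_one_le_exp v]
    · rw [if_neg (not_le.mpr h2)]
      linarith

theorem sf_mono {u v : ℝ} (h : u ≤ v) : sf u ≤ sf v := by
  have h1 := sf_conv u v
  have h2 := mul_nonneg (sd_pos u).le (sub_nonneg.mpr h)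
  linarith

/-! ## unfolding of the potentials -/

theorem Fz.U_one (F : Fz) (f : ℕ → ℝ) (q : ℕ) :
    F.U f 1 q = -CC 1 + ∑ i ∈ Ico (q * NN 0) ((q + 1) * NN 0), zz * f i := rfl

open Classical in
theorem Fz.U_succ (F : Fz) (f : ℕ → ℝ) (j q : ℕ) :
    F.U f (j + 2) q = -CC (j + 2) + ∑ i ∈ Ico (q * NN (j + 1)) ((q + 1) * NN (j + 1)),
      if F.cl (j + 1) i then F.kap (j + 1) i else sf (F.U f (j + 1) i + uu (j + 1)) := rfl

theorem Fz.th_one (F : Fz) (f : ℕ → ℝ) (c : ℕ) : F.th f 1 c = zz := rfl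

theorem Fz.th_succ (F : Fz) (f : ℕ → ℝ) (j c : ℕ) :
    F.th f (j + 2) c = F.th f (j + 1) c * F.ep f (j + 1) (c / LL (j + 1)) := rfl

theorem Fz.ep_nonneg (F : Fz) (f : ℕ → ℝ) (j q : ℕ) : 0 ≤ F.ep f j q := by
  unfold Fz.ep
  split_ifs
  · exact le_rfl
  · exact (sd_pos _).le

theorem Fz.ep_le (F : Fz) (f : ℕ → ℝ) (j q : ℕ) : F.ep f j q ≤ 1 / 2 := by
  unfold Fz.ep
  split_ifs
  · norm_num
  · exact sd_le _

theorem Fz.ep_cl {F : Fz} {f : ℕ → ℝ} {j q : ℕ} (h : F.cl j q) : F.ep f j q = 0 := if_pos h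

theorem Fz.ep_op {F : Fz} {f : ℕ → ℝ} {j q : ℕ} (h : ¬ F.cl j q) :
    F.ep f j q = sd (F.U f j q + uu j) := if_neg h

theorem mem_PP {en : Finset ℕ} {p : ℕ → ℕ} {n x : ℕ} :
    x ∈ PP en p n ↔ x ∈ en ∧ x < n ∧ n ≤ p x := by
  unfold PP
  rw [Finset.mem_filter]

theorem mem_dif {J c m i : ℕ} : i ∈ dif J c m ↔ (1 ≤ i ∧ i ≤ J) ∧ c / LL i ≠ m / LL i := by
  unfold dif
  rw [Finset.mem_filter, Finset.mem_Icc]

theorem CD.mem_T {X : CD} {x : ℕ} : x ∈ X.T ↔ x ∈ X.en ∧ x < X.p x ∧ x < 8 * X.yh := by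
  unfold CD.T
  rw [Finset.mem_filter]

end Pool.Agent.D9f
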