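import Pool.Agent.Lib.MP_d9c039_lc.F.SpecA

set_option autoImplicit false

/-!
# MP_d9c039_lc, the full statement: more basic lemmas
-/

namespace Pool.Agent.D9f

open Finset

theorem mem_cell {c x : ℕ} : x ∈ Ico (8 * c) (8 * c + 8) ↔ x / 8 = c := by
  rw [Finset.mem_Ico]
  omega

/-- a sum over the cells of a block and the tokens of the cells -/
theorem sum_cells (j q : ℕ) (S : Finset ℕ) (h g : ℕ → ℝ) :
    ∑ c ∈ blk j q, h c * ∑ x ∈ Ico (8 * c) (8 * c + 8), (if x ∈ S then g x else 0) =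
      ∑ x ∈ S.filter (fun x => x / 8 / LL j = q), h (x / 8) * g x := by
  have h1 := Finset.sum_fiberwise_of_maps_to (s := S.filter (fun x => x / 8 / LL j = q))
    (t := blk j q) (g := fun x => x / 8) (fun x hx => by
      rw [Finset.mem_filter] at hx
      exact mem_blk.mpr hx.2) (fun x => h (x / 8) * g x)
  rw [← h1]
  apply Finset.sum_congr rfl
  intro c hc
  rw [← Finset.sum_filter, Finset.mul_sum]
  have h2 : (Ico (8 * c) (8 * c + 8)).filter (fun x => x ∈ S) =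
      (S.filter (fun x => x / 8 / LL j = q)).filter (fun x => x / 8 = c) := by
    ext x
    simp only [Finset.mem_filter]
    rw [mem_cell]
    constructor
    · rintro ⟨h3, h4⟩
      refine ⟨⟨h4, ?_⟩, h3⟩
      rw [h3]
      exact mem_blk.mp hc
    · rintro ⟨⟨h4, _⟩, h3⟩
      exact ⟨h3, h4⟩
  rw [h2]
  apply Finset.sum_congr rfl
  intro x hx
  rw [Finset.mem_filter] at hx
  rw [hx.2]

/-- `∑ 1 / 2 ^ i ≤ 1` -/
theorem sum_geo (j : ℕ) : ∑ i ∈ Icc 1 j, (1 : ℝ) / 2 ^ i ≤ 1 := by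
  have h : ∀ j : ℕ, ∑ i ∈ Icc 1 j, (1 : ℝ) / 2 ^ i = 1 - 1 / 2 ^ j := by
    intro j
    induction j with
    | zero => simp
    | succ j ih =>
      rw [Finset.sum_Icc_succ_top (by omega), ih, pow_succ]
      field_simp
      ring
  rw [h]
  have : (0 : ℝ) < 1 / 2 ^ j := by positivity
  linarith

theorem sum_geo_Ico (j : ℕ) : ∑ i ∈ Ico 1 j, (1 : ℝ) / 2 ^ i ≤ 1 := by
  refine le_trans ?_ (sum_geo j)
  apply Finset.sum_le_sum_of_subset_of_nonneg
  · intro i hi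
    rw [Finset.mem_Ico] at hi
    rw [Finset.mem_Icc]
    omega
  · intro i _ _
    positivity

/-- `exp (a * zz) ≤ 1.001` for `a ≤ 1000` -/
theorem exp_zz_le {a : ℝ} (h : a ≤ 1000) : Real.exp (a * zz) ≤ 1.001 := by
  have hz : zz ≤ 1 / 1048576 := by unfold zz; norm_num
  have h1 : a * zz ≤ 1000 / 1048576 := by
    have := zz_pos
    nlinarith
  have h2 : Real.exp (a * zz) ≤ Real.exp (1000 / 1048576) := Real.exp_le_exp.mpr h1
  have h3 : Real.exp (1000 / 1048576) ≤ 1.001 := by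
    have h4 := Real.add_one_le_exp (-(1000 / 1048576 : ℝ))
    have h5 : Real.exp (1000 / 1048576) * Real.exp (-(1000 / 1048576 : ℝ)) = 1 := by
      rw [← Real.exp_add]
      norm_num
    have h6 := Real.exp_pos (1000 / 1048576)
    nlinarith
  linarith

theorem CD.Ok.pp {X : CD} (h : X.Ok) {x : ℕ} (hx : x ∈ X.JJ) :
    x ∈ X.en ∧ x < X.n0 ∧ X.n0 ≤ X.p x := mem_PP.mp (h.sub x hx)

/-- the payers are alive -/
theorem CD.Ok.al {X : CD} (h : X.Ok) {x : ℕ} (hx : x ∈ X.JJ) : X.D.rho x ≤ 1 := by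
  have h1 := h.pp hx
  have h2 := h.inv.alive x h1.1 (h1.2.1.trans_le h1.2.2)
  unfold Dat.rho
  rw [div_le_one c0_pos, E0_eq]
  linarith

theorem rho_nonneg {J : ℕ} {en : Finset ℕ} {p : ℕ → ℕ} {D : Dat} (h : Pre J en p D) (x : ℕ) :
    0 ≤ D.rho x := div_nonneg (sub_nonneg.mpr (h.e0 x).2) c0_pos.le

theorem rho_le_one {J : ℕ} {en : Finset ℕ} {p : ℕ → ℕ} {D : Dat} (h : Pre J en p D) {x : ℕ}
    (hx : x ∈ en) (hp : x < p x) : D.rho x ≤ 1 := by
  have h2 := h.alive x hx hp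
  unfold Dat.rho
  rw [div_le_one c0_pos, E0_eq]
  linarith

theorem e_eq_rho (D : Dat) (x : ℕ) : D.e x = E0 - c0 * D.rho x := by
  unfold Dat.rho
  rw [mul_div_cancel₀ _ c0_pos.ne']
  ring

/-- an admissible cell is smaller than `LL J` -/
theorem CD.Ok0.lt {X : CD} (h : X.Ok0) {c : ℕ} (hc : X.Adm c) : c < LL X.J := by
  have h1 := hc.2.1
  have h2 := h.ckn
  have h3 := h.n0le
  omega

end Pool.Agent.D9f
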