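import Pool.Agent.Lib.MP_d9c039_lc.F.SpecA

set_option autoImplicit false

/-!
# MP_d9c039_lc, the full statement: closing keeps the invariants
-/

namespace Pool.Agent.D9f

open Finset

private theorem f_le {J : ℕ} {en : Finset ℕ} {p : ℕ → ℕ} {D : Dat} (h : Pre J en p D)
    (S : Finset ℕ) (c : ℕ) : D.f c ≤ fS D.pk D.e S c := by
  unfold Dat.f fS
  split_ifs with hc
  · exact le_rfl
  · apply Finset.sum_le_sum
    intro x _
    rw [if_neg (Finset.notMem_empty x)]
    split_ifs
    · exact (h.e0 x).2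
    · exact le_rfl

theorem tCloseInv (h1 : S_Clos) : S_CloseInv := by
  intro J en p D hP
  have hU : ∀ j q, 1 ≤ j → (D.toFz.close J D.f).U D.f j q = D.U D.f j q :=
    fun j q hj => (h1 D.toFz J D.f).1 j q hj
  have hR : ∀ i q, 1 ≤ i →
      Dat.UR { D with toFz := D.toFz.close J D.f } en p i q ≤ D.UR en p i q :=
    fun i q hi => (h1 D.toFz J D.f).2 _ (fun c => f_le hP _ c) i q hi
  have hlam : ∀ i q, 1 ≤ i →
      Dat.lam { D with toFz := D.toFz.close J D.f } i q = D.lam i q := by
    intro i q hi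
    show min ((D.toFz.close J D.f).U D.f i q + uu i) 0 = min (D.U D.f i q + uu i) 0
    rw [hU i q hi]
  have hlamR : ∀ i q, 1 ≤ i →
      Dat.lamR { D with toFz := D.toFz.close J D.f } en p i q ≤ D.lamR en p i q := by
    intro i q hi
    exact min_le_min (add_le_add (hR i q hi) le_rfl) le_rfl
  refine
    { enlt := hP.enlt
      ple := hP.ple
      cntw := hP.cntw
      e0 := hP.e0
      fresh := hP.fresh
      alive := hP.alive
      neg := ?_
      kapge := ?_
      i3 := ?_
      i4 := ?_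
      inj := hP.inj
      spc := hP.spc
      opn := ?_ }
  · intro j q hj hJ
    show (D.toFz.close J D.f).U D.f j q < 0
    rw [hU j q hj]
    exact hP.neg j q hj hJ
  · intro j q hj hJ hc
    show Lam j ≤ (D.toFz.close J D.f).kap j q
    unfold Fz.close
    dsimp only
    split_ifs with h
    · exact hP.kapge j q hj hJ h
    · have h2 : -gg j ≤ D.U D.f j q := by
        rcases hc with h3 | h3
        · exact absurd h3 h
        · exact h3.2.2
      unfold Lam
      apply sf_mono
      linarith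
  · intro x hx hxp m hm hmp hv
    have hv' : D.vis J (x / 8) m :=
      ⟨hv.1, hv.2.1, fun i hi hiJ hc => hv.2.2 i hi hiJ (hc.imp Or.inl Or.inl)⟩
    have h3 := hP.i3 x hx hxp m hm hmp hv'
    have h4 : ∑ i ∈ dif J (x / 8) m, Dat.lam { D with toFz := D.toFz.close J D.f } i (m / LL i) =
        ∑ i ∈ dif J (x / 8) m, D.lam i (m / LL i) :=
      Finset.sum_congr rfl fun i hi => hlam i _ (mem_dif.mp hi).1.1
    have h5 : ∑ i ∈ dif J (x / 8) m,
        Dat.lamR { D with toFz := D.toFz.close J D.f } en p i (x / 8 / LL i) ≤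
        ∑ i ∈ dif J (x / 8) m, D.lamR en p i (x / 8 / LL i) :=
      Finset.sum_le_sum fun i hi => hlamR i _ (mem_dif.mp hi).1.1
    have h6 : 0 ≤ D.rho x := div_nonneg (sub_nonneg.mpr (hP.e0 x).2) c0_pos.le
    rw [h4]
    refine le_trans ?_ h3
    exact mul_le_mul_of_nonneg_left (Real.exp_le_exp.mpr h5) h6
  · intro v hv
    obtain ⟨a, b, c, d⟩ := hP.i4 v hv
    exact ⟨a, b, c.imp id fun h => ⟨h.1, Or.inl h.2⟩, d⟩
  · intro j q hj hJ hc
    show (D.toFz.close J D.f).U D.f j q < -gg j
    rw [hU j q hj]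
    by_contra h
    exact hc (Or.inr ⟨hj, hJ, not_lt.mp h⟩)

end Pool.Agent.D9f
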