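import Pool.Agent.Lib.MP_d9c039_lc.V2.Base

set_option autoImplicit false

/-!
# MP_d9c039_lc, the full statement S15453: definitions

The paper proof is note 4671.  Core game: tokens `x < 8 * LL J` (numbers enumerated into `A`,
relative to the left end of the board), `p x` the least mark after `x`.  Cell `c`: the positions
`8 c, .., 8 c + 7`; its direct slot is `8 c`, its foreign slot is `8 c + 4`.  Block `(j, q)`: the
cells `c` with `c / LL j = q`.
-/

namespace Pool.Agent.D9f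

open Finset

/-- number of cells of a block of level `j` -/
def LL : ℕ → ℕ
  | 0 => 1
  | j + 1 => 2 ^ (40 * 4 ^ j)

/-- number of the blocks of level `j` in a block of level `j + 1` -/
def NN : ℕ → ℕ
  | 0 => 2 ^ 40
  | j + 1 => 2 ^ (120 * 4 ^ j)

/-- size (in cells) of the free room around a closed block of level `i` -/
def ww : ℕ → ℕ
  | 0 => 10 * 2 ^ 40
  | j + 1 => (2 ^ (40 * 4 ^ j)) ^ 3

/-- the base price -/
noncomputable def zz : ℝ := 1 / 2 ^ 20

/-- the unit of the shares -/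
noncomputable def c0 : ℝ := 1 / 2 ^ 41

/-- the full share -/
noncomputable def E0 : ℝ := 1 / 2 ^ 40

/-- the number of pending tokens at a violation -/
def kk : ℕ := 2 ^ 48 + 16

/-- the convex function `s` -/
noncomputable def sf (v : ℝ) : ℝ := if v ≤ 0 then Real.exp v / 2 else (1 + v) / 2

/-- its derivative -/
noncomputable def sd (v : ℝ) : ℝ := Real.exp (min v 0) / 2

/-- the gap: a block of level `j` is closed when its potential is at least `- gg j` -/
noncomputable def gg (j : ℕ) : ℝ := 4 * zz / 2 ^ j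

/-- `- aa j` is the initial potential of the blocks of level `j ≥ 1` -/
noncomputable def aa : ℕ → ℝ
  | 0 => 0
  | 1 => 2 ^ 9 - 1 / 2 ^ 17
  | j + 2 => 16 * sf (aa (j + 1) - Real.log (NN (j + 1)) - gg (j + 1)) - 1 / 2

noncomputable def uu (j : ℕ) : ℝ := aa j - Real.log (NN j)

/-- lower bound for the frozen value of a closed block of level `j` -/
noncomputable def Lam (j : ℕ) : ℝ := sf (uu j - gg j)

noncomputable def CC : ℕ → ℝ
  | 0 => 0
  | 1 => 2 ^ 9
  | j + 2 => 16 * Lam (j + 1)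

/-- the closed blocks with their frozen values -/
structure Fz where
  cl : ℕ → ℕ → Prop
  kap : ℕ → ℕ → ℝ

open Classical in
/-- The potential of the block `(j, q)`, `j ≥ 1`; `f` gives the values of the cells. -/
noncomputable def Fz.U (F : Fz) (f : ℕ → ℝ) : ℕ → ℕ → ℝ
  | 0, _ => 0
  | 1, q => -CC 1 + ∑ i ∈ Ico (q * NN 0) ((q + 1) * NN 0), zz * f i
  | j + 2, q => -CC (j + 2) + ∑ i ∈ Ico (q * NN (j + 1)) ((q + 1) * NN (j + 1)),
      if F.cl (j + 1) i then F.kap (j + 1) i else sf (F.U f (j + 1) i + uu (j + 1))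

open Classical in
/-- the elasticity of the block `(j, q)` -/
noncomputable def Fz.ep (F : Fz) (f : ℕ → ℝ) (j q : ℕ) : ℝ :=
  if F.cl j q then 0 else sd (F.U f j q + uu j)

/-- the price of the cell `c` for the block of level `j` around it (`j ≥ 1`) -/
noncomputable def Fz.th (F : Fz) (f : ℕ → ℝ) : ℕ → ℕ → ℝ
  | 0, _ => 0
  | 1, _ => zz
  | j + 2, c => F.th f (j + 1) c * F.ep f (j + 1) (c / LL (j + 1))

open Classical in
/-- Close all blocks of the levels `1, .., J` with potential `≥ - gg j` (cell values `f`). -/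
noncomputable def Fz.close (F : Fz) (J : ℕ) (f : ℕ → ℝ) : Fz where
  cl := fun j q => F.cl j q ∨ (1 ≤ j ∧ j ≤ J ∧ -gg j ≤ F.U f j q)
  kap := fun j q => if F.cl j q then F.kap j q else sf (F.U f j q + uu j)

/-- the cells of the block `(j, q)` -/
def blk (j q : ℕ) : Finset ℕ := Ico (q * LL j) ((q + 1) * LL j)

/-- the values of the cells: `1` for a picked cell, otherwise the sum of the shares, where the
tokens of `S` count with the full share -/
noncomputable def fS (pk : Finset ℕ) (e : ℕ → ℝ) (S : Finset ℕ) (c : ℕ) : ℝ :=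
  if c ∈ pk then 1 else ∑ x ∈ Ico (8 * c) (8 * c + 8), if x ∈ S then E0 else e x

/-- the tokens pending at the cut `n` -/
def PP (en : Finset ℕ) (p : ℕ → ℕ) (n : ℕ) : Finset ℕ := en.filter (fun x => x < n ∧ n ≤ p x)

/-- The data of the machine: `pk` the picked cells, `e` the shares, `fm` the cells with a foreign
mark, `ty` its type, `tk` its token. -/
structure Dat extends Fz where
  pk : Finset ℕ
  e : ℕ → ℝ
  fm : Finset ℕ
  ty : ℕ → ℕ
  tk : ℕ → ℕ

/-- the initial data -/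
noncomputable def D0 : Dat where
  cl := fun _ _ => False
  kap := fun _ _ => 0
  pk := ∅
  e := fun _ => E0
  fm := ∅
  ty := fun _ => 0
  tk := fun _ => 0

noncomputable def Dat.f (D : Dat) : ℕ → ℝ := fS D.pk D.e ∅

noncomputable def Dat.lam (D : Dat) (i q : ℕ) : ℝ := min (D.U D.f i q + uu i) 0

/-- the potential of `(i, q)`, tokens crossing the right end count with the full share -/
noncomputable def Dat.UR (D : Dat) (en : Finset ℕ) (p : ℕ → ℕ) (i q : ℕ) : ℝ :=
  D.U (fS D.pk D.e (PP en p (8 * ((q + 1) * LL i)))) i q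

noncomputable def Dat.lamR (D : Dat) (en : Finset ℕ) (p : ℕ → ℕ) (i q : ℕ) : ℝ :=
  min (D.UR en p i q + uu i) 0

noncomputable def Dat.rho (D : Dat) (x : ℕ) : ℝ := (E0 - D.e x) / c0

/-- the cells `c`, `m` see each other -/
def Dat.vis (D : Dat) (J c m : ℕ) : Prop :=
  c ∉ D.pk ∧ m ∉ D.pk ∧ ∀ i, 1 ≤ i → i ≤ J →
    (D.cl i (c / LL i) ∨ D.cl i (m / LL i)) → c / LL i = m / LL i

/-- the levels at which the blocks around `c` and `m` differ -/
def dif (J c m : ℕ) : Finset ℕ := (Icc 1 J).filter (fun i => c / LL i ≠ m / LL i)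

/-- the cell `c` lies in a closed block of level `i` (level `0`: it is picked) -/
def Dat.clo (D : Dat) (i c : ℕ) : Prop := (i = 0 ∧ c ∈ D.pk) ∨ (1 ≤ i ∧ D.cl i (c / LL i))

/-- the invariants, without `opn` and `cnt` -/
structure Pre (J : ℕ) (en : Finset ℕ) (p : ℕ → ℕ) (D : Dat) : Prop where
  enlt : ∀ x ∈ en, x < 8 * LL J
  ple : ∀ x ∈ en, p x ≤ 8 * LL J
  cntw : ∀ n, (PP en p n).card ≤ kk
  e0 : ∀ x, 0 ≤ D.e x ∧ D.e x ≤ E0
  fresh : ∀ x, x ∉ en → D.e x = E0
  alive : ∀ x ∈ en, x < p x → c0 ≤ D.e x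
  neg : ∀ j q, 1 ≤ j → j ≤ J → D.U D.f j q < 0
  kapge : ∀ j q, 1 ≤ j → j ≤ J → D.cl j q → Lam j ≤ D.kap j q
  i3 : ∀ x ∈ en, x < p x → ∀ m, x / 8 < m → 8 * m < p x → D.vis J (x / 8) m →
    D.rho x * Real.exp (∑ i ∈ dif J (x / 8) m, D.lamR en p i (x / 8 / LL i)) ≤
      Real.exp (∑ i ∈ dif J (x / 8) m, D.lam i (m / LL i))
  i4 : ∀ v ∈ D.fm, D.ty v < J ∧ D.tk v ∈ en ∧ D.clo (D.ty v) (D.tk v / 8) ∧ v ≠ D.tk v / 8 ∧
    v ≤ D.tk v / 8 + ww (D.ty v) ∧ D.tk v / 8 ≤ v + ww (D.ty v) ∧ p (D.tk v) ≤ 8 * v + 4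
  inj : ∀ v ∈ D.fm, ∀ v' ∈ D.fm, D.ty v = D.ty v' → D.tk v = D.tk v' →
    (v < D.tk v / 8 ↔ v' < D.tk v' / 8) → v = v'
  spc : ∀ v ∈ D.fm, ∀ v' ∈ D.fm, v < v' → ∀ l, l + 1 ≤ D.ty v → l + 1 ≤ D.ty v' →
    v + ww l < v'

/-- the invariants after a new token, before the answer -/
structure InvW (J : ℕ) (en : Finset ℕ) (p : ℕ → ℕ) (D : Dat) : Prop extends Pre J en p D where
  opn : ∀ j q, 1 ≤ j → j ≤ J → ¬ D.cl j q → D.U D.f j q < -gg j

/-- the invariants after the answer -/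
structure Inv (J : ℕ) (en : Finset ℕ) (p : ℕ → ℕ) (D : Dat) : Prop extends InvW J en p D where
  cnt : ∀ n, (PP en p n).card < kk

/-- The data of a direct answer: violation at the cut `n0`, hull of the cells `c1 < c < ck`, the
block `(jb, qb)` (`β` in the paper proof), the paying tokens `JJ`, the least price `d`, the picked
cell `yh`. -/
structure CD where
  J : ℕ
  en : Finset ℕ
  p : ℕ → ℕ
  D : Dat
  n0 : ℕ
  c1 : ℕ
  ck : ℕ
  jb : ℕ
  qb : ℕ
  JJ : Finset ℕ
  d : ℝ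
  yh : ℕ

/-- the admissible cells -/
def CD.Adm (X : CD) (c : ℕ) : Prop :=
  X.c1 < c ∧ c < X.ck ∧ c / LL X.jb = X.qb ∧ c ∉ X.D.pk ∧
    ∀ i, 1 ≤ i → i < X.jb → ¬ X.D.cl i (c / LL i)

/-- the price of a cell for `β` -/
noncomputable def CD.tb (X : CD) (c : ℕ) : ℝ := X.D.th X.D.f X.jb c

structure CD.Ok0 (X : CD) : Prop where
  inv : InvW X.J X.en X.p X.D
  n0le : X.n0 ≤ 8 * LL X.J
  ckn : 8 * X.ck < X.n0
  jb1 : 1 ≤ X.jb
  jbJ : X.jb ≤ X.J
  card : X.JJ.card = 2 ^ 43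
  sub : ∀ x ∈ X.JJ, x ∈ PP X.en X.p X.n0
  adm : ∀ x ∈ X.JJ, X.Adm (x / 8)
  top : X.D.cl X.jb X.qb ∨ X.jb = X.J

structure CD.Ok (X : CD) : Prop extends CD.Ok0 X where
  d0 : 0 < X.d
  ya : X.Adm X.yh
  y2 : X.tb X.yh ≤ 2 * X.d
  dm : ∀ c, X.Adm c → X.d ≤ X.tb c
  lt : ∀ c, X.Adm c → c < X.yh → 2 * X.d < X.tb c
  ms : ∃ m, X.Adm m ∧ X.yh ≤ m ∧ X.tb m = X.d

/-- `tb` of the cell of the token `x`, with `lamR` in place of `lam` -/
noncomputable def CD.thR (X : CD) (x : ℕ) : ℝ :=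
  2 * zz / 2 ^ X.jb * Real.exp (∑ i ∈ Ico 1 X.jb, X.D.lamR X.en X.p i (x / 8 / LL i))

/-- the surviving tokens -/
def CD.T (X : CD) : Finset ℕ := X.en.filter (fun x => x < X.p x ∧ x < 8 * X.yh)

/-- `rho` of the surviving tokens after the payments, before the refunds -/
noncomputable def CD.r (X : CD) (x : ℕ) : ℝ := if x ∈ X.JJ then 2 * X.d / X.thR x else X.D.rho x

/-- the payments -/
noncomputable def CD.del (X : CD) (x : ℕ) : ℝ :=
  if x ∈ X.JJ then
    (if x < 8 * X.yh then c0 * (2 * X.d / X.thR x - X.D.rho x) else c0 * X.d / X.tb (x / 8))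
  else 0

/-- the value of the payments in the block `(i, q)` -/
noncomputable def CD.sig (X : CD) (i q : ℕ) : ℝ :=
  ∑ x ∈ X.JJ.filter (fun x => x / 8 / LL i = q), X.D.th X.D.f i (x / 8) * X.del x

/-- the end of `(i, q)` separates the token `x` from a visible cell in its range -/
def CD.Rr (X : CD) (x i q : ℕ) : Prop :=
  ∃ m, x / 8 < m ∧ m < X.yh ∧ 8 * m < X.p x ∧ X.D.vis X.J (x / 8) m ∧
    x / 8 / LL i ≠ m / LL i ∧ (q = x / 8 / LL i ∨ q = m / LL i)

open Classical in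
/-- the refund factor is `1 - K x` -/
noncomputable def CD.K (X : CD) (x : ℕ) : ℝ :=
  ∑ i ∈ Icc 1 X.J, ∑ q ∈ range (LL X.J), if X.Rr x i q then X.sig i q else 0

open Classical in
/-- the part of `K x` which comes from the blocks in `(j, qB)` -/
noncomputable def CD.KB (X : CD) (j qB x : ℕ) : ℝ :=
  ∑ i ∈ Icc 1 j, ∑ q ∈ range (LL X.J),
    if X.Rr x i q ∧ q * LL i / LL j = qB then X.sig i q else 0

/-- the new shares -/
noncomputable def CD.e' (X : CD) (x : ℕ) : ℝ :=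
  if x ∈ X.T then E0 - c0 * (X.r x * (1 - X.K x)) else X.D.e x - X.del x

/-- the data after the answer, before new blocks are closed -/
noncomputable def CD.D1 (X : CD) : Dat := { X.D with pk := insert X.yh X.D.pk, e := X.e' }

/-- the new `p` -/
def CD.p1 (X : CD) (x : ℕ) : ℕ := min (X.p x) (8 * X.yh)

end Pool.Agent.D9f
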