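import Pool.Agent.Lib.MP_d9c039_lc.F.SpecG

set_option autoImplicit false

/-!
# MP_d9c039_lc, the full statement: module Fin (helper35)

The assembly of the frozen statement, compare `V3/Fin.lean`.
-/

namespace Pool.Agent.D9f

open Finset
open Pool.Agent.D9 (cnt resp tabS)
open Pool.Agent.D9b (pendL drn plH LGood mList8 S_Plays S_Search S_Guess S_UM1 S_UM2 S_UM3 S_UC)
open Pool.Agent.D9c (mkH Enu)

private lemma re_of_stages (d : ℕ → List ℕ) (hd : Computable d) :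
    REPred (fun n : ℕ => ∃ s, n ∈ d s) := by
  have h1 : Computable₂ (fun (n : ℕ) (s : ℕ) => decide (n ∈ d s)) := by
    have hp : PrimrecRel (fun (L : List ℕ) (n : ℕ) => ∃ a ∈ L, a = n) :=
      PrimrecRel.exists_mem_list (R := fun a b : ℕ => a = b) Primrec.eq
    have h2 : Computable (fun t : List ℕ × ℕ => decide (∃ a ∈ t.1, a = t.2)) :=
      (hp.decide).to_comp
    have h3 : Computable (fun t : ℕ × ℕ => decide (∃ a ∈ d t.2, a = t.1)) :=
      h2.comp (Computable.pair (hd.comp Computable.snd) Computable.fst)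
    exact h3.of_eq (fun t => by simp)
  have h2 : Partrec (fun n : ℕ => Nat.rfind (fun s => Part.some (decide (n ∈ d s)))) :=
    Partrec.rfind h1.partrec₂
  refine (Partrec.dom_re h2).of_eq ?_
  intro n
  refine Iff.trans (Nat.rfind_dom (p := fun s => Part.some (decide (n ∈ d s)))) ?_
  constructor
  · rintro ⟨s, hs, _⟩
    exact ⟨s, by simpa using hs⟩
  · rintro ⟨s, hs⟩
    exact ⟨s, by simpa using hs, fun _ => trivial⟩

theorem tFin (h1 : S_Brd) (h2 : S_SzC) (h3 : S_Plays) (h4 : S_Search) (h5 : S_Guess)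
    (h6 : Pool.Agent.D9.EnumB) (h7 : S_UM1) (h8 : S_UM2) (h9 : S_UM3) (h10 : S_UC) : S_Fin := by
  intro A hA
  obtain ⟨z1, z2, z3, z4, z5⟩ := h2
  obtain ⟨a, ha, hnd, hstep, ha0, halt, hmem⟩ := h6 A hA
  have hEnu : Enu a := ⟨hnd, hstep, ha0, halt⟩
  have hmono : ∀ s x, x ∈ a s → x ∈ a (s + 1) := by
    intro s x hx
    rcases hstep s with h | ⟨y, h⟩
    · rw [h]; exact hx
    · rw [h]; exact List.mem_append_left _ hx
  obtain ⟨d, k1, k2, k3, k4, k5, k6⟩ := Pool.Agent.D9b.fam8 h3 h4 h7 h8 h9 h10 Sz CL z1 z2 z3 z4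
    h1 a ha hEnu
  have hbd : ∀ n s s', n ≤ s → s ≤ s' → cnt (d s) n = cnt (d s') n →
      cnt (a s') n ≤ cnt (a s) n + (kk + 16) := by
    intro n s s' hs hs' h
    rcases Nat.lt_or_ge n 16 with hn | hn
    · have h11 := Pool.Agent.D9c.cnt_le (a s') (hnd s') n
      omega
    · obtain ⟨L, hL1, hL2⟩ := z5 n hn
      have h12 : (n, kk + 16) ∈ CL L := by
        unfold CL
        rw [List.mem_map]
        refine ⟨n, ?_, rfl⟩
        rw [List.mem_filter, List.mem_range, decide_eq_true_eq]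
        exact ⟨hL2, hL1⟩
      exact k5 L _ h12 hL1 hL2 s s' hs hs' h
  refine ⟨{x | ∃ s, x ∈ d s}, re_of_stages d k1, ?_, ?_, ?_⟩
  · rintro n ⟨s, hs⟩
    rw [Nat.even_iff]
    exact (k4 s n hs).1
  · obtain ⟨φ, hφ, hφ'⟩ := h5 a d A {x | ∃ s, x ∈ d s} (fun _ => kk + 16) ha k1 hnd k2
      hmono k3 hmem (fun x => Iff.rfl) hbd
    exact ⟨φ, hφ, kk + 16, hφ'⟩
  · obtain ⟨ψ, hψ, hψ'⟩ := h5 d a {x | ∃ s, x ∈ d s} A (fun _ => 2) k1 ha k2 hnd k3
      hmono (fun x => Iff.rfl) hmem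
      (fun n s s' _ hs' h => k6 n s s' hs' h)
    exact ⟨ψ, hψ, 2, hψ'⟩

end Pool.Agent.D9f
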