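import Pool.Agent.Lib.MP_d9c039_lc.F.SpecB

set_option autoImplicit false

/-!
# MP_d9c039_lc, the full statement: module I3D (the invariant i3 after the answer)
-/

namespace Pool.Agent.D9f

open Finset

open Classical in
private theorem sig_le_K (h2 : S_Sig) {X : CD} (h : X.Ok) {x m : ℕ} (hm : x / 8 < m)
    (hmy : m < X.yh) (hmp : 8 * m < X.p x) (hvis : X.D.vis X.J (x / 8) m) :
    ∑ i ∈ dif X.J (x / 8) m, (X.sig i (x / 8 / LL i) + X.sig i (m / LL i)) ≤ X.K x := by
  have hs := (h2 X h).1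
  have hyJ : X.yh < LL X.J := h.toOk0.lt h.ya
  have hnn : ∀ i, 1 ≤ i → ∀ q, (0 : ℝ) ≤ if X.Rr x i q then X.sig i q else 0 := by
    intro i hi q
    split_ifs
    · exact hs i q hi
    · exact le_rfl
  unfold CD.K
  refine le_trans (b := ∑ i ∈ dif X.J (x / 8) m, ∑ q ∈ range (LL X.J),
    if X.Rr x i q then X.sig i q else 0) ?_ ?_
  · refine Finset.sum_le_sum fun i hi => ?_
    rw [mem_dif] at hi
    have ha : X.Rr x i (x / 8 / LL i) := ⟨m, hm, hmy, hmp, hvis, hi.2, Or.inl rfl⟩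
    have hb : X.Rr x i (m / LL i) := ⟨m, hm, hmy, hmp, hvis, hi.2, Or.inr rfl⟩
    have hsub : ({x / 8 / LL i, m / LL i} : Finset ℕ) ⊆ range (LL X.J) := by
      intro q hq
      rw [Finset.mem_insert, Finset.mem_singleton] at hq
      rw [Finset.mem_range]
      have h3 := Nat.div_le_self (x / 8) (LL i)
      have h4 := Nat.div_le_self m (LL i)
      rcases hq with hq | hq
      · rw [hq]; omega
      · rw [hq]; omega
    have h5 := Finset.sum_le_sum_of_subset_of_nonneg hsub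
      (f := fun q => if X.Rr x i q then X.sig i q else 0) (fun q _ _ => hnn i hi.1.1 q)
    rw [Finset.sum_pair hi.2] at h5
    simp only [if_pos ha, if_pos hb] at h5
    exact h5
  · refine Finset.sum_le_sum_of_subset_of_nonneg (Finset.filter_subset _ _) ?_
    intro i hi _
    exact Finset.sum_nonneg fun q _ => hnn i (Finset.mem_Icc.mp hi).1 q

theorem tI3D (h1 : S_RI3) (h2 : S_Sig) (h3 : S_KBd) (h4 : S_EDiff) (h5 : S_P1) (h6 : S_P2) :
    S_I3D := by
  intro X h x hen hxp1 m hm hmp hvis1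
  have hxp : x < X.p x := hxp1.trans_le (min_le_left _ _)
  have hxy : x < 8 * X.yh := hxp1.trans_le (min_le_right _ _)
  have hxT : x ∈ X.T := CD.mem_T.mpr ⟨hen, hxp, hxy⟩
  have hmp' : 8 * m < X.p x := hmp.trans_le (min_le_left _ _)
  have hmy : m < X.yh := by
    have h7 : 8 * m < 8 * X.yh := hmp.trans_le (min_le_right _ _)
    omega
  have hvis : X.D.vis X.J (x / 8) m :=
    ⟨fun hc => hvis1.1 (Finset.mem_insert_of_mem hc),
      fun hc => hvis1.2.1 (Finset.mem_insert_of_mem hc), hvis1.2.2⟩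
  have hrho : X.D1.rho x = X.r x * (1 - X.K x) := ((h4 X h x).2.2.2.1 hxT).2
  obtain ⟨hr0, -, hri⟩ := h1 X h x hxT
  have hkey := hri m hm hmy hmp' hvis
  have hsig := (h2 X h).1
  have hsum := sig_le_K h2 h hm hmy hmp' hvis
  rw [Finset.sum_add_distrib] at hsum
  have hP2 : ∑ i ∈ dif X.J (x / 8) m, X.D1.lamR X.en X.p1 i (x / 8 / LL i) ≤
      ∑ i ∈ dif X.J (x / 8) m, X.D.lamR X.en X.p i (x / 8 / LL i) +
        ∑ i ∈ dif X.J (x / 8) m, X.sig i (x / 8 / LL i) := by
    rw [← Finset.sum_add_distrib]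
    refine Finset.sum_le_sum fun i hi => ?_
    rw [mem_dif] at hi
    have hu := h6 X h x hxT m hm hmy hmp' i hi.1.1 hi.1.2 hi.2
    have hs := hsig i (x / 8 / LL i) hi.1.1
    unfold Dat.lamR
    rw [← min_add_add_right]
    exact le_min ((min_le_left _ _).trans (by linarith)) ((min_le_right _ _).trans (by linarith))
  have hP1 : ∑ i ∈ dif X.J (x / 8) m, X.D.lam i (m / LL i) -
      ∑ i ∈ dif X.J (x / 8) m, X.sig i (m / LL i) ≤
        ∑ i ∈ dif X.J (x / 8) m, X.D1.lam i (m / LL i) := by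
    rw [← Finset.sum_sub_distrib]
    refine Finset.sum_le_sum fun i hi => ?_
    rw [mem_dif] at hi
    have hu : X.D.U X.D.f i (m / LL i) - X.sig i (m / LL i) ≤ X.D1.U X.D1.f i (m / LL i) :=
      h5 X h i (m / LL i) hi.1.1 hi.1.2
    have hs := hsig i (m / LL i) hi.1.1
    unfold Dat.lam
    have ha := min_le_left (X.D.U X.D.f i (m / LL i) + uu i) 0
    have hb := min_le_right (X.D.U X.D.f i (m / LL i) + uu i) 0
    exact le_min (by linarith) (by linarith)
  have hK : 1 - X.K x ≤ Real.exp (-X.K x) := by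
    have h7 := Real.add_one_le_exp (-X.K x)
    linarith
  generalize hA' : ∑ i ∈ dif X.J (x / 8) m, X.D1.lamR X.en X.p1 i (x / 8 / LL i) = A' at hP2 ⊢
  generalize hA : ∑ i ∈ dif X.J (x / 8) m, X.D.lamR X.en X.p i (x / 8 / LL i) = A at hP2 hkey
  generalize hB' : ∑ i ∈ dif X.J (x / 8) m, X.D1.lam i (m / LL i) = B' at hP1 ⊢
  generalize hB : ∑ i ∈ dif X.J (x / 8) m, X.D.lam i (m / LL i) = B at hP1 hkey
  generalize hs1 : ∑ i ∈ dif X.J (x / 8) m, X.sig i (x / 8 / LL i) = s1 at hP2 hsum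
  generalize hs2 : ∑ i ∈ dif X.J (x / 8) m, X.sig i (m / LL i) = s2 at hP1 hsum
  rw [hrho]
  calc X.r x * (1 - X.K x) * Real.exp A'
      ≤ X.r x * Real.exp (-X.K x) * Real.exp (A + s1) := by
        refine mul_le_mul (mul_le_mul_of_nonneg_left hK hr0) (Real.exp_le_exp.mpr hP2)
          (Real.exp_pos _).le (mul_nonneg hr0 (Real.exp_pos _).le)
    _ = (X.r x * Real.exp A) * Real.exp (s1 - X.K x) := by
        rw [Real.exp_add, sub_eq_add_neg, Real.exp_add]
        ring
    _ ≤ Real.exp B * Real.exp (s1 - X.K x) :=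
        mul_le_mul_of_nonneg_right hkey (Real.exp_pos _).le
    _ = Real.exp (B + (s1 - X.K x)) := (Real.exp_add _ _).symm
    _ ≤ Real.exp B' := Real.exp_le_exp.mpr (by linarith)

end Pool.Agent.D9f
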