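import Pool.Agent.Lib.MP_d9c039_lc.F.SpecC

set_option autoImplicit false

/-!
# MP_d9c039_lc, the full statement: module Reset (helper2)
-/

namespace Pool.Agent.D9f

open Finset

theorem tReset (h1 : S_Low) : S_Reset := by
  intro J en p D h
  refine { toInvW := { toPre := h1 J en p (fun _ => 0) D h.toInvW.toPre (fun x _ => Nat.zero_le _)
                       opn := h.opn }
           cnt := ?_ }
  intro n
  have e : PP en (fun _ => 0) n = ∅ := by
    unfold PP
    rw [Finset.filter_eq_empty_iff]
    intro x _ hx
    have h2 : n ≤ 0 := hx.2
    omega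
  rw [e, Finset.card_empty]
  unfold kk
  positivity

end Pool.Agent.D9f
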