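import Pool.Agent.Lib.MP_d9c039_lc.F.Basic

set_option autoImplicit false

/-!
# MP_d9c039_lc, the full statement: modules A (potentials, closing, new tokens)

The paper proof is note 4671.  RULES: every module `X` is a proposition `S_X`; prove it in its own
file `Pool/Agent/Lib/MP_d9c039_lc/F/X.lean` as `theorem tX (h1 : ..) .. : S_X`, the hypotheses are the
statements named after 'uses' (in this order, keep all of them), namespace `Pool.Agent.D9f`, all other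
declarations private.  First line `import Pool.Agent.Lib.MP_d9c039_lc.F.SpecA` (or the Spec file which
contains the statement).  Basic lemmas: `F/Basic.lean` (`LL_succ`, `LL_dvd`, `div_up`, `div_sub`,
`mem_blk`, `mem_child`, `sum_blk_succ`, `sf_conv`, `sf_mono`, `sf_pos`, `sd_exp`, `sd_le`, `Fz.U_one`,
`Fz.U_succ`, `Fz.th_one`, `Fz.th_succ`, `Fz.ep_le`, ..).  NEVER let `norm_num`, `simp` or `decide`
evaluate `LL`, `NN`, `Finset.range (LL J)` or a sum over such a set.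
-/

namespace Pool.Agent.D9f

open Finset

/-- **Conv** (80 lines): convexity; `th` is the gradient of `U`. Induction on `j ≥ 1`. `j = 1`: equality
(`blk 1 q = Ico (q * NN 0) ((q+1) * NN 0)` since `LL 1 = NN 0`, `LL_succ 0`; `th = zz`). Step
`j + 1 → j + 2`: by `sum_blk_succ` and `Fz.U_succ` compare child by child, `i` in
`Ico (q * NN (j+1)) ((q+1) * NN (j+1))`: for `c ∈ blk (j+1) i` we have `c / LL (j+1) = i`
(`mem_blk`), so `th f (j+2) c = th f (j+1) c * ep i`. If `i` is closed then `ep i = 0` and both sides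
are `0`. If it is open then `ep i = sd (U f (j+1) i + uu) ≥ 0`, the left side is
`ep i * ∑ th f (j+1) c * (f' c - f c) ≤ ep i * (U f' - U f) ≤ sf (U f' + uu) - sf (U f + uu)`
(induction, `sf_conv`). -/
def S_Conv : Prop := ∀ (F : Fz) (f f' : ℕ → ℝ) (j q : ℕ), 1 ≤ j →
  ∑ c ∈ blk j q, F.th f j c * (f' c - f c) ≤ F.U f' j q - F.U f j q

/-- **Th** (30 lines): bounds for the price. Induction on `j`, `Fz.ep_nonneg`, `Fz.ep_le`. -/
def S_Th : Prop := ∀ (F : Fz) (f : ℕ → ℝ) (j c : ℕ), 1 ≤ j →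
  0 ≤ F.th f j c ∧ F.th f j c ≤ 2 * zz / 2 ^ j

/-- **Lip** (60 lines, uses `S_Conv`, `S_Th`). First part: `S_Conv` with `f`, `f'` exchanged gives
`U f' - U f ≤ ∑ th f' c * (f' c - f c)`, and `th f' c * (f' c - f c) ≤ 2 zz / 2 ^ j * max (f' c - f c) 0`
(`S_Th`). Second part (locality): the first part in both directions, all `max` are `0`. Third part:
the first part, exchanged, again all `max` are `0`. For `j = 0` the second and third part are `rfl`
(`U f 0 q = 0`). -/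
def S_Lip : Prop :=
  (∀ (F : Fz) (f f' : ℕ → ℝ) (j q : ℕ), 1 ≤ j →
    F.U f' j q - F.U f j q ≤ 2 * zz / 2 ^ j * ∑ c ∈ blk j q, max (f' c - f c) 0) ∧
  (∀ (F : Fz) (f f' : ℕ → ℝ) (j q : ℕ), (∀ c ∈ blk j q, f c = f' c) → F.U f j q = F.U f' j q) ∧
  (∀ (F : Fz) (f f' : ℕ → ℝ) (j q : ℕ), (∀ c ∈ blk j q, f c ≤ f' c) → F.U f j q ≤ F.U f' j q)

/-- **ThCmp** (60 lines, uses `S_Th`). Prove by induction on `j ≥ 1` the stronger bound
`th f' j c ≤ exp (2 zz T (1 - 2 / 2 ^ j)) * th f j c`. `j = 1`: equality. Step: if the block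
`(j+1, c / LL (j+1))` is closed both sides are `0`; otherwise
`sd (U f' + uu) ≤ sd (U f + uu) * exp (2 zz / 2 ^ (j+1) * T)` (`sd_exp`), and
`(1 - 2/2^(j+1)) + 1/2^(j+1) = 1 - 2/2^(j+2)`. The hypothesis for `j + 2` implies the one for
`j + 1`. -/
def S_ThCmp : Prop := ∀ (F : Fz) (f f' : ℕ → ℝ) (j c : ℕ) (T : ℝ), 1 ≤ j → 0 ≤ T →
  (∀ i, 1 ≤ i → i < j → F.U f' i (c / LL i) - F.U f i (c / LL i) ≤ 2 * zz / 2 ^ i * T) →
  F.th f' j c ≤ Real.exp (2 * zz * T) * F.th f j c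

/-- **ThEq** (60 lines). First part: induction on `j ≥ 1`; `ep = exp (min (U + uu) 0) / 2` for an open
block (`Fz.ep_op`, `sd`), `Finset.sum_Ico_succ_top`. Second part: induction on `j ≥ i`,
`Finset.prod_Ico_succ_top`. -/
def S_ThEq : Prop :=
  (∀ (F : Fz) (f : ℕ → ℝ) (j c : ℕ), 1 ≤ j → (∀ i, 1 ≤ i → i < j → ¬ F.cl i (c / LL i)) →
    F.th f j c = 2 * zz / 2 ^ j *
      Real.exp (∑ i ∈ Ico 1 j, min (F.U f i (c / LL i) + uu i) 0)) ∧
  (∀ (F : Fz) (f : ℕ → ℝ) (i j c : ℕ), 1 ≤ i → i ≤ j →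
    F.th f j c = F.th f i c * ∏ l ∈ Ico i j, F.ep f l (c / LL l))

/-- **VisTh** (90 lines, uses `S_Th`, `S_ThEq`). Let `j'` be the least `i ≥ 1` with
`c / LL i = m / LL i`; `j' ≤ j`. By `div_up`: `dif J c m = Ico 1 j'` (`mem_dif`). For `1 ≤ i < j'` the
blocks around `c` and `m` are different, so both are open (hypothesis). `S_ThEq`, first part, for `j'`:
`r * th f j' c ≤ th f j' m`. For `l ≥ j'` the blocks of `c` and `m` are equal, so by the second part
`th f j c = th f j' c * π`, `th f j m = th f j' m * π` with the same product `π ≥ 0`. -/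
def S_VisTh : Prop := ∀ (F : Fz) (f : ℕ → ℝ) (J j c m : ℕ) (r : ℝ), 1 ≤ j → j ≤ J →
  c / LL j = m / LL j →
  (∀ i, 1 ≤ i → i ≤ J → (F.cl i (c / LL i) ∨ F.cl i (m / LL i)) → c / LL i = m / LL i) →
  r * Real.exp (∑ i ∈ dif J c m, min (F.U f i (c / LL i) + uu i) 0) ≤
    Real.exp (∑ i ∈ dif J c m, min (F.U f i (m / LL i) + uu i) 0) →
  r * F.th f j c ≤ F.th f j m

/-- **Clos** (70 lines, uses `S_Lip`). Both by induction on `j ≥ 1`; `j = 1`: equality (`Fz.U_one`).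
Step, child by child (`Fz.U_succ`). (1): if the child `(j+1, i)` is closed in `F`: the same value. If it
is newly closed: the frozen value is `sf (F.U f (j+1) i + uu)`, which is the old term. If it is open in
`close`: induction. (2): closed in `F`: the same value. Newly closed:
`sf (F.U f (j+1) i + uu) ≤ sf (F.U f2 (j+1) i + uu)` (`S_Lip` third part, `sf_mono`). Open: induction
and `sf_mono`. -/
def S_Clos : Prop := ∀ (F : Fz) (J : ℕ) (f : ℕ → ℝ),
  (∀ j q, 1 ≤ j → (F.close J f).U f j q = F.U f j q) ∧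
  (∀ f2 : ℕ → ℝ, (∀ c, f c ≤ f2 c) → ∀ j q, 1 ≤ j → (F.close J f).U f2 j q ≤ F.U f2 j q)

/-- **CntCl** (80 lines). (1): by `Fz.U_succ` `U = - 16 Lam j + ∑ terms` (`CC (j + 1) = 16 Lam j` for
`j ≥ 1`: write `j = j' + 1`), all terms are `≥ 0` (`sf_pos`; `kap ≥ Lam j > 0`), the terms of the closed
children are `≥ Lam j`; so `card * Lam j < 16 Lam j`. (2): `U = - 2 ^ 9 + zz ∑ f`, `f ≥ 0`, `f = 1` for the
picked cells, `zz * 2 ^ 29 = 2 ^ 9`; `blk 1 q` and the index set of `Fz.U_one` are equal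
(`LL_succ 0`). -/
def S_CntCl : Prop :=
  (∀ (F : Fz) (f : ℕ → ℝ) (j q : ℕ), 1 ≤ j → F.U f (j + 1) q < 0 →
    (∀ i, F.cl j i → Lam j ≤ F.kap j i) → ∀ s : Finset ℕ,
    (∀ i ∈ s, i / NN j = q ∧ F.cl j i) → s.card < 16) ∧
  (∀ (F : Fz) (pk : Finset ℕ) (e : ℕ → ℝ) (q : ℕ), (∀ x, 0 ≤ e x) → F.U (fS pk e ∅) 1 q < 0 →
    ∀ s : Finset ℕ, (∀ c ∈ s, c / LL 1 = q ∧ c ∈ pk) → s.card < 2 ^ 29)

/-- **Par** (90 lines). `aa (j+1) ≥ 6 log (LL (j+1))` by induction. `j = 0`: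
`aa 1 = 2 ^ 9 - 1 / 2 ^ 17 ≥ 240 log 2` (`Real.log_two_lt_d9`). Step: `LL (j+2) = LL (j+1) ^ 4`
(`LL_pow4`), and `NN (j+1) = LL (j+1) ^ 3` (both are powers of 2). So
`uu (j+1) = aa (j+1) - 3 log (LL (j+1)) ≥ 3 log (LL (j+1)) ≥ 120 log 2 > gg (j+1)` (`gg_le`, `LL_ge`), so
`sf (uu - gg) = (1 + uu - gg) / 2` and
`aa (j+2) = 8 (1 + uu - gg) - 1/2 ≥ 8 uu ≥ 24 log (LL (j+1)) = 6 log (LL (j+2))`. The second part follows:
`6 log (LL (j+1)) ≥ 240 log 2 > gg (j+1)`. -/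
def S_Par : Prop := (∀ j, 6 * Real.log (LL (j + 1)) ≤ aa (j + 1)) ∧ ∀ j, gg (j + 1) < aa (j + 1)

/-- **Init** (100 lines, uses `S_Par`). Claim: `D0.U D0.f j q = - aa j` for `j ≥ 1`: `D0.f c = 8 E0`;
`j = 1`: `- 2 ^ 9 + 2 ^ 40 * zz * 8 * E0 = - 2 ^ 9 + 1 / 2 ^ 17`. Step: all `NN (j+1)` children are
open with the term `sf (- aa (j+1) + uu (j+1)) = sf (- log NN) = exp (- log NN) / 2 = 1 / (2 NN)`
(`log NN ≥ 0`), their sum is `1 / 2`; `- CC (j+2) + 1/2 = - aa (j+2)` by definition. So `neg` and `opn`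
follow from `S_Par` (`gg_pos`). `PP ∅ p n = ∅`, `kk > 0`; the rest is trivial. -/
def S_Init : Prop := ∀ (J : ℕ) (p : ℕ → ℕ), Inv J ∅ p D0

/-- **Low** (80 lines, uses `S_Lip`): lowering `p` (a mark, a reset). `PP en p' n ⊆ PP en p n`. `i3`: a
cell `m` in the new range is in the old range and `x < p' x ≤ p x`; `D.UR en p' i q ≤ D.UR en p i q`
by `S_Lip` third part (`fS` grows with the set since `e ≤ E0`), so `lamR` drops, `D.rho x ≥ 0`
(`e0`, `c0_pos`). `i4`: `p' (tk v) ≤ p (tk v)`. Everything else does not depend on `p`. -/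
def S_Low : Prop := ∀ (J : ℕ) (en : Finset ℕ) (p p' : ℕ → ℕ) (D : Dat), Pre J en p D →
  (∀ x ∈ en, p' x ≤ p x) → Pre J en p' D

/-- **Add** (100 lines): a new token `x`. `PP` grows at most by `x`. `fresh` of the old state gives
`D.e x = E0`, so `D.rho x = 0` and `i3` for `x` is `0 ≤ exp ..`; for `x' ∈ en`, `x' ≠ x`:
`Function.update` does not change `p x'`, and `fS D.pk D.e (PP ..)` is unchanged since it changes at most
at `x`, where both values are `E0`. `alive`: `c0 ≤ E0`. `i4`: `D.tk v ∈ en`, so it is not `x`. -/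
def S_Add : Prop := ∀ (J : ℕ) (en : Finset ℕ) (p : ℕ → ℕ) (D : Dat) (x : ℕ), Inv J en p D →
  x ∉ en → x < 8 * LL J → InvW J (insert x en) (Function.update p x (8 * LL J)) D

/-- **CloseInv** (90 lines, uses `S_Clos`). Let `D'` be the new data; `D'.f = D.f` (definitionally),
`D'.U D.f j q = D.U D.f j q` for `j ≥ 1` (`S_Clos` (1)), so `D'.lam i q = D.lam i q` for `i ≥ 1`.
`kapge`: closed before: the same value; newly closed: `sf (U + uu) ≥ sf (- gg + uu) = Lam j`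
(`sf_mono`). `opn`: a block which is not closed in `D'` has `U < - gg j`. `i3`: `D'.vis` implies
`D.vis`; `D'.UR ≤ D.UR` by `S_Clos` (2) (`D.f c ≤ fS D.pk D.e S c` since `e ≤ E0`), `D.rho x ≥ 0`. `i4`:
`D.clo` implies `D'.clo`. -/
def S_CloseInv : Prop := ∀ (J : ℕ) (en : Finset ℕ) (p : ℕ → ℕ) (D : Dat), Pre J en p D →
  InvW J en p { D with toFz := D.toFz.close J D.f }

/-- **URle** (80 lines, uses `S_Lip`). First part: `S_Lip` third part (`e ≤ E0`). Second part: `S_Lip`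
first part; for `c` not picked the difference of the two cell values is
`∑ x in the cell, x ∈ PP, (E0 - D.e x) ≤ c0 * #(cell ∩ PP)`, since the tokens of `PP en p n` are alive
(`x < n ≤ p x`, `alive`, `E0 = 2 c0`); for a picked cell it is `0`. So the sum over the cells is at most
`c0 * (PP en p n).card ≤ c0 * kk ≤ 129` (`cntw`, `kk_c0`; the cells `x / 8` of the tokens:
`Finset.card_eq_sum_card_fiberwise` or `sum_comm`). -/
def S_URle : Prop := ∀ (J : ℕ) (en : Finset ℕ) (p : ℕ → ℕ) (D : Dat), Pre J en p D →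
  ∀ i q, 1 ≤ i → D.U D.f i q ≤ D.UR en p i q ∧ D.UR en p i q ≤ D.U D.f i q + 2 * zz / 2 ^ i * 129

end Pool.Agent.D9f
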