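import Pool.Agent.Lib.MP_d9c039_lc.F.Basic2

set_option autoImplicit false

/-!
# MP_d9c039_lc, the full statement: modules B (the direct answer, case D)

The paper proof is note 4671, part (3), case D.  RULES: see the header of `F/SpecA.lean`.  `X : CD` is
the data of a direct answer, `h : X.Ok` its properties.  Abbreviations in the docstrings:
`f = X.D.f`, `f' = X.D1.f`, `U f j q = X.D.U f j q` (note that `X.D1.U = X.D.U`, since the closed blocks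
are the same), `th f j c = X.D.th f j c`.  More basic lemmas: `F/Basic2.lean` (`sum_cells`, `sum_geo`,
`exp_zz_le`, `rho_nonneg`, `CD.Ok0.lt`, ..).  The cells of the tokens of `X.JJ` are `< LL X.J`
(`CD.Ok0.lt`), so `x / 8 / LL i < LL X.J` too.
-/

namespace Pool.Agent.D9f

open Finset

/-- **Choice** (80 lines, uses `S_ThEq`). `Adm` and `tb` do not depend on `d`, `yh`. The admissible cells
are a finite nonempty set (all `< ck`; `JJ` is nonempty by `card`, `adm`). `tb > 0` on it: `S_ThEq`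
first part. Let `d` be the minimum of `tb`, attained at `m`; `yh` the least admissible cell with
`tb ≤ 2 d`; so `yh ≤ m`. -/
def S_Choice : Prop := ∀ X : CD, X.Ok0 →
  ∃ (d : ℝ) (yh : ℕ), ({ X with d := d, yh := yh } : CD).Ok

/-- **Pay** (200 lines, uses `S_ThEq`, `S_URle`). Let `x ∈ JJ`. It is alive (`CD.Ok.pp`: `x < n0 ≤ p x`),
`0 ≤ rho x ≤ 1`. `d ≤ tb (x / 8)` (`dm`, `adm`). Put `A = ∑ i ∈ Ico 1 jb, lam i (x / 8 / LL i)`,
`B = ∑ i ∈ Ico 1 jb, lamR i (x / 8 / LL i)`. By `S_URle` (`min` is 1-Lipschitz) and `sum_geo_Ico`: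
`A ≤ B ≤ A + 258 zz`. `S_ThEq` first part (no closed block of level `< jb` around `x / 8`, by `adm`):
`tb (x / 8) = 2 zz / 2 ^ jb * exp A`, so `tb (x / 8) ≤ thR x ≤ 1.001 * tb (x / 8)` (`exp_zz_le`).
CASE `x < 8 yh`, i.e. `x / 8 < yh`: `lt` gives `2 d < tb (x / 8) ≤ thR x`, so `2 d / thR x ≤ 1`;
`x ∈ T`. Take `m` from `ms`: `x / 8 < yh ≤ m`, `8 m < 8 ck < n0 ≤ p x`, and `x / 8`, `m` see each other:
both are not picked (`Adm`); if a block of level `i` around one of them is closed then `i ≥ jb` (`Adm`),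
so the two blocks are equal (`div_up` from `jb`, both `= qb`). So `i3` applies; `dif J (x / 8) m` is a
subset of `Ico 1 jb`, and for `i ∈ Ico 1 jb` not in it the blocks are equal and
`lamR i ≤ lam i + 2 zz / 2 ^ i * 129`. Multiply `i3` by the exponential of the sum over these `i`:
`rho x * exp B ≤ exp (∑ i ∈ Ico 1 jb, lam i (m / LL i) + 258 zz)`, that is
`rho x * thR x ≤ 1.001 * tb m = 1.001 * d`. So `rho x ≤ 1.001 d / thR x`,
`del x ≥ c0 * 0.999 * d / thR x ≥ 0`, `tb * del ≥ c0 * 0.999 * d / 1.001`; `del x ≤ c0 * (2 d / thR x) ≤ c0`.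
CASE `8 yh ≤ x`: `del x = c0 * d / tb (x / 8) ≤ c0`, `tb * del = c0 * d`. The statement for
`x / 8 = yh` is in this case. -/
def S_Pay : Prop := ∀ X : CD, X.Ok → ∀ x ∈ X.JJ,
  0 ≤ X.del x ∧ X.del x ≤ c0 ∧ 0.99 * (c0 * X.d) ≤ X.tb (x / 8) * X.del x ∧
  (x / 8 = X.yh → X.tb (x / 8) * X.del x ≤ c0 * X.d) ∧
  (x < 8 * X.yh → x ∈ X.T ∧ 0 ≤ 2 * X.d / X.thR x ∧ 2 * X.d / X.thR x ≤ 1)

/-- **RI3** (120 lines, uses `S_ThEq`, `S_URle`, `S_Pay`). `x ∉ JJ`: `r x = rho x`, use `i3`,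
`rho_nonneg`, `rho_le_one` (`mem_T`). `x ∈ JJ`: `x < 8 yh` since `x ∈ T`; the bounds are in `S_Pay`. Let `m` be
as in the statement. `m` is admissible: `c1 < x / 8 < m < yh < ck`; `m / LL jb = qb` since
`x / 8 / LL jb = qb = yh / LL jb` (`adm`, `ya`) and `x / 8 ≤ m ≤ yh` (`Nat.div_le_div_right`); not picked
by `vis`; if a block `(i, m / LL i)`, `1 ≤ i < jb`, is closed then by `vis` it is `(i, x / 8 / LL i)`,
against `adm`. So `lt` gives `2 d < tb m = 2 zz / 2 ^ jb * exp (∑ i ∈ Ico 1 jb, lam i (m / LL i))`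
(`S_ThEq`), and `r x * thR x = 2 d` (`thR x > 0`), so
`r x * exp (∑ Ico 1 jb, lamR i (x / 8 / LL i)) ≤ exp (∑ Ico 1 jb, lam i (m / LL i))`. For `i ∈ Ico 1 jb`
not in `dif J (x / 8) m` the blocks are equal and `lam ≤ lamR` (`S_URle`): divide by the exponential of
the sum over these `i`. (`dif J (x / 8) m ⊆ Ico 1 jb` by `div_up` from `jb`.) -/
def S_RI3 : Prop := ∀ X : CD, X.Ok → ∀ x ∈ X.T, 0 ≤ X.r x ∧ X.r x ≤ 1 ∧
  ∀ m, x / 8 < m → m < X.yh → 8 * m < X.p x → X.D.vis X.J (x / 8) m →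
    X.r x * Real.exp (∑ i ∈ dif X.J (x / 8) m, X.D.lamR X.en X.p i (x / 8 / LL i)) ≤
      Real.exp (∑ i ∈ dif X.J (x / 8) m, X.D.lam i (m / LL i))

/-- **Sig** (80 lines, uses `S_Th`, `S_Pay`). `th ≥ 0`, `del ≥ 0` on `JJ`. The sum over
`q ∈ range (LL J)` is `∑ x ∈ JJ, th f i (x / 8) * del x` (`Finset.sum_fiberwise_of_maps_to`,
`x / 8 / LL i < LL J` by `CD.Ok0.lt`), at most `2 ^ 43 * (2 zz / 2 ^ i) * c0 = 8 zz / 2 ^ i` (`nJ_c0`,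
`card`). Third part: `sum_geo`. -/
def S_Sig : Prop := ∀ X : CD, X.Ok → (∀ i q, 1 ≤ i → 0 ≤ X.sig i q) ∧
  (∀ i, 1 ≤ i → ∑ q ∈ range (LL X.J), X.sig i q ≤ 8 * zz / 2 ^ i) ∧
  ∑ i ∈ Icc 1 X.J, ∑ q ∈ range (LL X.J), X.sig i q ≤ 8 * zz

open Classical in
/-- **CntR** (70 lines). The set is contained in the union of `PP en p (8 * (q * LL i))` and
`PP en p (8 * ((q + 1) * LL i))` (`cntw`). Let `x ∈ T` and `m` be a witness of `Rr x i q`. If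
`q = x / 8 / LL i`: `x < 8 ((q+1) LL i)`, and `m / LL i > q` since `m > x / 8` and the blocks differ, so
`(q+1) LL i ≤ m` and `8 ((q+1) LL i) ≤ 8 m < p x`. If `q = m / LL i`: `q LL i ≤ m`, so
`8 (q LL i) < p x`, and `x / 8 / LL i < q`, so `x < 8 (q LL i)`. -/
def S_CntR : Prop := ∀ X : CD, X.Ok → ∀ i q,
  ((X.T.filter (fun x => X.Rr x i q)).card : ℝ) ≤ 2 * (kk : ℝ)

/-- **KBd** (90 lines, uses `S_Sig`, `S_CntR`). `0 ≤ K x ≤` (the double sum of `S_Sig`). Exchange the sums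
in `∑ x ∈ T, K x`: `∑ i q, sig i q * #{x ∈ T | Rr x i q} ≤ 2 kk * 8 zz`; `c0 * (2 kk) ≤ 258` (`kk_c0`).
`KB ≥ 0`. -/
def S_KBd : Prop := ∀ X : CD, X.Ok → (∀ x, 0 ≤ X.K x ∧ X.K x ≤ 8 * zz) ∧
  c0 * ∑ x ∈ X.T, X.K x ≤ 2064 * zz ∧ ∀ j qB x, 0 ≤ X.KB j qB x

/-- **EDiff** (90 lines, uses `S_Pay`, `S_RI3`, `S_KBd`). `x ∈ T`, `x ∈ JJ`: `x < 8 yh`,
`del x = c0 (r x - rho x)`, and `D.e x = E0 - c0 rho x` (`e_eq_rho`). `x ∈ T`, `x ∉ JJ`: `r x = rho x`,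
`del x = 0`. `x ∉ T`: the definition. Bounds: for `x ∈ T`: `0 ≤ r x (1 - K x) ≤ 1` (`8 zz ≤ 1`),
`E0 = 2 c0`. For `x ∉ T`: `0 ≤ del x`; if `x ∈ JJ` then `x` is alive and `del x ≤ c0 ≤ D.e x` (`alive`).
`x ∉ en`: `x ∉ T`, `x ∉ JJ` (`CD.Ok.pp`), `fresh`. -/
def S_EDiff : Prop := ∀ X : CD, X.Ok → ∀ x,
  X.e' x = X.D.e x - X.del x + (if x ∈ X.T then c0 * (X.r x * X.K x) else 0) ∧
  0 ≤ X.e' x ∧ X.e' x ≤ E0 ∧
  (x ∈ X.T → c0 ≤ X.e' x ∧ X.D1.rho x = X.r x * (1 - X.K x)) ∧ (x ∉ X.en → X.e' x = E0)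

/-- **Cell** (60 lines, uses `S_EDiff`): the change of the cell values. `D1.f = fS (insert yh pk) e' ∅`.
`yh ∉ pk` (`ya`); `0 ≤ f yh ≤ 8 E0 ≤ 1`. For `c ∉ pk`, `c ≠ yh` sum `S_EDiff` over the cell. -/
def S_Cell : Prop := ∀ X : CD, X.Ok → (∀ c ∈ X.D.pk, X.D1.f c = X.D.f c) ∧
  (X.D1.f X.yh = 1 ∧ 0 ≤ X.D.f X.yh ∧ X.D.f X.yh ≤ 1) ∧
  ∀ c, c ∉ X.D.pk → c ≠ X.yh → X.D1.f c - X.D.f c =
    ∑ x ∈ Ico (8 * c) (8 * c + 8),
      (-X.del x + (if x ∈ X.T then c0 * (X.r x * X.K x) else 0))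

/-- **TV** (110 lines, uses `S_Pay`, `S_RI3`, `S_KBd`, `S_Cell`). (1): the term of `c = yh` is at most `1`;
for `c` picked it is `0`; otherwise at most `∑ x in the cell, [x ∈ T] c0 K x` (`del ≥ 0`, `r ≤ 1`,
`K ≥ 0`; `del x = 0` outside `JJ`). So the sum is at most `1 + c0 ∑ x ∈ T, K x` (`sum_cells` with
`h = 1`). (2): the term is at most `∑ x in the cell, [x ∈ JJ] del x` (`0` for `c = yh` as `f yh ≤ 1`), the sum
at most `2 ^ 43 * c0 = 4`. -/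
def S_TV : Prop := ∀ X : CD, X.Ok → ∀ j q,
  ∑ c ∈ blk j q, max (X.D1.f c - X.D.f c) 0 ≤ 1 + 2064 * zz ∧
  ∑ c ∈ blk j q, max (X.D.f c - X.D1.f c) 0 ≤ 4

/-- **ThC** (50 lines, uses `S_ThCmp`, `S_Lip`, `S_TV`). `S_ThCmp` with `T = 4` in both directions, the
hypothesis by `S_Lip` first part and `S_TV` (`1 + 2064 zz ≤ 4`); `exp (8 zz) ≤ 1.001` (`exp_zz_le`);
`1 / 1.001 ≥ 0.999`. -/
def S_ThC : Prop := ∀ X : CD, X.Ok → ∀ j c, 1 ≤ j →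
  X.D.th X.D1.f j c ≤ 1.001 * X.D.th X.D.f j c ∧ 0.999 * X.D.th X.D.f j c ≤ X.D.th X.D1.f j c

/-- **Sup** (60 lines, uses `S_ThEq`). `sig i q ≠ 0` gives `x ∈ JJ` with `x / 8 / LL i = q` and
`th f i (x / 8) ≠ 0`. If `i > jb` then `jb < J`, so `(jb, qb)` is closed (`top`), it is the block of
level `jb` around `x / 8` (`adm`), and `S_ThEq` second part (`jb ≤ i`, the factor `l = jb` is `0`,
`Fz.ep_cl`) gives `th f i (x / 8) = 0`. So `i ≤ jb`, and `q * LL i / LL jb = x / 8 / LL jb = qb`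
(`div_sub`). -/
def S_Sup : Prop := ∀ X : CD, X.Ok → ∀ i q, 1 ≤ i → i ≤ X.J → X.sig i q ≠ 0 →
  i ≤ X.jb ∧ q * LL i / LL X.jb = X.qb ∧ ∃ x ∈ X.JJ, x / 8 / LL i = q

/-- **KeyA** (100 lines, uses `S_Th`, `S_ThEq`, `S_VisTh`, `S_URle`, `S_RI3`). Let
`π = ∏ l ∈ Ico i j, ep f l (q * LL i / LL l) ≥ 0`. For every cell `c` with `c / LL i = q`:
`c / LL l = q * LL i / LL l` for `l ≥ i` (`div_sub`), so `th f j c = th f i c * π ≤ 2 zz / 2 ^ i * π`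
(`S_ThEq` second part, `S_Th`). Let `m` be a witness of `Rr x i q`. If `q = x / 8 / LL i`: `c = x / 8`,
`r x ≤ 1`. If `q = m / LL i`: `m / LL j = q * LL i / LL j = x / 8 / LL j`; `S_RI3` and `lam ≤ lamR`
(`S_URle`) give the hypothesis of `S_VisTh` with `r = r x`, `c = x / 8`: `r x * th f j (x / 8) ≤ th f j m`,
and `c = m`. -/
def S_KeyA : Prop := ∀ X : CD, X.Ok → ∀ i j q x, 1 ≤ i → i ≤ j → j ≤ X.J → x ∈ X.T →
  X.Rr x i q → q * LL i / LL j = x / 8 / LL j →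
  X.D.th X.D.f j (x / 8) * X.r x ≤
    2 * zz / 2 ^ i * ∏ l ∈ Ico i j, X.D.ep X.D.f l (q * LL i / LL l)

/-- **KeyB** (90 lines, uses `S_ThEq`). For `x ∈ JJ` with `x / 8 / LL i = q`:
`th f i (x / 8) * ∏ = th f j (x / 8)` (`S_ThEq` second part, `div_sub`). Then regroup
`{x ∈ JJ | x / 8 / LL j = qB}` by the value `q = x / 8 / LL i` (`< LL J`, and
`q * LL i / LL j = x / 8 / LL j`, `div_sub`): `Finset.sum_fiberwise_of_maps_to`. -/
def S_KeyB : Prop := ∀ X : CD, X.Ok → ∀ i j qB, 1 ≤ i → i ≤ j → j ≤ X.J →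
  ∑ q ∈ (range (LL X.J)).filter (fun q => q * LL i / LL j = qB),
    X.sig i q * ∏ l ∈ Ico i j, X.D.ep X.D.f l (q * LL i / LL l) = X.sig j qB

/-- **Key** (130 lines, uses `S_Sig`, `S_CntR`, `S_KeyA`, `S_KeyB`). Exchange the sums: the left side is
`c0 * ∑ i ∈ Icc 1 j, ∑ q (with q * LL i / LL j = qB), sig i q * ∑ x ∈ T, x / 8 / LL j = qB, Rr x i q, th f j (x/8) * r x`.
The inner sum is at most `2 kk * (2 zz / 2 ^ i) * ∏` (`S_KeyA`, `S_CntR`, `∏ ≥ 0`); so for fixed `i` the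
sum over `q` is at most `2 kk * (2 zz / 2 ^ i) * sig j qB` (`S_KeyB`, `sig ≥ 0`). `c0 * 2 kk ≤ 258`
(`kk_c0`), `∑ 2 zz / 2 ^ i ≤ 2 zz` (`sum_geo`). -/
def S_Key : Prop := ∀ X : CD, X.Ok → ∀ j qB, 1 ≤ j → j ≤ X.J →
  ∑ x ∈ X.T.filter (fun x => x / 8 / LL j = qB),
    X.D.th X.D.f j (x / 8) * (c0 * (X.r x * X.KB j qB x)) ≤ 516 * zz * X.sig j qB

/-- **KEq** (110 lines, uses `S_Sup`). (1): a term of `K x` with `sig i q ≠ 0` has `i ≤ jb` and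
`q * LL i / LL jb = qb` (`S_Sup`), so it occurs in `KB jb qb x`; conversely every term of `KB` occurs in
`K` (`jb ≤ J`). (2): let `m` be a witness of `Rr x i' q'`. `8 m < p x < 8 (qB + 1) LL i`, so
`m < (qB + 1) LL i`, and `m > x / 8 ≥ qB LL i`, so `m / LL i = qB = x / 8 / LL i`. As
`x / 8 / LL i' ≠ m / LL i'`, `i' < i` (`div_up`), and `q' * LL i' / LL i = qB` in both cases (`div_sub`).
So the terms of `K x` and `KB i qB x` are the same. -/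
def S_KEq : Prop := ∀ X : CD, X.Ok → ∀ x ∈ X.T, X.K x = X.KB X.jb X.qb x ∧
  ∀ i qB, 1 ≤ i → i ≤ X.J → x / 8 / LL i = qB → X.p x < 8 * ((qB + 1) * LL i) →
    X.K x = X.KB i qB x

/-- **Rise** (30 lines, uses `S_Lip`, `S_TV`). `U f' - U f ≤ 2 zz / 2 ^ j * (1 + 2064 zz)`, less than
`gg j = 4 zz / 2 ^ j`. -/
def S_Rise : Prop := ∀ X : CD, X.Ok → ∀ j q, 1 ≤ j →
  X.D.U X.D1.f j q < X.D.U X.D.f j q + gg j

/-- **P1** (90 lines, uses `S_Conv`, `S_Th`, `S_Pay`, `S_RI3`, `S_KBd`, `S_Cell`). `S_Conv`: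
`U f' - U f ≥ ∑ c ∈ blk, th f i c * (f' c - f c)`. For every cell
`f' c - f c ≥ - ∑ x in the cell, [x ∈ JJ] del x`: for `c` picked `f' c = f c` (and `del ≥ 0`), for `c = yh`
`f' c = 1 ≥ f c`, otherwise `S_Cell` with refunds `≥ 0` (`del x = 0` outside `JJ`). Then `sum_cells`
(`h = th f i`, `g = del`) and `th ≥ 0`. -/
def S_P1 : Prop := ∀ X : CD, X.Ok → ∀ i q, 1 ≤ i → i ≤ X.J →
  X.D.U X.D.f i q - X.sig i q ≤ X.D.U X.D1.f i q

/-- **ClB** (130 lines, uses `S_Conv`, `S_Th`, `S_ThEq`, `S_Pay`, `S_RI3`, `S_KBd`, `S_Cell`, `S_Sup`). By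
`S_Conv` (`f`, `f'` exchanged) `U f' - U f ≤ ∑ c ∈ blk j q, th f' j c * (f' c - f c)`. Every term is
`≤ 0`: let `f' c > f c`; we show `th f' j c = 0`, by a closed block `(l, c / LL l)`, `1 ≤ l < j`
(`S_ThEq` second part, `Fz.ep_cl`). Always `c / LL j = q`. By `S_Cell`: `c = yh`, or `c` is not picked and
some `x ∈ T` with `x / 8 = c` has `r x K x > 0`. (a) `c = yh`: `yh / LL jb = qb` (`ya`). `j < jb` is
against `ya` (`(j, q)` is closed); `j = jb` gives `q = qb`, excluded; `j > jb`: then `jb < J`, so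
`(jb, qb)` is closed (`top`), `l = jb`. (b) `K x ≠ 0`: there are `i ∈ Icc 1 J`, `q'` with `Rr x i q'`,
`sig i q' ≠ 0`; by `S_Sup` `i ≤ jb`, `q' * LL i / LL jb = qb`, a payer `x'` with `x' / 8 / LL i = q'`. Let
`m` be the witness of `Rr`. As `(j, q) = (j, c / LL j)` is closed, `vis` gives `m / LL j = q`; so `i < j`
(`div_up`) and `q' * LL i / LL j = q` (`q' = c / LL i` or `m / LL i`, `div_sub`), so
`x' / 8 / LL j = q`. `j < jb`: against `adm` for `x'`. `j = jb`: `q = qb`, excluded. `j > jb`: `(jb, qb)` is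
closed; it is the block of level `jb` around `c`: clear if `q' = c / LL i`; if `q' = m / LL i` then
`m / LL jb = qb` and `vis` gives `c / LL jb = m / LL jb`. So `l = jb`. -/
def S_ClB : Prop := ∀ X : CD, X.Ok → ∀ j q, 1 ≤ j → j ≤ X.J → X.D.cl j q →
  ¬ (j = X.jb ∧ q = X.qb) → X.D.U X.D1.f j q ≤ X.D.U X.D.f j q

/-- **BetaB** (180 lines, uses `S_Conv`, `S_Th`, `S_Pay`, `S_RI3`, `S_Sig`, `S_KBd`, `S_Cell`, `S_ThC`,
`S_KEq`, `S_Key`). By `S_Conv` (exchanged) `U f' - U f ≤ ∑ c ∈ blk jb qb, th f' jb c * (f' c - f c)`.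
Picked cells: `0`. `c = yh`: at most `th f' jb yh ≤ 1.001 * 2 d` (`S_ThC`, `y2`). Other cells: by
`S_Cell` and `S_ThC` at most `- 0.999 ∑ [x ∈ JJ] tb c * del x + 1.001 ∑ [x ∈ T] tb c * c0 r K`. With
`S = ∑ x ∈ JJ, x / 8 ≠ yh, tb (x / 8) * del x` and `R = ∑ x ∈ T, x / 8 / LL jb = qb, tb (x/8) * (c0 (r x K x))`
(`sum_cells`) the change is at most `2.002 d - 0.999 S + 1.001 R`. `K x = KB jb qb x` (`S_KEq`), so
`R ≤ 516 zz * sig jb qb` (`S_Key`); `sig jb qb = ∑ x ∈ JJ, tb (x / 8) * del x ≤ S + 8 c0 d` (`adm`; at most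
`8` tokens have `x / 8 = yh`, `S_Pay`). `S ≥ (2 ^ 43 - 8) * 0.99 * c0 * d ≥ 3.9 d` (`card`, `S_Pay`).
So the change is negative. -/
def S_BetaB : Prop := ∀ X : CD, X.Ok → X.D.U X.D1.f X.jb X.qb ≤ X.D.U X.D.f X.jb X.qb

/-- **P2** (220 lines, uses `S_Conv`, `S_Th`, `S_Lip`, `S_ThCmp`, `S_Pay`, `S_RI3`, `S_Sig`, `S_KBd`,
`S_EDiff`, `S_KEq`, `S_Key`). Let `qB = x / 8 / LL i`, `n = 8 ((qB + 1) LL i)`. As `m > x / 8` and the
blocks differ, `(qB + 1) LL i ≤ m < yh`. So `n < 8 yh` and `PP en p1 n = PP en p n =: S`. Put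
`F = fS pk e S`, `F' = fS (insert yh pk) e' S`; `UR = U F i qB`, `UR' = U F' i qB`. All cells `c` of
`blk i qB` are `< m < yh`. For `c` picked `F' c = F c = 1`; otherwise
`F' c - F c = ∑ x'' in the cell, x'' ∉ S, (e' x'' - e x'') ≤ ∑ [x'' ∈ T, x'' ∉ S] c0 r K` (`S_EDiff`,
`del ≥ 0`). `S_Conv` (exchanged) and `sum_cells`:
`UR' - UR ≤ ∑ x'' ∈ T \ S, x'' / 8 / LL i = qB, th F' i (x''/8) * (c0 (r K))`. `S_ThCmp` with `T = 130`:
`th F' i c ≤ 1.001 * th f i c` for `c` in `blk i qB` (`exp_zz_le`, `260 ≤ 1000`); its hypothesis by `S_Lip`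
first part: on the cells of the block `∑ max (F' c - f c) 0 ≤ c0 * kk + c0 ∑ x'' ∈ T, K x'' ≤ 129 + 2064 zz`
(for `x'' ∈ S`: `E0 - e x'' ≤ c0`, as `x''` is alive; `#S ≤ kk`). For `x'' ∈ T \ S` in the block:
`x'' < n`, so `p x'' < n` (`mem_PP`), and `K x'' = KB i qB x''` (`S_KEq` (2)). So by `S_Key`
`UR' - UR ≤ 1.001 * 516 zz * sig i qB ≤ sig i qB` (`sig ≥ 0`). -/
def S_P2 : Prop := ∀ X : CD, X.Ok → ∀ x ∈ X.T, ∀ m, x / 8 < m → m < X.yh → 8 * m < X.p x →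
  ∀ i, 1 ≤ i → i ≤ X.J → x / 8 / LL i ≠ m / LL i →
    X.D1.UR X.en X.p1 i (x / 8 / LL i) ≤
      X.D.UR X.en X.p i (x / 8 / LL i) + X.sig i (x / 8 / LL i)

/-- **I3D** (130 lines, uses `S_RI3`, `S_Sig`, `S_KBd`, `S_EDiff`, `S_P1`, `S_P2`). `x < p1 x` gives
`x ∈ T`; `8 m < p1 x` gives `8 m < p x` and `m < yh`; `D1.vis` implies `D.vis`. `D1.rho x = r x (1 - K x)`
(`S_EDiff`). For `i ∈ dif J (x / 8) m`: `D1.lamR i ≤ lamR i + sig i (x / 8 / LL i)` (`S_P2`, `min`),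
`D1.lam i (m / LL i) ≥ lam i (m / LL i) - sig i (m / LL i)` (`S_P1`). And
`∑ i ∈ dif, (sig i (x / 8 / LL i) + sig i (m / LL i)) ≤ K x`: for `i ∈ dif` the two indices are different,
`< LL J` (`m < yh < LL J`, `CD.Ok0.lt`), and `Rr` holds for both. `1 - K x ≤ exp (- K x)`
(`Real.one_sub_le_exp_neg` or `Real.add_one_le_exp`). So
`D1.rho x * exp (∑ D1.lamR) ≤ r x * exp (∑ lamR) * exp (- K x + ∑ sig i (x/8/LL i)) ≤
exp (∑ lam) * exp (- ∑ sig i (m / LL i)) ≤ exp (∑ D1.lam)` by `S_RI3` (`r x ≥ 0`). -/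
def S_I3D : Prop := ∀ X : CD, X.Ok → ∀ x ∈ X.en, x < X.p1 x → ∀ m, x / 8 < m → 8 * m < X.p1 x →
  X.D1.vis X.J (x / 8) m →
    X.D1.rho x * Real.exp (∑ i ∈ dif X.J (x / 8) m, X.D1.lamR X.en X.p1 i (x / 8 / LL i)) ≤
      Real.exp (∑ i ∈ dif X.J (x / 8) m, X.D1.lam i (m / LL i))

/-- **PreD** (100 lines, uses `S_EDiff`, `S_Rise`, `S_ClB`, `S_BetaB`, `S_I3D`). `p1 x ≤ p x`, so
`PP en p1 n ⊆ PP en p n`. `e0`, `fresh`, `alive` from `S_EDiff` (`x < p1 x` gives `x ∈ T`). `neg`: if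
`(j, q) = (jb, qb)`: `S_BetaB`; otherwise if `(j, q)` is closed: `S_ClB`; otherwise `opn` and `S_Rise`.
(`X.D1.U = X.D.U` definitionally.) `kapge`: unchanged. `i3`: `S_I3D`. `i4`, `inj`, `spc`: `fm`, `ty`, `tk`,
`cl` are unchanged, `pk` grows, `p1 ≤ p`. -/
def S_PreD : Prop := ∀ X : CD, X.Ok → Pre X.J X.en X.p1 X.D1

/-- **CaseD** (50 lines, uses `S_Choice`, `S_PreD`, `S_CloseInv`). `S_Choice`, `S_PreD`, then `S_CloseInv`
for `D1`. -/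
def S_CaseD : Prop := ∀ X : CD, X.Ok0 → ∃ (yh : ℕ) (D' : Dat), X.c1 < yh ∧ yh < X.ck ∧
  yh ∉ X.D.pk ∧ D'.pk = insert yh X.D.pk ∧ D'.fm = X.D.fm ∧
  InvW X.J X.en (fun x => min (X.p x) (8 * yh)) D'

end Pool.Agent.D9f
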