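import Pool.Agent.Lib.MP_d9c039_lc.F.SpecB

set_option autoImplicit false

/-!
# MP_d9c039_lc, the full statement: modules C (foreign marks, pigeonhole, the core step)

The paper proof is note 4671, part (3).  RULES: see the header of `F/SpecA.lean`.
-/

namespace Pool.Agent.D9f

open Finset

/-- forbidden radius of the marks of type `l` -/
def vv : ℕ → ℕ
  | 0 => 0
  | l + 1 => ww l

/-- bound for the number of cells in closed blocks of level `l` in a block of level `l + 1` -/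
def cc : ℕ → ℕ
  | 0 => 2 ^ 29
  | l + 1 => 15 * LL (l + 1)

/-- **VioF** (120 lines): a violation at the cut `n0`. `PP` is nonempty, so `n0 ≤ 8 LL J` (`ple`). Let `x1`
be the least element of `PP en p n0`, `c1 = x1 / 8`, `ck = (n0 - 1) / 8` (`n0 > 0` as `x1 < n0`). All
`x ∈ PP` have `c1 ≤ x / 8 ≤ ck`; at most 8 of them have `x / 8 = c1`, at most 8 have `x / 8 = ck`; so at
least `kk - 16 = 2 ^ 48` of them are in the filter. They lie in the `ck - c1 - 1` cells between, at most 8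
in each (`Finset.card_le_mul_card_image` or the map `x ↦ (x / 8, x % 8)`), so
`2 ^ 45 ≤ ck - c1 - 1`. -/
def S_VioF : Prop := ∀ (J : ℕ) (en : Finset ℕ) (p : ℕ → ℕ) (D : Dat) (n0 : ℕ), InvW J en p D →
  kk ≤ (PP en p n0).card → n0 ≤ 8 * LL J ∧ ∃ x1 c1 ck, x1 ∈ PP en p n0 ∧ x1 < 8 * (c1 + 1) ∧
    8 * ck < n0 ∧ 2 ^ 48 ≤ ((PP en p n0).filter (fun x => c1 < x / 8 ∧ x / 8 < ck)).card ∧
    2 ^ 45 + c1 + 1 ≤ ck

/-- **ClCells** (80 lines, uses `S_CntCl`). `l = 0`: `clo 0 c` means `c ∈ pk`; `S_CntCl` (2) with `neg`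
(`D.f = fS pk e ∅`, `e0`). `l ≥ 1`: the children `i = c / LL l`, `c ∈ s`, are closed and
`i / NN l = q` (`div_succ`), so there are at most 15 of them (`S_CntCl` (1) with `neg` for `l + 1 ≤ J`,
`kapge`: apply it to the image of `s`; the hypothesis on `kap` is needed for all `i` at level `l`:
`kapge l i`), each has at most `LL l` cells of `s` (`mem_blk`). -/
def S_ClCells : Prop := ∀ (J : ℕ) (en : Finset ℕ) (p : ℕ → ℕ) (D : Dat), InvW J en p D →
  ∀ l q, l < J → ∀ s : Finset ℕ, (∀ c ∈ s, D.clo l c ∧ c / LL (l + 1) = q) → s.card ≤ cc l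

/-- **CntF** (140 lines, uses `S_ClCells`): the number of foreign marks of type `l` with
`a ≤ v + vv l`, `v < b + vv l`. The map `v ↦ (tk v, decide (v < tk v / 8))` is injective on these marks
(`inj`); the tokens are in cells `c` with `clo l c` and
`a ≤ c + ww l + vv l`, `c < b + ww l + vv l` (`i4`). So the number is at most `2 * 8 * #C`, `C` the set of
these cells. The interval of these cells has at most `b - a + 2 ww l + 2 vv l` elements, so it meets at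
most `(b - a + 2 ww l + 2 vv l) / LL (l+1) + 2` blocks of level `l + 1`, each of them has at most `cc l`
cells of `C` (`S_ClCells`). -/
def S_CntF : Prop := ∀ (J : ℕ) (en : Finset ℕ) (p : ℕ → ℕ) (D : Dat), InvW J en p D →
  ∀ l a b, l < J → a ≤ b →
    (D.fm.filter (fun v => D.ty v = l ∧ a ≤ v + vv l ∧ v < b + vv l)).card ≤
      16 * cc l * ((b - a + 2 * ww l + 2 * vv l) / LL (l + 1) + 2)

/-- **Room** (150 lines): arithmetic. `i = 0`: `vv 0 = 0`, the left side is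
`16 * 2 ^ 29 * (30 * 2 ^ 40 / 2 ^ 40 + 2) + 2 = 2 ^ 38 + 2 < 10 * 2 ^ 40`. Let `i ≥ 1`,
`W = ww i = LL i ^ 3 ≥ 2 ^ 120`. Term `l = 0`: `2 ^ 33 * ((W + 20 * 2 ^ 40) / 2 ^ 40 + 2) ≤
W / 2 ^ 7 + 2 ^ 38`. Term `1 ≤ l ≤ i`, `L = LL l`: `LL (l+1) = L ^ 4`, `ww l = L ^ 3 ≤ W`,
`vv l ≤ 10 L` (`l = 1`: `10 * 2 ^ 40`; `l ≥ 2`: `ww (l-1) = LL (l-1) ^ 3 ≤ LL (l-1) ^ 4 = L`), so the
term is at most `240 L * (4 W / L ^ 4 + 2) * (21 L) ≤ 20160 W / L ^ 2 + 10080 L ^ 2 ≤ 2 ^ 15 * W / L`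
(as `L ^ 3 ≤ W`), and `L ≥ 2 ^ (39 + l)`: the sum over `l` is at most `W / 2 ^ 23`. Last term:
`2 * (20 LL i + 1) ≤ 2 ^ 6 * LL i ≤ W / 2 ^ 70`. The sum is less than `W`. (Multiply by powers of 2 or work
in `ℝ` with `Nat.cast_div_le`.) -/
def S_Room : Prop := ∀ i, ∑ l ∈ range (i + 1),
  16 * cc l * ((ww i + 2 * ww l + 2 * vv l) / LL (l + 1) + 2) * (2 * vv l + 1) +
    2 * (2 * vv i + 1) < ww i

/-- **Place** (180 lines, uses `S_CntF`, `S_Room`): a free and spaced cell in the window `[a, a + ww i)`. A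
mark `v'` of type `l'` forbids the cells `v` with `v ≤ v' + r` and `v' ≤ v + r`,
`r = vv (min l' i)`, at most `2 r + 1` cells; it forbids a cell of the window only if
`a ≤ v' + r`, `v' < a + ww i + r`. Types `l ≤ i`: `r = vv l`, the number of such marks is bounded by
`S_CntF` with `b = a + ww i`. Types `> i`: `r = vv i`; two such marks have distance `> ww i` (`spc` with
`l = i`), and they lie in an interval of `ww i + 2 vv i ≤ 2 ww i` cells, so there are at most two. By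
`S_Room` fewer than `ww i` cells are forbidden. (`2 vv i ≤ ww i` also follows from `S_Room`.) -/
def S_Place : Prop := ∀ (J : ℕ) (en : Finset ℕ) (p : ℕ → ℕ) (D : Dat), InvW J en p D →
  ∀ i a, i < J → ∃ v, a ≤ v ∧ v < a + ww i ∧
    ∀ v' ∈ D.fm, v' + vv (min (D.ty v') i) < v ∨ v + vv (min (D.ty v') i) < v'

/-- **CaseR** (150 lines, uses `S_Low`, `S_Place`). If `c1 + ww i < x / 8` let `a = x / 8 - ww i` (left
window), otherwise `a = x / 8 + 1` (right window; `x / 8 + ww i < ck`). `S_Place` gives `v`, it is not in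
`fm`, `c1 < v < ck`, `v ≠ x / 8`, `|v - x / 8| ≤ ww i`. `Pre` for the lowered `p` and `D`: `S_Low`. Then
only `i4`, `inj`, `spc` change (`D'.f = D.f`, `D'.U = D.U`, ..: `Function.update` at `v` does not matter
for `v' ∈ fm`, `v' ≠ v`). `i4` for `v`: clear (`p' x ≤ 8 v + 4`). `inj`, `v` and `v' ∈ fm` of type `i`
with token `x` on the same side: `p x ≤ 8 v' + 4` (`i4`) and `x < n0 ≤ p x` (`mem_PP`). Left side,
`v' < x / 8`: `8 v' + 4 < x`, contradiction. Right side: then the right window was used, and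
`8 ck < n0 ≤ 8 v' + 4`, so `ck ≤ v' ≤ x / 8 + ww i < ck`, contradiction. `spc`: `l + 1 ≤ min (ty v') i`
gives `ww l = vv (l+1) ≤ vv (min (ty v') i)` (`vv` is monotone: `ww` is). -/
def S_CaseR : Prop := ∀ (J : ℕ) (en : Finset ℕ) (p : ℕ → ℕ) (D : Dat) (n0 c1 ck x i : ℕ),
  InvW J en p D → 8 * ck < n0 → x ∈ PP en p n0 → c1 < x / 8 → x / 8 < ck → i < J →
  D.clo i (x / 8) → 2 * ww i + 1 + c1 + 1 ≤ ck →
  ∃ (v : ℕ) (D' : Dat), c1 < v ∧ v < ck ∧ v ∉ D.fm ∧ D'.pk = D.pk ∧ D'.fm = insert v D.fm ∧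
    InvW J en (fun t => min (p t) (8 * v + 4)) D'

/-- **Pig** (220 lines, uses `S_CntCl`). Let `U` be the filtered set, `h = ck - c1 - 1`. All cells are
`< LL J` (`8 ck < n0 ≤ 8 LL J`), `h < LL J ≤ 2 ww J + 1` (`J ≥ 1`, `ww J = LL J ^ 3`). Let `t` be the least
`i` with `h < 2 ww i + 1`; `1 ≤ t ≤ J` since `h ≥ 2 ^ 45 ≥ 2 ww 0 + 1`. For `i < t` the hypothesis gives
`¬ clo i (x / 8)` for `x ∈ U`: so `x / 8 ∉ pk` and `(i, x / 8 / LL i)` is open for `1 ≤ i < t`. CASE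
`t = J`: `jb = J`, `qb = 0` (`x / 8 / LL J = 0`), `JJ` any subset of `U` with `2 ^ 43` elements
(`Finset.exists_subset_card_eq`). CASE `t < J`: `h ≤ 2 ww t = 2 LL t ^ 3 ≤ LL t ^ 4 = LL (t+1)`, so
`x / 8 / LL (t+1)` takes at most two values on `U`; one value `q1` is taken at least `2 ^ 47` times, on
`U1 ⊆ U`. The closed blocks `(t, i)` with `i / NN t = q1`: at most 15 (`S_CntCl` (1), `neg` for `t + 1`,
`kapge`; take the image of the tokens of `U1` in closed blocks under `x ↦ x / 8 / LL t`, `div_succ`). If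
one of them has `≥ 2 ^ 43` tokens of `U1`: `jb = t`, `qb = i`. Otherwise at least
`2 ^ 47 - 15 * 2 ^ 43 = 2 ^ 43` tokens `x` of `U1` have `(t, x / 8 / LL t)` open; let `jb` be the least `j`,
`t + 1 ≤ j ≤ J`, with `j = J` or `(j, q1 * LL (t+1) / LL j)` closed, `qb = q1 * LL (t+1) / LL jb`; for
`j ≥ t + 1`: `x / 8 / LL j = q1 * LL (t+1) / LL j` (`div_sub`). -/
def S_Pig : Prop := ∀ (J : ℕ) (en : Finset ℕ) (p : ℕ → ℕ) (D : Dat) (n0 c1 ck : ℕ), 1 ≤ J →
  InvW J en p D → n0 ≤ 8 * LL J → 8 * ck < n0 →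
  2 ^ 48 ≤ ((PP en p n0).filter (fun x => c1 < x / 8 ∧ x / 8 < ck)).card →
  2 ^ 45 + c1 + 1 ≤ ck →
  (∀ x ∈ (PP en p n0).filter (fun x => c1 < x / 8 ∧ x / 8 < ck), ∀ i < J,
    2 * ww i + 1 + c1 + 1 ≤ ck → ¬ D.clo i (x / 8)) →
  ∃ (jb qb : ℕ) (JJ : Finset ℕ), CD.Ok0 ⟨J, en, p, D, n0, c1, ck, jb, qb, JJ, 0, 0⟩

/-- **Core** (130 lines, uses `S_Add`, `S_VioF`, `S_CaseR`, `S_Pig`, `S_CaseD`): the answer to a new token.
`S_Add` gives `InvW` for `en' = insert x en`, `p' = update p x (8 LL J)`. If all `(PP en' p' n).card < kk`: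
first alternative. Otherwise let `n0` be the least `n` with `kk ≤ card`. `x ∈ PP en' p' n0`, since
otherwise `PP en' p' n0 ⊆ PP en p n0`, against `cnt`. Apply `S_VioF`; if some `x'` of the filtered set and
`i < J` have `2 ww i + 1 + c1 + 1 ≤ ck` and `clo i (x' / 8)`: `S_CaseR`, `y = 8 v + 4`; otherwise `S_Pig` and
`S_CaseD`, `y = 8 yh`. In both cases `x1 < 8 (c1 + 1) ≤ y < 8 ck < n0`. `cnt` for `min (p' t) y`: for
`n ≤ y < n0` the set `PP` is the same as for `p'` and `< kk` (`n0` least), for `n > y` it is empty. -/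
def S_Core : Prop := ∀ (J : ℕ) (en : Finset ℕ) (p : ℕ → ℕ) (D : Dat) (x : ℕ), 1 ≤ J →
  Inv J en p D → x ∉ en → x < 8 * LL J →
  Inv J (insert x en) (Function.update p x (8 * LL J)) D ∨
  ∃ (n0 x1 y : ℕ) (D' : Dat),
    n0 ≤ 8 * LL J ∧ x ∈ PP (insert x en) (Function.update p x (8 * LL J)) n0 ∧
    x1 ∈ PP (insert x en) (Function.update p x (8 * LL J)) n0 ∧ x1 < y ∧ y < n0 ∧
    ((∃ c, y = 8 * c ∧ c ∉ D.pk ∧ D'.pk = insert c D.pk ∧ D'.fm = D.fm) ∨
      (∃ c, y = 8 * c + 4 ∧ c ∉ D.fm ∧ D'.pk = D.pk ∧ D'.fm = insert c D.fm)) ∧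
    Inv J (insert x en) (fun t => min (Function.update p x (8 * LL J) t) y) D'

/-- **Reset** (20 lines, uses `S_Low`): all tokens die. `PP en (fun _ => 0) n = ∅`. -/
def S_Reset : Prop := ∀ (J : ℕ) (en : Finset ℕ) (p : ℕ → ℕ) (D : Dat), Inv J en p D →
  Inv J en (fun _ => 0) D

end Pool.Agent.D9f
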