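import Pool.Agent.Lib.MP_d9c039_lc.F.SpecC
import Pool.Agent.Lib.MP_d9c039_lc.V3.Fam8

set_option autoImplicit false

/-!
# MP_d9c039_lc, the full statement: modules G (histories, boards, assembly)

RULES: see the header of `F/SpecA.lean`.  Histories are lists of events, newest first, `(false, x)` an
A-event, `(true, y)` a mark (`V2/Defs.lean`, `V2/Base.lean`: `pendL`, `drn`, `plH`, `pendL_A`,
`pendL_D`, `pendL_filter`, `pendL_lower`, `pendL_split_length`, `drn_of_pend`, ..; `V3/Defs.lean`,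
`V3/Inv.lean`, `V3/Enum.lean`: `mkH`, `mem_plH`, `mem_mkH`, `mkH_cons_A`, `mkH_cons_D`, `new_pend`,
`new_drn`, `plH_append`, `mkH_append`).  The board of the core game is `[S, S + N)`, `N = 8 * LL J`.
-/

namespace Pool.Agent.D9f

open Finset
open Pool.Agent.D9 (cnt resp tabS)
open Pool.Agent.D9b (pendL drn plH LGood mList8 S_Plays S_Search S_Guess S_UM1 S_UM2 S_UM3 S_UC)
open Pool.Agent.D9c (mkH Enu)

/-- the tokens of the board, relative to its left end `S` -/
def er (S : ℕ) (h : List (Bool × ℕ)) : Finset ℕ :=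
  (((plH h).filter (fun x => decide (S ≤ x))).map (fun x => x - S)).toFinset

/-- the least mark after the (relative) token `x`, relative to `S` (`0` for marks `< S`), `N` if there
is none -/
def pr (S N : ℕ) : List (Bool × ℕ) → ℕ → ℕ
  | [], _ => N
  | (true, y) :: t, x => min (pr S N t x) (y - S)
  | (false, y) :: t, x => if y = x + S then N else pr S N t x

/-- the places of the self marks -/
def slf (S y : ℕ) : Prop := y < S ∧ S ≤ 2 * y ∧ y % 8 = 2

/-- packing of the self marks -/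
def Pack (S : ℕ) (h : List (Bool × ℕ)) : Prop :=
  ∀ t ≤ S, (t = 0 ∨ (1 ≤ t ∧ slf S (t - 1) ∧ (true, t - 1) ∉ h)) →
    16 * (mkH h).countP (fun y => decide (t ≤ y ∧ y < S)) + (pendL t S h).length ≤
      (plH h).countP (fun x => decide (t ≤ x ∧ x < S))

/-- the invariant of a board -/
structure BI (S J : ℕ) (h : List (Bool × ℕ)) : Prop where
  nd : (plH h).Nodup
  lt : ∀ x ∈ plH h, x < S + 8 * LL J
  mnd : (mkH h).Nodup
  dr : ∀ n, drn n h ≤ 1
  se : (pendL 0 S h).length < 16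
  pk : Pack S h
  sm : ∀ y, (true, y) ∈ h → y < S → slf S y
  co : ∃ D : Dat, Inv J (er S h) (pr S (8 * LL J) h) D ∧
    ∀ y, (true, y) ∈ h → S ≤ y → ((y - S) % 8 = 0 ∧ (y - S) / 8 ∈ D.pk) ∨
      ((y - S) % 8 = 4 ∧ (y - S) / 8 ∈ D.fm)

/-- **Tr** (120 lines): the pending tokens. Induction on `h`. A mark `y`: `pendL S (n+S)` becomes empty iff
`y < n + S` iff `y - S < n` (`n ≥ 1`), and then `n ≤ min .. (y - S)` is false. An A-event `y`: for
`x + S = y` `pr` is `N ≥ n`, `x + S ∈ pendL` iff `x < n`; by `Nodup` `y` is not an older event. The second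
part: `x ↦ x + S` is a bijection from `PP` onto `(pendL S (n+S) h).toFinset` (all elements of `pendL` are
`≥ S`, `pendL_range`), and `pendL` has no duplicates (`pendL_sublist`). -/
def S_Tr : Prop := ∀ (S N : ℕ) (h : List (Bool × ℕ)) (n : ℕ), (plH h).Nodup → 1 ≤ n → n ≤ N →
  (∀ x, x ∈ PP (er S h) (pr S N h) n ↔ x + S ∈ pendL S (n + S) h) ∧
  (PP (er S h) (pr S N h) n).card = (pendL S (n + S) h).length

/-- **TrS** (60 lines): `er` and `pr` after an event. (`y = x + S` iff `x = y - S` for `S ≤ y`,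
`Function.update_apply`; `y = x + S` is false for `y < S`.) -/
def S_TrS : Prop := ∀ (S N : ℕ) (h : List (Bool × ℕ)) (y : ℕ),
  (S ≤ y → er S ((false, y) :: h) = insert (y - S) (er S h) ∧
    pr S N ((false, y) :: h) = Function.update (pr S N h) (y - S) N) ∧
  (y < S → er S ((false, y) :: h) = er S h ∧ pr S N ((false, y) :: h) = pr S N h) ∧
  er S ((true, y) :: h) = er S h ∧
  (∀ x, pr S N ((true, y) :: h) x = min (pr S N h x) (y - S)) ∧
  (∀ x, x ∈ er S h ↔ x + S ∈ plH h)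

/-- **Self** (220 lines): the self machine (compare `V2/Free1.lean`, `V2/MkPack.lean` and `H1top` in
`V3/P8.lean`). (1): both sides grow by one if `t ≤ x < S`. (2) Let `L = pendL 0 S h`, `x1` its least
element. There is a free place `y` of `slf` with `x1 ≤ y`: otherwise let `t - 1` be the largest free
place `< x1` (or `t = 0`); then all places of `slf` in `[t, S)` are marks, `pendL t S h = L`
(`pendL_filter`), and `Pack` gives `16 * (#places in [t, S) + 1) ≤ #(A-events in [t, S)) ≤ S - t`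
(`countP_range_le`), against: for `16 ∣ S`, `16 ≤ S`, `t ≤ S`:
`S - t < 16 * (#{y ∈ [t, S) | slf S y} + 1)` (`S/2` is a multiple of `8`, the places are the `y ≡ 2 mod 8`
in `[S/2, S)`). Take the least such `y`. `Pack` after the mark: if not `t ≤ y` nothing changes except
that `pendL t S` becomes empty; if `t ≤ y` then `t ≤ x1` (for `t ≥ 1` the free place `t - 1 < y` is not
`≥ x1`, and `t - 1 ≠ y`), so `pendL t S h = L` has at least 16 elements and the new `pendL` is empty. -/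
def S_Self : Prop := (∀ (S : ℕ) (h : List (Bool × ℕ)) (x : ℕ), Pack S h → Pack S ((false, x) :: h)) ∧
  ∀ (S : ℕ) (h : List (Bool × ℕ)), 16 ∣ S → 16 ≤ S → (plH h).Nodup → (mkH h).Nodup →
    (∀ y, (true, y) ∈ h → y < S → slf S y) → Pack S h → 16 ≤ (pendL 0 S h).length →
    ∃ y, slf S y ∧ (true, y) ∉ h ∧ (∃ x1 ∈ pendL 0 S h, x1 ≤ y) ∧ Pack S ((true, y) :: h)

/-- **BInit** (30 lines, uses `S_Init`). `er S [] = ∅`, `D0`, everything else is trivial
(`pendL 0 S [] = []`, `Pack`: `0 ≤ 0`). -/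
def S_BInit : Prop := ∀ S J, BI S J []

/-- **BSelf** (130 lines, uses `S_TrS`, `S_Self`, `S_Reset`): an A-event `x < S`. Let
`h1 = (false, x) :: h`; `er`, `pr` do not change (`S_TrS`), `drn n h1 ≤ 1` (`drn_A`), `Pack` by `S_Self`
(1), `mkH h1 = mkH h`. If `(pendL 0 S h1).length < 16`: first alternative. Otherwise `S_Self` (2) gives
`y`, `x1`; `h2 = (true, y) :: h1`. `pendL 0 S h2 = []`. `drn n h2`: for `n ≤ y` unchanged; for `y < n`: if
`x < n` then `drn n h1 = 0`; if `n ≤ x` then `x1 ≤ y < n ≤ x < S` and `drn n h1 = 0` by `drn_of_pend`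
(`a = 0`, `b = S`). Core: `pr S N h2 = fun _ => 0` (`y - S = 0`), `S_Reset`, the same `D`. -/
def S_BSelf : Prop := ∀ (S J : ℕ) (h : List (Bool × ℕ)) (x : ℕ), 16 ∣ S → 16 ≤ S → BI S J h →
  x < S → x ∉ plH h → BI S J ((false, x) :: h) ∨
    ∃ y, slf S y ∧ (true, y) ∉ h ∧ BI S J ((true, y) :: (false, x) :: h)

/-- **BCore** (180 lines, uses `S_Tr`, `S_TrS`, `S_Self`, `S_Core`): an A-event `x ≥ S`. Let
`h1 = (false, x) :: h`, `N = 8 LL J`. `pendL 0 S h1 = pendL 0 S h` (`x ≥ S`), `Pack` by `S_Self` (1),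
`er`, `pr` by `S_TrS`. `S_Core` for `x - S` (`∉ er S h` by `S_TrS`). First alternative: `BI` for `h1`.
Second: `n0`, `x1`, `y0`; the mark is `y = S + y0`, `h2 = (true, y) :: h1`; `pr S N h2 = min .. y0`
(`y - S = y0`). `y` is new: otherwise by `co` `y0 = 8 c` with `c ∈ D.pk` or `y0 = 8 c + 4` with
`c ∈ D.fm`. `pendL 0 S`, `Pack`, `sm` do not change (`y ≥ S`; `countP` of `y < S`). `dr`: for `n ≤ y`
unchanged. For `y < n`: if `x < n` then `drn n h1 = 0` (`drn_A`). If `n ≤ x`: `x - S < n0`, so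
`n ≤ n0 + S`; `x1 + S ∈ pendL S (n0 + S) h1` (`S_Tr` with `n = n0 ≥ 1`), `x1 + S < y < n`, so
`drn n h1 = 0` by `drn_of_pend`. `co`: the new `D'`. Also `y < S + N` (`y0 < n0 ≤ N`) and `4 ∣ y0`. -/
def S_BCore : Prop := ∀ (S J : ℕ) (h : List (Bool × ℕ)) (x : ℕ), 1 ≤ J → BI S J h →
  S ≤ x → x < S + 8 * LL J → x ∉ plH h → BI S J ((false, x) :: h) ∨
    ∃ y, S ≤ y ∧ y < S + 8 * LL J ∧ (y - S) % 4 = 0 ∧ (true, y) ∉ h ∧
      BI S J ((true, y) :: (false, x) :: h)

/-- **LG** (220 lines): a general lemma, extracted from `V2/Board.lean` (`tBoard`). By choice there is a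
response `nx h x : Option ℕ` with the property of the step; run it along a play `p` (oldest first):
`run [] = []`, `run (p ++ [x]) = (false, x) :: run p` or `(true, y) :: (false, x) :: run p`; `σ p` is the
last response. `plH (run p) = p.reverse`, `mkH (run p) = (resp σ p).reverse`. If the number of marks
`< n` does not change between `p.take i` and `p`, the A-events `< n` in between are all in `pendL 0 n` of
the final history (`new_pend`); if the number of A-events `< n` does not change, the marks `< n` in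
between are counted by `drn n` (`new_drn`). -/
def S_LG : Prop := ∀ (S' : ℕ) (M : List ℕ) (C : List (ℕ × ℕ)) (I : List (Bool × ℕ) → Prop), I [] →
  (∀ h x, I h → x < S' → x ∉ plH h → I ((false, x) :: h) ∨
    ∃ y ∈ M, (true, y) ∉ h ∧ I ((true, y) :: (false, x) :: h)) →
  (∀ h, I h → ∀ e ∈ C, (pendL 0 e.1 h).length ≤ e.2) →
  (∀ h, I h → ∀ n, drn n h ≤ 1) → ∃ σ, LGood S' M C σ

/-- the sizes of the boards -/
def Sz : ℕ → ℕ
  | 0 => 16
  | L + 1 => Sz L + 8 * 2 ^ (40 * 4 ^ L)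

/-- the cuts of the board `L`, all with the bound `kk + 16` -/
def CL (L : ℕ) : List (ℕ × ℕ) :=
  ((List.range (Sz (L + 1))).filter (fun n => decide (Sz L ≤ n))).map (fun n => (n, kk + 16))

/-- **Brd** (100 lines, uses `S_Tr`, `S_BInit`, `S_BSelf`, `S_BCore`, `S_LG`). `S_LG` with
`S' = Sz (L + 1) = S + 8 LL (L + 1)`, `S = Sz L`, `I = BI S (L + 1)`. `16 ∣ Sz L`, `16 ≤ Sz L` (induction,
`2 ∣ 2 ^ (40 * 4 ^ L)`). A self mark is in `mList8` (`y < S`, `S ≤ 2 y`, `y % 8 = 2`), a core mark too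
(`S ≤ y`, `y % 4 = 0` as `4 ∣ S`). A cut `n` with `S ≤ n < S'`:
`(pendL 0 n h).length ≤ (pendL 0 S h).length + (pendL S n h).length` (`pendL_split_length`), the first is
`< 16`, the second is `0` for `n = S` (`pendL_self`) and `< kk` for `n = S + n'`, `1 ≤ n' ≤ N`, by `S_Tr` and
`cnt`. -/
def S_Brd : Prop := ∀ L, ∃ σ, LGood (Sz (L + 1)) (mList8 (Sz L) (Sz (L + 1))) (CL L) σ

/-- **SzC** (80 lines): `Sz` is computable (`Primrec.nat_rec`, exponentiation is primitive recursive: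
`Primrec₂` of `fun a b => a ^ b`; compare `V2/CompT.lean`), so is `CL` (`kk` is a constant);
`L < Sz L`; `2 * Sz L ≤ Sz (L + 1)` (`Sz L ≤ 8 * 2 ^ (40 * 4 ^ L)` by induction). -/
def S_SzC : Prop := Computable Sz ∧ Computable CL ∧ (∀ L, L < Sz L) ∧ (∀ L, 2 * Sz L ≤ Sz (L + 1)) ∧
  ∀ n, 16 ≤ n → ∃ L, Sz L ≤ n ∧ n < Sz (L + 1)

/-- **Fin** (120 lines, uses `S_Brd`, `S_SzC`, `S_Plays`, `S_Search`, `S_Guess`, `Pool.Agent.D9.EnumB`,
`S_UM1`, `S_UM2`, `S_UM3`, `S_UC`): the frozen statement. Follow `V3/Fin.lean` (`theorem fin`) with only the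
machine of `fam8` (`Pool.Agent.D9b.fam8`, `V3/Fam8.lean`): `EnumB` gives the enumeration `a` (`Enu a`),
`fam8` the marks `d`; `D = {x | ∃ s, x ∈ d s}` (`re_of_stages` of `V3/Fin.lean`: copy it), all even. For
`n < 16` the bound `16` is trivial (`cnt (a s') n ≤ n`, `Nodup`); for `n ≥ 16` take `L` from `S_SzC`, the
cut `(n, kk + 16)` is in `CL L`. So `S_Guess` applies with the constant bounds `b = kk + 16` and `2`. -/
def S_Fin : Prop :=
  ∀ A : Set ℕ, REPred (fun n : ℕ => n ∈ A) →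
    ∃ D : Set ℕ, REPred (fun n : ℕ => n ∈ D) ∧ (∀ n ∈ D, Even n) ∧
      (∃ φ : List Bool × ℕ →. List Bool, Partrec φ ∧ ∃ c : ℕ, ∀ n : ℕ, ∀ τ : List Bool,
        τ.length = n → (∀ i < n, (τ.getD i false = true ↔ i ∈ D)) →
        ∃ j ≤ c, ∃ σ ∈ φ (τ, j), σ.length = n ∧
          ∀ i < n, (σ.getD i false = true ↔ i ∈ A)) ∧
      (∃ ψ : List Bool × ℕ →. List Bool, Partrec ψ ∧ ∃ c : ℕ, ∀ n : ℕ, ∀ τ : List Bool,
        τ.length = n → (∀ i < n, (τ.getD i false = true ↔ i ∈ A)) →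
        ∃ j ≤ c, ∃ σ ∈ ψ (τ, j), σ.length = n ∧
          ∀ i < n, (σ.getD i false = true ↔ i ∈ D))

end Pool.Agent.D9f
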