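import Pool.Agent.Lib.MP_d9c039_lc.F.SpecA

set_option autoImplicit false

/-!
# MP_d9c039_lc, the full statement: bounds for the price
-/

namespace Pool.Agent.D9f

open Finset

theorem tTh : S_Th := by
  intro F f j c hj
  induction j with
  | zero => omega
  | succ j ih =>
    cases j with
    | zero =>
      rw [Fz.th_one]
      have := zz_pos
      refine ⟨this.le, ?_⟩
      have h : 2 * zz / 2 ^ (0 + 1) = zz := by
        rw [zero_add, pow_one]
        ring
      rw [h]
    | succ j =>
      obtain ⟨h1, h2⟩ := ih (by omega)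
      rw [Fz.th_succ]
      have h3 := F.ep_nonneg f (j + 1) (c / LL (j + 1))
      have h4 := F.ep_le f (j + 1) (c / LL (j + 1))
      refine ⟨mul_nonneg h1 h3, ?_⟩
      have h5 : 2 * zz / 2 ^ (j + 1 + 1) = 2 * zz / 2 ^ (j + 1) * (1 / 2) := by
        rw [pow_succ 2 (j + 1)]
        field_simp
      rw [h5]
      exact mul_le_mul h2 h4 h3 (h1.trans h2)

end Pool.Agent.D9f
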