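import Pool.Agent.Lib.MP_d9c039_lc.F.SpecB

set_option autoImplicit false

/-!
# MP_d9c039_lc, module ThC: comparison of old and new prices
-/

namespace Pool.Agent.D9f

open Finset

private theorem ThC_exp : Real.exp (2 * zz * 4) ≤ 1.001 := by
  have h := exp_zz_le (a := 8) (by norm_num)
  have e : 2 * zz * 4 = 8 * zz := by ring
  rw [e]
  exact h

private theorem ThC_nonneg (F : Fz) (f : ℕ → ℝ) (c j : ℕ) : 0 ≤ F.th f (j + 1) c := by
  induction j with
  | zero => exact zz_pos.le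
  | succ j ih =>
    rw [Fz.th_succ]
    exact mul_nonneg ih (Fz.ep_nonneg _ _ _ _)

theorem tThC (h1 : S_ThCmp) (h2 : S_Lip) (h3 : S_TV) : S_ThC := by
  intro X hX j c hj
  have hz : ∀ i : ℕ, 0 ≤ 2 * zz / 2 ^ i := fun i =>
    div_nonneg (mul_nonneg zero_le_two zz_pos.le) (pow_nonneg zero_le_two i)
  have hn : ∀ f : ℕ → ℝ, 0 ≤ X.D.th f j c := by
    intro f
    obtain ⟨i, rfl⟩ : ∃ i, j = i + 1 := ⟨j - 1, by omega⟩
    exact ThC_nonneg _ _ _ _
  have key : ∀ f f' : ℕ → ℝ, (∀ i q, ∑ c ∈ blk i q, max (f' c - f c) 0 ≤ 4) →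
      X.D.th f' j c ≤ 1.001 * X.D.th f j c := by
    intro f f' h
    refine (h1 X.D.toFz f f' j c 4 hj (by norm_num) fun i hi _ => ?_).trans
      (mul_le_mul_of_nonneg_right ThC_exp (hn f))
    exact (h2.1 X.D.toFz f f' i (c / LL i) hi).trans
      (mul_le_mul_of_nonneg_left (h i (c / LL i)) (hz i))
  have a := key X.D.f X.D1.f fun i q => by
    have h := (h3 X hX i q).1
    have h4 : 1 + 2064 * zz ≤ 4 := by
      unfold zz
      norm_num
    exact h.trans h4
  have b := key X.D1.f X.D.f fun i q => (h3 X hX i q).2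
  refine ⟨a, ?_⟩
  have h5 := hn X.D1.f
  linarith

end Pool.Agent.D9f
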